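import Mathlib

set_option autoImplicit false

/-!
# A sum of residues on a double cover of the line
-/

namespace Pool.Agent.H884.TF

open Polynomial Finset

variable {K : Type} [Field K] [CharZero K]

/-- A derivation acting on the coefficients. -/
noncomputable def dP (D : Derivation ℚ K K) (p : K[X]) : K[X] :=
  ∑ i ∈ p.support, monomial i (D (p.coeff i))

theorem coeff_dP (D : Derivation ℚ K K) (p : K[X]) (n : ℕ) :
    (dP D p).coeff n = D (p.coeff n) := by
  unfold dP
  rw [finsetSum_coeff]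
  simp only [coeff_monomial]
  rw [Finset.sum_ite_eq']
  split_ifs with h
  · rfl
  · rw [notMem_support_iff.1 h, map_zero]

theorem dP_add (D : Derivation ℚ K K) (p q : K[X]) : dP D (p + q) = dP D p + dP D q := by
  ext n
  simp only [coeff_dP, coeff_add, map_add]

theorem dP_zero (D : Derivation ℚ K K) : dP D 0 = 0 := by
  ext n
  simp only [coeff_dP, coeff_zero, map_zero]

theorem dP_mul (D : Derivation ℚ K K) (p q : K[X]) :
    dP D (p * q) = dP D p * q + p * dP D q := by
  ext n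
  rw [coeff_dP, coeff_mul, coeff_add, coeff_mul, coeff_mul, map_sum, ← Finset.sum_add_distrib]
  refine Finset.sum_congr rfl fun x _ => ?_
  rw [Derivation.leibniz, coeff_dP, coeff_dP, smul_eq_mul, smul_eq_mul]
  ring

theorem dP_C (D : Derivation ℚ K K) (c : K) : dP D (C c) = C (D c) := by
  ext n
  rw [coeff_dP, coeff_C, coeff_C]
  split_ifs
  · rfl
  · exact map_zero D

theorem dP_X (D : Derivation ℚ K K) : dP D (X : K[X]) = 0 := by
  ext n
  rw [coeff_dP, coeff_X, coeff_zero]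
  split_ifs
  · exact D.map_one_eq_zero
  · exact map_zero D

theorem dP_sub (D : Derivation ℚ K K) (p q : K[X]) : dP D (p - q) = dP D p - dP D q := by
  ext n
  simp only [coeff_dP, coeff_sub, map_sub]

theorem dP_neg (D : Derivation ℚ K K) (p : K[X]) : dP D (-p) = - dP D p := by
  ext n
  simp only [coeff_dP, coeff_neg, map_neg]

theorem dP_sum (D : Derivation ℚ K K) {ι : Type} (s : Finset ι) (f : ι → K[X]) :
    dP D (∑ i ∈ s, f i) = ∑ i ∈ s, dP D (f i) := by
  ext n
  simp only [coeff_dP, finsetSum_coeff, map_sum]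

theorem dP_pow_const (D : Derivation ℚ K K) {p : K[X]} (h : dP D p = 0) (n : ℕ) :
    dP D (p ^ n) = 0 := by
  induction n with
  | zero =>
    rw [pow_zero, show (1 : K[X]) = C 1 from C_1.symm, dP_C, D.map_one_eq_zero, C_0]
  | succ n ih => rw [pow_succ, dP_mul, ih, h, zero_mul, mul_zero, add_zero]

theorem dP_pow (D : Derivation ℚ K K) (p : K[X]) (n : ℕ) :
    dP D (p ^ (n + 1)) = ((n + 1 : ℕ) : K[X]) * (p ^ n * dP D p) := by
  induction n with
  | zero => simp
  | succ n ih =>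
    rw [pow_succ, dP_mul, ih]
    push_cast
    ring

theorem dP_lin (D : Derivation ℚ K K) (c : K) : dP D (X - C c) = - C (D c) := by
  rw [dP_sub, dP_X, dP_C, zero_sub]

/-- The power sums `(α ρ) ^ n + τ ^ n` of the roots. -/
noncomputable def TT {R : Type} [CommRing R] (α β γ : R) : ℕ → R
  | 0 => 2
  | 1 => -β
  | (n + 2) => -β * TT α β γ (n + 1) - α * γ * TT α β γ n

/-- The quotients `((α ρ) ^ n - τ ^ n) / (α ρ - τ)`. -/
noncomputable def UU {R : Type} [CommRing R] (α β γ : R) : ℕ → R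
  | 0 => 0
  | 1 => 1
  | (n + 2) => -β * UU α β γ (n + 1) - α * γ * UU α β γ n

theorem TT_eq {R : Type} [CommRing R] {α β γ ρ τ : R} (h1 : α * ρ + τ = -β) (h2 : ρ * τ = γ) :
    ∀ n, TT α β γ n = (α * ρ) ^ n + τ ^ n ∧ TT α β γ (n + 1) = (α * ρ) ^ (n + 1) + τ ^ (n + 1)
  | 0 => by
    constructor
    · simp only [TT, pow_zero]; norm_num
    · simp only [TT, zero_add, pow_one]; exact h1.symm
  | (n + 1) => by
    obtain ⟨a, b⟩ := TT_eq h1 h2 n
    refine ⟨b, ?_⟩
    rw [show n + 1 + 1 = n + 2 from rfl, TT, a, b, ← h1, ← h2]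
    ring

theorem UU_eq {R : Type} [CommRing R] {α β γ ρ τ : R} (h1 : α * ρ + τ = -β) (h2 : ρ * τ = γ) :
    ∀ n, (α * ρ - τ) * UU α β γ n = (α * ρ) ^ n - τ ^ n ∧
      (α * ρ - τ) * UU α β γ (n + 1) = (α * ρ) ^ (n + 1) - τ ^ (n + 1)
  | 0 => by
    constructor
    · simp [UU]
    · simp [UU]
  | (n + 1) => by
    obtain ⟨a, b⟩ := UU_eq h1 h2 n
    refine ⟨b, ?_⟩
    rw [show n + 1 + 1 = n + 2 from rfl, UU, mul_sub, ← mul_assoc, ← mul_assoc,
      mul_comm (α * ρ - τ) (-β), mul_comm (α * ρ - τ) (α * γ), mul_assoc, mul_assoc (α * γ), a, b,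
      ← h1, ← h2]
    ring

/-- The symmetric kernel. -/
noncomputable def EE {R : Type} [CommRing R] (α β γ : R) (d k l : ℕ) : R :=
  α ^ (d - max k l) * γ ^ (min k l) * TT α β γ (max k l - min k l)

/-- The antisymmetric kernel. -/
noncomputable def HH {R : Type} [CommRing R] (α β γ : R) (d k l : ℕ) : R :=
  α ^ (d - max k l) * γ ^ (min k l) * (UU α β γ (l - k) - UU α β γ (k - l))

theorem EE_eq {R : Type} [CommRing R] {α β γ ρ τ : R} (h1 : α * ρ + τ = -β) (h2 : ρ * τ = γ)
    {d k l : ℕ} (hk : k ≤ d) (hl : l ≤ d) :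
    EE α β γ d k l = ρ ^ k * (α ^ (d - l) * τ ^ l) + ρ ^ l * (α ^ (d - k) * τ ^ k) := by
  unfold EE
  rcases le_total k l with h | h
  · rw [max_eq_right h, min_eq_left h, (TT_eq h1 h2 _).1]
    obtain ⟨n, rfl⟩ := Nat.exists_eq_add_of_le h
    obtain ⟨e, rfl⟩ := Nat.exists_eq_add_of_le hl
    rw [show k + n + e - (k + n) = e by omega, show k + n - k = n by omega,
      show k + n + e - k = n + e by omega, ← h2, mul_pow, mul_pow, pow_add, pow_add, pow_add]
    ring
  · rw [max_eq_left h, min_eq_right h, (TT_eq h1 h2 _).1]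
    obtain ⟨n, rfl⟩ := Nat.exists_eq_add_of_le h
    obtain ⟨e, rfl⟩ := Nat.exists_eq_add_of_le hk
    rw [show l + n + e - (l + n) = e by omega, show l + n - l = n by omega,
      show l + n + e - l = n + e by omega, ← h2, mul_pow, mul_pow, pow_add, pow_add, pow_add]
    ring

theorem HH_eq {R : Type} [CommRing R] {α β γ ρ τ : R} (h1 : α * ρ + τ = -β) (h2 : ρ * τ = γ)
    {d k l : ℕ} (hk : k ≤ d) (hl : l ≤ d) :
    (α * ρ - τ) * HH α β γ d k l =
      ρ ^ l * (α ^ (d - k) * τ ^ k) - ρ ^ k * (α ^ (d - l) * τ ^ l) := by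
  unfold HH
  rcases le_total k l with h | h
  · rw [max_eq_right h, min_eq_left h, show k - l = 0 by omega]
    have h3 := (UU_eq h1 h2 (l - k)).1
    obtain ⟨n, rfl⟩ := Nat.exists_eq_add_of_le h
    obtain ⟨e, rfl⟩ := Nat.exists_eq_add_of_le hl
    rw [show k + n - k = n by omega] at *
    rw [show k + n + e - (k + n) = e by omega,
      show k + n + e - k = n + e by omega, UU, sub_zero, mul_left_comm, h3, ← h2, mul_pow, mul_pow,
      pow_add, pow_add, pow_add]
    ring
  · rw [max_eq_left h, min_eq_right h, show l - k = 0 by omega]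
    have h3 := (UU_eq h1 h2 (k - l)).1
    obtain ⟨n, rfl⟩ := Nat.exists_eq_add_of_le h
    obtain ⟨e, rfl⟩ := Nat.exists_eq_add_of_le hk
    rw [show l + n - l = n by omega] at *
    rw [show l + n + e - (l + n) = e by omega,
      show l + n + e - l = n + e by omega, UU, zero_sub, mul_neg, mul_neg, mul_left_comm, h3,
      ← h2, mul_pow, mul_pow, pow_add, pow_add, pow_add]
    ring

/-- The symmetric form. -/
noncomputable def SS {R : Type} [CommRing R] (α β γ : R) (d : ℕ) (F G : ℕ → R) : R :=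
  ∑ k ∈ range (d + 1), ∑ l ∈ range (d + 1), F k * G l * EE α β γ d k l

/-- The antisymmetric form. -/
noncomputable def WW {R : Type} [CommRing R] (α β γ : R) (d : ℕ) (F G : ℕ → R) : R :=
  ∑ k ∈ range (d + 1), ∑ l ∈ range (d + 1), F k * G l * HH α β γ d k l

theorem SS_eq {R : Type} [CommRing R] {α β γ ρ τ : R} (h1 : α * ρ + τ = -β) (h2 : ρ * τ = γ)
    (d : ℕ) (F G : ℕ → R) :
    SS α β γ d F G =
      (∑ k ∈ range (d + 1), F k * ρ ^ k) * (∑ l ∈ range (d + 1), G l * (α ^ (d - l) * τ ^ l)) +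
      (∑ l ∈ range (d + 1), G l * ρ ^ l) * (∑ k ∈ range (d + 1), F k * (α ^ (d - k) * τ ^ k)) := by
  unfold SS
  rw [Finset.sum_mul_sum, Finset.sum_mul_sum, Finset.sum_comm (s := range (d + 1))
    (f := fun l k => G l * ρ ^ l * (F k * (α ^ (d - k) * τ ^ k))), ← Finset.sum_add_distrib]
  refine Finset.sum_congr rfl fun k hk => ?_
  rw [← Finset.sum_add_distrib]
  refine Finset.sum_congr rfl fun l hl => ?_
  rw [Finset.mem_range] at hk hl
  rw [EE_eq h1 h2 (by omega) (by omega)]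
  ring

theorem WW_eq {R : Type} [CommRing R] {α β γ ρ τ : R} (h1 : α * ρ + τ = -β) (h2 : ρ * τ = γ)
    (d : ℕ) (F G : ℕ → R) :
    (α * ρ - τ) * WW α β γ d F G =
      (∑ l ∈ range (d + 1), G l * ρ ^ l) * (∑ k ∈ range (d + 1), F k * (α ^ (d - k) * τ ^ k)) -
      (∑ k ∈ range (d + 1), F k * ρ ^ k) * (∑ l ∈ range (d + 1), G l * (α ^ (d - l) * τ ^ l)) := by
  unfold WW
  rw [Finset.sum_mul_sum, Finset.sum_mul_sum, Finset.sum_comm (s := range (d + 1))
    (f := fun l k => G l * ρ ^ l * (F k * (α ^ (d - k) * τ ^ k))), ← Finset.sum_sub_distrib,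
    Finset.mul_sum]
  refine Finset.sum_congr rfl fun k hk => ?_
  rw [← Finset.sum_sub_distrib, Finset.mul_sum]
  refine Finset.sum_congr rfl fun l hl => ?_
  rw [Finset.mem_range] at hk hl
  rw [mul_left_comm, HH_eq h1 h2 (by omega) (by omega)]
  ring

end Pool.Agent.H884.TF
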