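import Pool.Agent.H884.TF.Abel

set_option autoImplicit false

/-!
# A sum of residues on a double cover of the line: the theorem
-/

namespace Pool.Agent.H884.TF

open Polynomial Finset

theorem map_TT {R S : Type} [CommRing R] [CommRing S] (φ : R →+* S) (α β γ : R) :
    ∀ n, φ (TT α β γ n) = TT (φ α) (φ β) (φ γ) n ∧
      φ (TT α β γ (n + 1)) = TT (φ α) (φ β) (φ γ) (n + 1)
  | 0 => by
    constructor
    · rw [TT, TT, map_ofNat]
    · simp [TT]
  | (n + 1) => by
    obtain ⟨a, b⟩ := map_TT φ α β γ n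
    refine ⟨b, ?_⟩
    rw [show n + 1 + 1 = n + 2 from rfl, TT, TT, map_sub, map_mul, map_mul, map_mul, map_neg, a, b]

theorem map_UU {R S : Type} [CommRing R] [CommRing S] (φ : R →+* S) (α β γ : R) :
    ∀ n, φ (UU α β γ n) = UU (φ α) (φ β) (φ γ) n ∧
      φ (UU α β γ (n + 1)) = UU (φ α) (φ β) (φ γ) (n + 1)
  | 0 => by
    constructor
    · simp [UU]
    · simp [UU]
  | (n + 1) => by
    obtain ⟨a, b⟩ := map_UU φ α β γ n
    refine ⟨b, ?_⟩
    rw [show n + 1 + 1 = n + 2 from rfl, UU, UU, map_sub, map_mul, map_mul, map_mul, map_neg, a, b]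

theorem map_SS {R S : Type} [CommRing R] [CommRing S] (φ : R →+* S) (α β γ : R) (d : ℕ)
    (F G : ℕ → R) : φ (SS α β γ d F G) =
      SS (φ α) (φ β) (φ γ) d (fun k => φ (F k)) (fun k => φ (G k)) := by
  unfold SS EE
  simp only [map_sum, map_mul, map_pow, (map_TT φ α β γ _).1]

theorem map_WW {R S : Type} [CommRing R] [CommRing S] (φ : R →+* S) (α β γ : R) (d : ℕ)
    (F G : ℕ → R) : φ (WW α β γ d F G) =
      WW (φ α) (φ β) (φ γ) d (fun k => φ (F k)) (fun k => φ (G k)) := by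
  unfold WW HH
  simp only [map_sum, map_mul, map_pow, map_sub, (map_UU φ α β γ _).1]

set_option linter.unusedSectionVars false

variable {K : Type} [Field K] [CharZero K]

theorem deg_TT {α β γ : K[X]} (h1 : α.natDegree ≤ 1) (h2 : β.natDegree ≤ 2)
    (h3 : γ.natDegree ≤ 3) : ∀ n, (TT α β γ n).natDegree ≤ 2 * n ∧
      (TT α β γ (n + 1)).natDegree ≤ 2 * (n + 1)
  | 0 => by
    constructor
    · rw [TT]
      exact (natDegree_ofNat 2).le
    · rw [zero_add, TT, natDegree_neg]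
      exact h2
  | (n + 1) => by
    obtain ⟨a, b⟩ := deg_TT h1 h2 h3 n
    refine ⟨b, ?_⟩
    rw [show n + 1 + 1 = n + 2 from rfl, TT]
    refine (natDegree_sub_le_of_le (m := 2 * (n + 2)) (n := 2 * (n + 2)) ?_ ?_).trans (by simp)
    · refine (natDegree_mul_le_of_le (m := 2) (by rw [natDegree_neg]; exact h2) b).trans (by omega)
    · refine (natDegree_mul_le_of_le (natDegree_mul_le_of_le h1 h3) a).trans (by omega)

theorem deg_UU {α β γ : K[X]} (h1 : α.natDegree ≤ 1) (h2 : β.natDegree ≤ 2)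
    (h3 : γ.natDegree ≤ 3) : ∀ n, (UU α β γ (n + 1)).natDegree ≤ 2 * n ∧
      (UU α β γ (n + 2)).natDegree ≤ 2 * (n + 1)
  | 0 => by
    constructor
    · simp [UU]
    · simp [UU]
      exact h2
  | (n + 1) => by
    obtain ⟨a, b⟩ := deg_UU h1 h2 h3 n
    refine ⟨b, ?_⟩
    rw [show n + 1 + 2 = (n + 1) + 2 from rfl, UU]
    refine (natDegree_sub_le_of_le (m := 2 * (n + 2)) (n := 2 * (n + 2)) ?_ ?_).trans (by simp)
    · refine (natDegree_mul_le_of_le (m := 2) (by rw [natDegree_neg]; exact h2) b).trans (by omega)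
    · refine (natDegree_mul_le_of_le (natDegree_mul_le_of_le h1 h3) a).trans (by omega)

theorem deg_EE {α β γ : K[X]} (h1 : α.natDegree ≤ 1) (h2 : β.natDegree ≤ 2)
    (h3 : γ.natDegree ≤ 3) {d k l : ℕ} (hk : k ≤ d) (hl : l ≤ d) :
    (EE α β γ d k l).natDegree ≤ d + k + l := by
  unfold EE
  refine (natDegree_mul_le_of_le (natDegree_mul_le_of_le
    (natDegree_pow_le_of_le (d - max k l) h1) (natDegree_pow_le_of_le (min k l) h3))
    (deg_TT h1 h2 h3 (max k l - min k l)).1).trans ?_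
  rcases le_total k l with h | h
  · rw [max_eq_right h, min_eq_left h]
    omega
  · rw [max_eq_left h, min_eq_right h]
    omega

theorem deg_HH {α β γ : K[X]} (h1 : α.natDegree ≤ 1) (h2 : β.natDegree ≤ 2)
    (h3 : γ.natDegree ≤ 3) {d k l : ℕ} (hk : k ≤ d) (hl : l ≤ d) :
    (HH α β γ d k l).natDegree ≤ d + k + l - 2 := by
  rcases lt_trichotomy k l with h | h | h
  · unfold HH
    obtain ⟨n, hn⟩ : ∃ n, l - k = n + 1 := ⟨l - k - 1, by omega⟩
    rw [show k - l = 0 by omega, hn, show UU α β γ 0 = 0 from rfl, sub_zero]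
    refine (natDegree_mul_le_of_le (natDegree_mul_le_of_le
      (natDegree_pow_le_of_le (d - max k l) h1) (natDegree_pow_le_of_le (min k l) h3))
      (deg_UU h1 h2 h3 n).1).trans ?_
    rw [max_eq_right h.le, min_eq_left h.le]
    omega
  · subst h
    unfold HH
    rw [Nat.sub_self, sub_self, mul_zero, natDegree_zero]
    exact Nat.zero_le _
  · unfold HH
    obtain ⟨n, hn⟩ : ∃ n, k - l = n + 1 := ⟨k - l - 1, by omega⟩
    rw [show l - k = 0 by omega, hn, show UU α β γ 0 = 0 from rfl, zero_sub]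
    refine (natDegree_mul_le_of_le (natDegree_mul_le_of_le
      (natDegree_pow_le_of_le (d - max k l) h1) (natDegree_pow_le_of_le (min k l) h3))
      (n := 2 * n) (by rw [natDegree_neg]; exact (deg_UU h1 h2 h3 n).1)).trans ?_
    rw [max_eq_left h.le, min_eq_right h.le]
    omega

theorem deg_SS {α β γ : K[X]} (h1 : α.natDegree ≤ 1) (h2 : β.natDegree ≤ 2)
    (h3 : γ.natDegree ≤ 3) {d : ℕ} {F G : ℕ → K[X]} (hF : ∀ k, (F k).natDegree ≤ d - k)
    (hG : ∀ k, (G k).natDegree ≤ d - k) : (SS α β γ d F G).natDegree ≤ 3 * d := by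
  unfold SS
  refine natDegree_sum_le_of_forall_le _ _ fun k hk => ?_
  refine natDegree_sum_le_of_forall_le _ _ fun l hl => ?_
  rw [Finset.mem_range] at hk hl
  refine (natDegree_mul_le_of_le (natDegree_mul_le_of_le (hF k) (hG l))
    (deg_EE h1 h2 h3 (show k ≤ d by omega) (show l ≤ d by omega))).trans ?_
  omega

theorem deg_WW {α β γ : K[X]} (h1 : α.natDegree ≤ 1) (h2 : β.natDegree ≤ 2)
    (h3 : γ.natDegree ≤ 3) {d : ℕ} (hd : 1 ≤ d) {F G : ℕ → K[X]}
    (hF : ∀ k, (F k).natDegree ≤ d - k)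
    (hG : ∀ k, (G k).natDegree ≤ d - k) : (WW α β γ d F G).natDegree ≤ 3 * d - 2 := by
  unfold WW
  refine natDegree_sum_le_of_forall_le _ _ fun k hk => ?_
  refine natDegree_sum_le_of_forall_le _ _ fun l hl => ?_
  rw [Finset.mem_range] at hk hl
  by_cases h0 : k = 0 ∧ l = 0
  · obtain ⟨rfl, rfl⟩ := h0
    have : HH α β γ d 0 0 = 0 := by
      unfold HH
      rw [Nat.sub_self, sub_self, mul_zero]
    rw [this, mul_zero, natDegree_zero]
    exact Nat.zero_le _
  · refine (natDegree_mul_le_of_le (natDegree_mul_le_of_le (hF k) (hG l))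
      (deg_HH h1 h2 h3 (show k ≤ d by omega) (show l ≤ d by omega))).trans ?_
    omega

theorem SS_comm {R : Type} [CommRing R] (α β γ : R) (d : ℕ) (F G : ℕ → R) :
    SS α β γ d F G = SS α β γ d G F := by
  unfold SS
  rw [Finset.sum_comm]
  refine Finset.sum_congr rfl fun k _ => Finset.sum_congr rfl fun l _ => ?_
  unfold EE
  rw [max_comm, min_comm]
  ring

theorem dP_TT (D : Derivation ℚ K K) {α β γ : K[X]} (h1 : dP D α = 0) (h2 : dP D β = 0)
    (h3 : dP D γ = 0) : ∀ n, dP D (TT α β γ n) = 0 ∧ dP D (TT α β γ (n + 1)) = 0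
  | 0 => by
    constructor
    · rw [TT, show (2 : K[X]) = C 2 from rfl, dP_C, show (2 : K) = 1 + 1 by norm_num, map_add,
        D.map_one_eq_zero, add_zero, C_0]
    · rw [zero_add, TT, dP_neg, h2, neg_zero]
  | (n + 1) => by
    obtain ⟨a, b⟩ := dP_TT D h1 h2 h3 n
    refine ⟨b, ?_⟩
    rw [show n + 1 + 1 = n + 2 from rfl, TT, dP_sub, dP_mul, dP_mul, dP_mul, dP_neg, a, b, h1, h2,
      h3]
    ring

theorem dP_EE (D : Derivation ℚ K K) {α β γ : K[X]} (h1 : dP D α = 0) (h2 : dP D β = 0)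
    (h3 : dP D γ = 0) (d k l : ℕ) : dP D (EE α β γ d k l) = 0 := by
  unfold EE
  rw [dP_mul, dP_mul, dP_pow_const D h1, dP_pow_const D h3, (dP_TT D h1 h2 h3 _).1]
  ring

theorem dP_SS (D : Derivation ℚ K K) {α β γ : K[X]} (h1 : dP D α = 0) (h2 : dP D β = 0)
    (h3 : dP D γ = 0) (d : ℕ) (F : ℕ → K[X]) :
    dP D (SS α β γ d F F) = 2 * SS α β γ d F (fun k => dP D (F k)) := by
  have h : dP D (SS α β γ d F F) = SS α β γ d F (fun k => dP D (F k)) +
      SS α β γ d (fun k => dP D (F k)) F := by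
    unfold SS
    rw [dP_sum, ← Finset.sum_add_distrib]
    refine Finset.sum_congr rfl fun k _ => ?_
    rw [dP_sum, ← Finset.sum_add_distrib]
    refine Finset.sum_congr rfl fun l _ => ?_
    rw [dP_mul, dP_mul, dP_EE D h1 h2 h3]
    ring
  rw [h, SS_comm α β γ d (fun k => dP D (F k)) F]
  ring

/-- A root of the quadratic equation modulo a power of `X - s`. -/
theorem hensel {α β γ : K[X]} {s ρ : K}
    (h0 : α.eval s * ρ ^ 2 + β.eval s * ρ + γ.eval s = 0)
    (h1 : 2 * α.eval s * ρ + β.eval s ≠ 0) (m : ℕ) :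
    ∃ R : K[X], R.eval s = ρ ∧ (X - C s) ^ m ∣ α * R ^ 2 + β * R + γ := by
  induction m with
  | zero => exact ⟨C ρ, eval_C, by simp⟩
  | succ m ih =>
    obtain ⟨R, hR, h, hh⟩ := ih
    rcases Nat.eq_zero_or_pos m with hm | hm
    · subst hm
      refine ⟨R, hR, ?_⟩
      rw [zero_add, pow_one, dvd_iff_isRoot, IsRoot.def]
      simp only [eval_add, eval_mul, eval_pow, hR]
      exact h0
    · obtain ⟨c, hc⟩ : ∃ c, c = - (h.eval s) / (2 * α.eval s * ρ + β.eval s) := ⟨_, rfl⟩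
      refine ⟨R + C c * (X - C s) ^ m, ?_, ?_⟩
      · simp only [eval_add, eval_mul, eval_C, eval_pow, eval_sub, eval_X, sub_self]
        rw [zero_pow hm.ne', mul_zero, add_zero, hR]
      · have h2 : α * (R + C c * (X - C s) ^ m) ^ 2 + β * (R + C c * (X - C s) ^ m) + γ =
            (X - C s) ^ m * ((h + C c * (2 * α * R + β)) + C c ^ 2 * α * (X - C s) ^ m) := by
          linear_combination hh
        rw [h2, pow_succ]
        refine mul_dvd_mul_left _ ?_
        rw [dvd_iff_isRoot, IsRoot.def]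
        simp only [eval_add, eval_mul, eval_C, eval_pow, eval_sub, eval_X, sub_self, hR,
          zero_pow hm.ne', mul_zero, add_zero, eval_ofNat]
        rw [hc]
        field_simp
        ring

theorem quad_dvd {α β γ R q : K[X]} {m d : ℕ} (hR : q ^ m ∣ α * R ^ 2 + β * R + γ)
    {F : ℕ → K[X]} (hF : q ^ m ∣ ∑ k ∈ range (d + 1), F k * R ^ k) (G : ℕ → K[X]) :
    q ^ m ∣ SS α β γ d F F ∧
      q ^ m ∣ (2 * α * R + β) * WW α β γ d F G - SS α β γ d F G := by
  let φ : K[X] →+* (K[X] ⧸ Ideal.span {q ^ m}) := Ideal.Quotient.mk _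
  have key : ∀ x, φ x = 0 ↔ q ^ m ∣ x := fun x => by
    rw [Ideal.Quotient.eq_zero_iff_dvd]
  have e1 : φ α * φ R + φ (-β - α * R) = -(φ β) := by
    rw [map_sub, map_neg, map_mul]
    ring
  have e2 : φ R * φ (-β - α * R) = φ γ := by
    have := (key _).2 hR
    rw [map_add, map_add, map_mul, map_mul, map_pow] at this
    rw [map_sub, map_neg, map_mul]
    linear_combination -this
  have e3 : ∑ k ∈ range (d + 1), φ (F k) * φ R ^ k = 0 := by
    have := (key _).2 hF
    rw [map_sum] at this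
    rw [← this]
    refine Finset.sum_congr rfl fun k _ => ?_
    rw [map_mul, map_pow]
  constructor
  · rw [← key, map_SS, SS_eq e1 e2, e3, zero_mul, add_zero]
  · rw [← key, map_sub, map_mul, map_SS, map_WW, SS_eq e1 e2]
    have e4 := WW_eq e1 e2 d (fun k => φ (F k)) (fun k => φ (G k))
    have e5 : φ (2 * α * R + β) = φ α * φ R - φ (-β - α * R) := by
      simp only [map_add, map_sub, map_mul, map_neg, map_ofNat]
      ring
    rw [e5, e4, e3]
    ring

end Pool.Agent.H884.TF
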