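import Pool.Agent.H884.TF.Abel2

set_option autoImplicit false

/-!
# The sum of the residues
-/

namespace Pool.Agent.H884.TF

open Polynomial Finset

variable {K : Type} [Field K] [CharZero K]

/-- The theorem of Abel for a double cover of the line, in an elementary form. -/
theorem abel (D : Derivation ℚ K K) {α β γ : K[X]} (h1 : α.natDegree ≤ 1)
    (h2 : β.natDegree ≤ 2) (h3 : γ.natDegree ≤ 3) (d1 : dP D α = 0) (d2 : dP D β = 0)
    (d3 : dP D γ = 0) {d : ℕ} (hd : 1 ≤ d) {F : ℕ → K[X]} (hF : ∀ k, (F k).natDegree ≤ d - k)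
    {n : ℕ} {s : Fin n → K} (hs : Function.Injective s) {m : Fin n → ℕ} (hm : ∑ j, m j = 3 * d)
    {ρ : Fin n → K}
    (h0 : ∀ j, α.eval (s j) * ρ j ^ 2 + β.eval (s j) * ρ j + γ.eval (s j) = 0)
    (hη : ∀ j, 2 * α.eval (s j) * ρ j + β.eval (s j) ≠ 0)
    (hv : ∀ j (R : K[X]), R.eval (s j) = ρ j →
      (X - C (s j)) ^ (m j) ∣ ∑ k ∈ range (d + 1), F k * R ^ k)
    (hN : SS α β γ d F F ≠ 0) :
    ∑ j, (m j : K) * (D (s j) / (2 * α.eval (s j) * ρ j + β.eval (s j))) = 0 := by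
  classical
  obtain ⟨η, hη'⟩ : ∃ η : Fin n → K, η = fun j => 2 * α.eval (s j) * ρ j + β.eval (s j) := ⟨_, rfl⟩
  obtain ⟨q, hq⟩ : ∃ q : Fin n → K[X], q = fun j => X - C (s j) := ⟨_, rfl⟩
  have hqj : ∀ j, q j = X - C (s j) := fun j => by rw [hq]
  have hqe : ∀ j, (q j).eval (s j) = 0 := fun j => by rw [hqj]; simp
  have hηj : ∀ j, η j ≠ 0 := fun j => by rw [hη']; exact hη j
  choose R hR1 hR2 using fun j => hensel (h0 j) (hη j) (m j)
  simp only [← hqj] at hR2
  have hv' : ∀ j, (q j) ^ (m j) ∣ ∑ k ∈ range (d + 1), F k * R j ^ k := fun j => by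
    rw [hqj]
    exact hv j (R j) (hR1 j)
  obtain ⟨G, hG⟩ : ∃ G : ℕ → K[X], G = fun k => dP D (F k) := ⟨_, rfl⟩
  have hGd : ∀ k, (G k).natDegree ≤ d - k := by
    intro k
    rw [hG]
    refine natDegree_le_iff_coeff_eq_zero.2 fun i hi => ?_
    rw [coeff_dP, coeff_eq_zero_of_natDegree_lt (lt_of_le_of_lt (hF k) hi), map_zero]
  have hquad := fun j => quad_dvd (hR2 j) (hv' j) G
  obtain ⟨N, hNdef⟩ : ∃ N, N = SS α β γ d F F := ⟨_, rfl⟩
  obtain ⟨W, hW⟩ : ∃ W, W = WW α β γ d F G := ⟨_, rfl⟩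
  have hDN : dP D N = 2 * SS α β γ d F G := by
    rw [hNdef, hG, dP_SS D d1 d2 d3]
  rw [← hNdef] at hN
  have hNdeg : N.natDegree ≤ 3 * d := by
    rw [hNdef]
    exact deg_SS h1 h2 h3 hF hF
  have hWdeg : W.natDegree ≤ 3 * d - 2 := by
    rw [hW]
    exact deg_WW h1 h2 h3 hd hF hGd
  obtain ⟨M, hM⟩ : ∃ M, M = ∏ j, q j ^ m j := ⟨_, rfl⟩
  have hqm : ∀ j, (q j).Monic := fun j => by rw [hqj]; exact monic_X_sub_C _
  have hqd : ∀ j, (q j).natDegree = 1 := fun j => by rw [hqj]; exact natDegree_X_sub_C _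
  have hMm : M.Monic := by
    rw [hM]
    exact monic_prod_of_monic _ _ fun j _ => (hqm j).pow _
  have hMd : M.natDegree = 3 * d := by
    rw [hM, natDegree_prod_of_monic _ _ fun j _ => (hqm j).pow _, ← hm]
    refine Finset.sum_congr rfl fun j _ => ?_
    rw [(hqm j).natDegree_pow, hqd, mul_one]
  have hcop : ∀ i j, i ≠ j → IsCoprime (q i) (q j) := by
    intro i j hij
    rw [hqj, hqj]
    exact isCoprime_X_sub_C_of_isUnit_sub (isUnit_iff_ne_zero.2 (sub_ne_zero.2 fun h => hij (hs h)))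
  have hMdvd : ∀ x : K[X], (∀ j, q j ^ m j ∣ x) → M ∣ x := by
    intro x hx
    rw [hM]
    refine Finset.prod_dvd_of_coprime ?_ fun j _ => hx j
    intro i _ j _ hij
    exact (hcop i j hij).pow
  obtain ⟨c, hc⟩ := hMdvd N fun j => by
    rw [hNdef]
    exact (hquad j).1
  obtain ⟨κ, hκ⟩ : ∃ κ, c = C κ := by
    refine ⟨c.coeff 0, eq_C_of_natDegree_le_zero ?_⟩
    have hc0 : c ≠ 0 := by
      rintro rfl
      rw [mul_zero] at hc
      exact hN hc
    rw [hc, hMm.natDegree_mul' hc0, hMd] at hNdeg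
    omega
  have hκ0 : κ ≠ 0 := by
    rintro rfl
    rw [hκ, C_0, mul_zero] at hc
    exact hN hc
  obtain ⟨Mj, hMj⟩ : ∃ Mj : Fin n → K[X], Mj = fun j => ∏ i ∈ univ.erase j, q i ^ m i := ⟨_, rfl⟩
  have hMMj : ∀ j, M = q j ^ m j * Mj j := by
    intro j
    rw [hM, hMj]
    exact (Finset.mul_prod_erase _ _ (Finset.mem_univ j)).symm
  have hMjm : ∀ j, (Mj j).Monic := fun j => by
    rw [hMj]
    exact monic_prod_of_monic _ _ fun j _ => (hqm j).pow _
  obtain ⟨co, hco⟩ : ∃ co : Fin n → K, co = fun j => -κ * (m j * (D (s j) / η j)) := ⟨_, rfl⟩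
  obtain ⟨V, hV⟩ : ∃ V : K[X], V = ∑ j, C (co j) * (q j ^ (m j - 1) * Mj j) := ⟨_, rfl⟩
  have hcoj : ∀ j, co j * η j = -κ * (m j * D (s j)) := by
    intro j
    rw [hco]
    have := hηj j
    field_simp
  have hco0 : ∀ j, m j = 0 → co j = 0 := by
    intro j hj
    rw [hco]
    simp [hj]
  have hdeg1 : ∀ j, m j ≠ 0 → (q j ^ (m j - 1) * Mj j).natDegree = 3 * d - 1 := by
    intro j hj
    have e1 := hMd
    rw [hMMj j, ((hqm j).pow _).natDegree_mul (hMjm j), (hqm j).natDegree_pow, hqd, mul_one] at e1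
    rw [((hqm j).pow _).natDegree_mul (hMjm j), (hqm j).natDegree_pow, hqd, mul_one]
    omega
  -- the congruences
  have hcong : ∀ j, q j ^ m j ∣ 2 * W - V := by
    intro j
    rcases Nat.eq_zero_or_pos (m j) with h | h
    · rw [h, pow_zero]
      exact one_dvd _
    obtain ⟨v, hv1⟩ : ∃ v, m j = v + 1 := ⟨m j - 1, by omega⟩
    have a1 := (hquad j).2
    rw [← hW] at a1
    -- the derivative of `N`
    have a2 : q j ^ m j ∣ dP D N + C (κ * (m j * D (s j))) * (q j ^ v * Mj j) := by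
      have e1 : dP D (q j ^ (v + 1)) = ((v + 1 : ℕ) : K[X]) * (q j ^ v * (- C (D (s j)))) := by
        rw [dP_pow, hqj, dP_lin]
      have e2 : C (κ * (m j * D (s j))) = C κ * (((v + 1 : ℕ) : K[X]) * C (D (s j))) := by
        rw [C_mul, C_mul, hv1, C_eq_natCast]
      rw [hc, hκ, dP_mul, dP_C, hMMj j, dP_mul, hv1, e1, ← hv1, e2]
      refine ⟨dP D (Mj j) * C κ + Mj j * C (D κ), ?_⟩
      rw [hv1, pow_succ]
      ring
    -- the polynomial `V`
    have a3 : q j ^ m j ∣ V - C (co j) * (q j ^ v * Mj j) := by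
      rw [hV, ← Finset.add_sum_erase _ _ (Finset.mem_univ j), hv1, Nat.add_sub_cancel,
        add_sub_cancel_left, ← hv1]
      refine Finset.dvd_sum fun i hi => ?_
      refine Dvd.dvd.mul_left (Dvd.dvd.mul_left ?_ _) _
      rw [hMj]
      exact Finset.dvd_prod_of_mem _ (Finset.mem_erase.2
        ⟨(Finset.ne_of_mem_erase hi).symm, Finset.mem_univ _⟩)
    have a4 : q j ^ m j ∣ ((2 * α * R j + β) * C (co j) + C (κ * (m j * D (s j)))) *
        (q j ^ v * Mj j) := by
      have e1 : q j ∣ (2 * α * R j + β) * C (co j) + C (κ * (m j * D (s j))) := by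
        rw [hqj, dvd_iff_isRoot, IsRoot.def]
        simp only [eval_add, eval_mul, eval_C, eval_ofNat, hR1]
        have e2 : (2 * α.eval (s j) * ρ j + β.eval (s j)) = η j := by rw [hη']
        rw [e2, mul_comm, hcoj]
        ring
      obtain ⟨z, hz⟩ := e1
      rw [hz, hv1, pow_succ]
      exact ⟨z * Mj j, by ring⟩
    have a5 : q j ^ m j ∣ (2 * α * R j + β) * (2 * W - V) := by
      have e1 := (a1.mul_left 2).add (hDN ▸ a2 : q j ^ m j ∣ 2 * SS α β γ d F G +
        C (κ * (m j * D (s j))) * (q j ^ v * Mj j))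
      have e2 := (a3.mul_left (2 * α * R j + β)).add a4
      have e3 := e1.sub e2
      have e4 : 2 * ((2 * α * R j + β) * W - SS α β γ d F G) +
          (2 * SS α β γ d F G + C (κ * (m j * D (s j))) * (q j ^ v * Mj j)) -
          ((2 * α * R j + β) * (V - C (co j) * (q j ^ v * Mj j)) +
            ((2 * α * R j + β) * C (co j) + C (κ * (m j * D (s j)))) * (q j ^ v * Mj j)) =
          (2 * α * R j + β) * (2 * W - V) := by ring
      rwa [e4] at e3
    refine IsCoprime.dvd_of_dvd_mul_left ?_ a5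
    refine IsCoprime.pow_left ?_
    rw [hqj, (irreducible_X_sub_C (s j)).coprime_iff_not_dvd, dvd_iff_isRoot, IsRoot.def]
    simp only [eval_add, eval_mul, eval_ofNat, hR1]
    exact hη j
  have hVdeg : V.natDegree ≤ 3 * d - 1 := by
    rw [hV]
    refine natDegree_sum_le_of_forall_le _ _ fun j _ => ?_
    by_cases hj : m j = 0
    · rw [hco0 j hj, C_0, zero_mul, natDegree_zero]
      exact Nat.zero_le _
    · exact (natDegree_C_mul_le _ _).trans (hdeg1 j hj).le
  have hWV : 2 * W - V = 0 := by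
    by_contra hne
    refine not_lt.2 (natDegree_le_of_dvd (hMdvd _ hcong) hne) ?_
    rw [hMd]
    have e1 : (2 * W).natDegree ≤ 3 * d - 1 := by
      rw [show (2 : K[X]) = C 2 from rfl]
      exact (natDegree_C_mul_le _ _).trans (hWdeg.trans (by omega))
    exact lt_of_le_of_lt (natDegree_sub_le_of_le e1 hVdeg) (by rw [max_self]; omega)
  have e1 := congrArg (fun p => coeff p (3 * d - 1)) hWV
  simp only [coeff_sub, coeff_zero] at e1
  have e2 : (2 * W).coeff (3 * d - 1) = 0 := by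
    apply coeff_eq_zero_of_natDegree_lt
    rw [show (2 : K[X]) = C 2 from rfl]
    exact lt_of_le_of_lt ((natDegree_C_mul_le _ _).trans hWdeg) (by omega)
  have e3 : V.coeff (3 * d - 1) = ∑ j, co j := by
    rw [hV, finsetSum_coeff]
    refine Finset.sum_congr rfl fun j _ => ?_
    by_cases hj : m j = 0
    · rw [hco0 j hj, C_0, zero_mul, coeff_zero]
    · have := (((hqm j).pow (m j - 1)).mul (hMjm j)).coeff_natDegree
      rw [coeff_C_mul, ← hdeg1 j hj, this, mul_one]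
  rw [e2, e3, zero_sub, neg_eq_zero, hco] at e1
  rw [← Finset.mul_sum] at e1
  have e4 := (mul_eq_zero.1 e1).resolve_left (neg_ne_zero.2 hκ0)
  rw [hη'] at e4
  exact e4

end Pool.Agent.H884.TF
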