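import Pool.Agent.H884.TF.Pts

set_option autoImplicit false
set_option linter.unusedSectionVars false

/-!
# Components, which are sides of the triangle
-/

namespace Pool.Agent.H884.TF

open MvPolynomial Pool.Agent.W609 Pool.Agent.W609.CR Pool.Agent.TH167 Pool.Agent.TH167.SH
  Pool.Agent.TH167.DD Pool.Agent.H248R6

variable {K : Type} [Field K] [CharZero K]

theorem bl_X0 (p : Fin 2 → K) : bl p (X 0) = X 0 * X 1 + C (p 0) := by
  rw [bl, aeval_X]; rfl

theorem bl_X1 (p : Fin 2 → K) : bl p (X 1) = X 0 * X 2 + C (p 1) := by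
  rw [bl, aeval_X]; rfl

theorem bl_X2 (p : Fin 2 → K) : bl p (X 2) = 1 := by
  rw [bl, aeval_X]; rfl

/-- A side of the triangle does not pass through the point of the exceptional curve. -/
theorem bad_bl {p : Fin 3 → Fin 2 → K} {V1 V2 : K} (h1 : V1 ≠ 0) (h2 : V2 ≠ 0)
    {g : MvPolynomial (Fin 3) K} (hg0 : g ≠ 0) (hg : g.IsHomogeneous 1) {m : Fin 3 → ℕ}
    (hm : ∀ k, Ord (aff (p k)) (m k) g) (hsum : m 0 + m 1 + m 2 = 2) {W : ℕ}
    (hv : Van ![0, V1 * (p 1 0 - p 0 0) + V2 * (p 2 0 - p 0 0),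
      V1 * (p 1 1 - p 0 1) + V2 * (p 2 1 - p 0 1)] W (bl (p 0) g)) : W ≤ m 0 := by
  have hle : ∀ k, m k ≤ 1 := fun k => van_le hg0 hg (hm k).1
  have hz : ∀ k, eval (aff (p k)) g = 0 ↔ 1 ≤ m k := by
    intro k
    constructor
    · intro h
      by_contra hcon
      have h3 : m k = 0 := by omega
      have h4 := (hm k).2
      rw [h3, zero_add, SH.van_one] at h4
      exact h4 h
    · intro h
      exact (SH.van_one _ _).1 (SH.van_mono h (hm k).1)
  obtain ⟨c, hc⟩ : ∃ c : Fin 3 → K, g = C (c 0) * X 0 + C (c 1) * X 1 + C (c 2) * X 2 := by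
    refine ⟨fun l => g.coeff (Finsupp.single l 1), ?_⟩
    conv_lhs => rw [lin_form hg, Fin.sum_univ_three]
  have hev : ∀ k, eval (aff (p k)) g = c 0 * p k 0 + c 1 * p k 1 + c 2 := by
    intro k
    rw [hc]
    simp [aff]
  have hbl : bl (p 0) g = X 0 * (C (c 0) * X 1 + C (c 1) * X 2) +
      C (eval (aff (p 0)) g) := by
    rw [hev, hc, map_add, map_add, map_mul, map_mul, map_mul, bl_C, bl_C, bl_C, bl_X0, bl_X1,
      bl_X2, map_add, map_add, map_mul, map_mul]
    ring
  obtain ⟨v, hvv⟩ : ∃ v : Fin 3 → K, v = ![0, V1 * (p 1 0 - p 0 0) + V2 * (p 2 0 - p 0 0),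
      V1 * (p 1 1 - p 0 1) + V2 * (p 2 1 - p 0 1)] := ⟨_, rfl⟩
  have v0 : v 0 = 0 := by rw [hvv]; rfl
  have v1 : v 1 = V1 * (p 1 0 - p 0 0) + V2 * (p 2 0 - p 0 0) := by rw [hvv]; rfl
  have v2 : v 2 = V1 * (p 1 1 - p 0 1) + V2 * (p 2 1 - p 0 1) := by rw [hvv]; rfl
  rw [← hvv] at hv
  by_contra hcon
  push Not at hcon
  have hz0 := hz 0
  have hz1 := hz 1
  have hz2 := hz 2
  have hl0 := hle 0
  have hl1 := hle 1
  have hl2 := hle 2
  by_cases h0 : m 0 = 0
  · have h3 : eval (aff (p 0)) g ≠ 0 := fun h => by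
      have := hz0.1 h
      omega
    have h4 := SH.van_mono (show 1 ≤ W by omega) hv
    rw [SH.van_one, hbl] at h4
    simp only [map_add, map_mul, eval_X, eval_C, v0, zero_mul, zero_add] at h4
    exact h3 h4
  · have h0' : m 0 = 1 := by omega
    have h3 : eval (aff (p 0)) g = 0 := hz0.2 (by omega)
    have h4 := SH.van_mono (show 2 ≤ W by omega) hv
    rw [hbl, h3, C_0, add_zero] at h4
    have h5 := pd_mem h4 0
    simp only [Derivation.leibniz, map_add, smul_eq_mul, pderiv_C, pderiv_X_self, map_mul, eval_X,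
      v0, eval_C] at h5
    have h6 : c 0 * v 1 + c 1 * v 2 = 0 := by
      simpa using h5
    rw [v1, v2] at h6
    have h7 : V1 * (eval (aff (p 1)) g) + V2 * (eval (aff (p 2)) g) = 0 := by
      rw [hev] at h3
      rw [hev, hev]
      linear_combination h6 + (V1 + V2) * h3
    by_cases hm1 : m 1 = 1
    · rw [hz1.2 (by omega), mul_zero, zero_add] at h7
      have := hz2.1 ((mul_eq_zero.1 h7).resolve_left h2)
      omega
    · rw [hz2.2 (by omega), mul_zero, add_zero] at h7
      have := hz1.1 ((mul_eq_zero.1 h7).resolve_left h1)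
      omega

/-- Irreducible forms, one of which divides the other one. -/
theorem same [IsAlgClosed K] {f g : MvPolynomial (Fin 3) K} (hf : Irreducible f) (hg : Irreducible g)
    (h : f ∣ g) {a b : ℕ} (hfa : f.IsHomogeneous a) (hgb : g.IsHomogeneous b) :
    a = b ∧ ∀ (v : Fin 3 → K) (m m' : ℕ), Ord v m f → Ord v m' g → m = m' := by
  obtain ⟨u, hu⟩ := h
  have hu' : IsUnit u := by
    rcases hg.isUnit_or_isUnit hu with h | h
    · exact absurd h hf.not_isUnit
    · exact h
  constructor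
  · have h1 : g.totalDegree = b := hgb.totalDegree hg.ne_zero
    rw [hu, MvPolynomial.totalDegree_mul_of_isDomain hf.ne_zero hu'.ne_zero,
      hfa.totalDegree hf.ne_zero,
      (MvPolynomial.isUnit_iff_totalDegree_of_isReduced.1 hu').2] at h1
    omega
  · intro v m m' hm hm'
    have h1 := ord_mul hm (od_unit (v := v) hu')
    rw [← hu, add_zero] at h1
    exact ord_unique h1 hm'

end Pool.Agent.H884.TF
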