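import Pool.Agent.H884.TF.Proj

set_option autoImplicit false
set_option linter.unusedSectionVars false

/-!
# Multiplicities at the points of an exceptional curve
-/

namespace Pool.Agent.H884.TF

open MvPolynomial Pool.Agent.W609 Pool.Agent.W609.CR Pool.Agent.TH167 Pool.Agent.TH167.SH
  Pool.Agent.TH167.DD Pool.Agent.H248R6

variable {K : Type} [Field K] [CharZero K]

/-- The total transform under the blow-up of the point `p`, in the coordinates `u`, `v` where
`u` is the equation of the exceptional curve and `v` gives the directions. -/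
noncomputable def bl (p : Fin 2 → K) : MvPolynomial (Fin 3) K →ₐ[K] MvPolynomial (Fin 3) K :=
  aeval ![X 0 * X 1 + C (p 0), X 0 * X 2 + C (p 1), 1]

/-- A substitution preserves the order. -/
theorem subst_van {v w : Fin 3 → K} {m : ℕ}
    (θ : MvPolynomial (Fin 3) K →ₐ[K] (MvPolynomial (Fin 3) K ⧸ (RingHom.ker (eval w)) ^ m))
    (hθ : ∀ l, θ (X l) - algebraMap K _ (v l) ∈
      Ideal.map (Ideal.Quotient.mk ((RingHom.ker (eval w)) ^ m)) (RingHom.ker (eval w)))
    {f : MvPolynomial (Fin 3) K} (hf : Van v m f) : θ f = 0 := by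
  obtain ⟨I, hI⟩ : ∃ I, I = Ideal.map (Ideal.Quotient.mk ((RingHom.ker (eval w)) ^ m))
    (RingHom.ker (eval w)) := ⟨_, rfl⟩
  rw [← hI] at hθ
  have key : ∀ g : MvPolynomial (Fin 3) K, θ g - algebraMap K _ (eval v g) ∈ I := by
    intro g
    induction g using MvPolynomial.induction_on with
    | C c =>
      have h1 : θ (C c) = algebraMap K _ c := by
        rw [← MvPolynomial.algebraMap_eq, θ.commutes]
      rw [h1, eval_C, sub_self]
      exact zero_mem _
    | add p q hp hq =>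
      rw [map_add, map_add, map_add, add_sub_add_comm]
      exact add_mem hp hq
    | mul_X p i hp =>
      rw [map_mul, map_mul, eval_X, map_mul]
      have h2 : θ p * θ (X i) - algebraMap K _ (eval v p) * algebraMap K _ (v i) =
          (θ p - algebraMap K _ (eval v p)) * θ (X i) +
            algebraMap K _ (eval v p) * (θ (X i) - algebraMap K _ (v i)) := by ring
      rw [h2]
      exact add_mem (Ideal.mul_mem_right _ _ hp) (Ideal.mul_mem_left _ _ (hθ i))
  have h1 : RingHom.ker (eval v) ≤ I.comap (θ : MvPolynomial (Fin 3) K →+* _) := by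
    intro g hg
    rw [RingHom.mem_ker] at hg
    have h2 := key g
    rw [hg, map_zero, sub_zero] at h2
    exact h2
  have h2 := Ideal.pow_right_mono h1 m hf
  have h3 := Ideal.le_comap_pow (θ : MvPolynomial (Fin 3) K →+* _) (K := I) m h2
  rw [Ideal.mem_comap, hI, ← Ideal.map_pow, Ideal.map_quotient_self] at h3
  exact h3

theorem bl_C (p : Fin 2 → K) (c : K) : bl p (C c) = C c := by
  rw [bl, aeval_C]
  rfl

/-- Scaling in a substitution. -/
theorem aeval_hom {B : Type} [CommRing B] [Algebra K B] {g : MvPolynomial (Fin 3) K} {e : ℕ}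
    (hg : g.IsHomogeneous e) (s : B) (z : Fin 3 → B) :
    aeval (fun l => s * z l) g = s ^ e * aeval z g := by
  rw [MvPolynomial.aeval_def, MvPolynomial.aeval_def, MvPolynomial.eval₂_eq',
    MvPolynomial.eval₂_eq', Finset.mul_sum]
  refine Finset.sum_congr rfl fun α hα => ?_
  have h1 := deg_sum hg hα
  rw [Fin.prod_univ_three, Fin.prod_univ_three, mul_pow, mul_pow, mul_pow, ← h1, pow_add, pow_add]
  ring

/-- The multiplicity at a point of an exceptional curve, after the quadratic transformation. -/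
theorem bl_rev {p : Fin 3 → Fin 2 → K} {V1 V2 : K} (h1 : V1 ≠ 0) (h2 : V2 ≠ 0)
    {g : MvPolynomial (Fin 3) K} {e : ℕ} (hg : g.IsHomogeneous e) {A : Matrix (Fin 3) (Fin 3) K}
    (hA : ∀ r c, A r c = aff (p c) r) {f : MvPolynomial (Fin 3) K}
    (hf : f = Pool.Agent.W609.CR.lin A g) (hfe : f.IsHomogeneous e)
    {N : Fin 3 →₀ ℕ} {m0 : ℕ} (hN0 : N 0 + m0 = e) (hN : ∀ a ∈ f.support, a ≤ N) {W : ℕ}
    (hv : Van ![0, V1 * (p 1 0 - p 0 0) + V2 * (p 2 0 - p 0 0),
      V1 * (p 1 1 - p 0 1) + V2 * (p 2 1 - p 0 1)] W (bl (p 0) g)) :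
    Van ![0, V1⁻¹, V2⁻¹] W (X 0 ^ m0 * rev (n := 2) N f) := by
  classical
  rcases Nat.eq_zero_or_pos W with hW | hW
  · rw [hW]
    exact van_zero _ _
  obtain ⟨w, hw⟩ : ∃ w : Fin 3 → K, w = ![0, V1⁻¹, V2⁻¹] := ⟨_, rfl⟩
  have w0 : w 0 = 0 := by rw [hw]; rfl
  have w1 : w 1 = V1⁻¹ := by rw [hw]; rfl
  have w2 : w 2 = V2⁻¹ := by rw [hw]; rfl
  rw [← hw]
  obtain ⟨v, hvv⟩ : ∃ v : Fin 3 → K, v = ![0, V1 * (p 1 0 - p 0 0) + V2 * (p 2 0 - p 0 0),
      V1 * (p 1 1 - p 0 1) + V2 * (p 2 1 - p 0 1)] := ⟨_, rfl⟩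
  have v0 : v 0 = 0 := by rw [hvv]; rfl
  have v1 : v 1 = V1 * (p 1 0 - p 0 0) + V2 * (p 2 0 - p 0 0) := by rw [hvv]; rfl
  have v2 : v 2 = V1 * (p 1 1 - p 0 1) + V2 * (p 2 1 - p 0 1) := by rw [hvv]; rfl
  rw [← hvv] at hv
  let J := RingHom.ker (MvPolynomial.eval w)
  let B := MvPolynomial (Fin 3) K ⧸ J ^ W
  let π : MvPolynomial (Fin 3) K →ₐ[K] B := Ideal.Quotient.mkₐ K (J ^ W)
  have hπ : ∀ g, π g = 0 ↔ g ∈ J ^ W := fun g => Ideal.Quotient.eq_zero_iff_mem
  have hπC : ∀ c, π (C c) = algebraMap K B c := by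
    intro c
    rw [← MvPolynomial.algebraMap_eq]
    exact π.commutes _
  let I := Ideal.map (Ideal.Quotient.mk (J ^ W)) J
  have hmem : ∀ l, π (X l) - algebraMap K B (w l) ∈ I := by
    intro l
    rw [← hπC, ← map_sub]
    refine Ideal.mem_map_of_mem (Ideal.Quotient.mk (J ^ W)) ?_
    rw [RingHom.mem_ker]
    simp
  have hnil : ∀ b ∈ I, IsNilpotent b := by
    intro b hb
    refine ⟨W, ?_⟩
    have h3 : b ^ W ∈ I ^ W := Ideal.pow_mem_pow hb W
    rw [← Ideal.map_pow, Ideal.map_quotient_self] at h3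
    exact h3
  have hunit : ∀ l, w l ≠ 0 → IsUnit (π (X l)) := by
    intro l hl
    have e1 : π (X l) = algebraMap K B (w l) + (π (X l) - algebraMap K B (w l)) := by ring
    rw [e1]
    have hu : IsUnit (algebraMap K B (w l)) := (isUnit_iff_ne_zero.2 hl).map _
    exact (hnil _ (hmem l)).isUnit_add_left_of_commute hu (Commute.all _ _)
  have hw1 : w 1 ≠ 0 := by rw [w1]; exact inv_ne_zero h1
  have hw2 : w 2 ≠ 0 := by rw [w2]; exact inv_ne_zero h2
  obtain ⟨u1, hu1⟩ := (hunit 1 hw1).exists_right_inv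
  obtain ⟨u2, hu2⟩ := (hunit 2 hw2).exists_right_inv
  obtain ⟨y0, hy0⟩ : ∃ y0, y0 = π (X 0) := ⟨_, rfl⟩
  obtain ⟨y1, hy1⟩ : ∃ y1, y1 = π (X 1) := ⟨_, rfl⟩
  obtain ⟨y2, hy2⟩ : ∃ y2, y2 = π (X 2) := ⟨_, rfl⟩
  rw [← hy1] at hu1
  rw [← hy2] at hu2
  have hy0I : y0 ∈ I := by
    have := hmem 0
    rw [w0, map_zero, sub_zero, ← hy0] at this
    exact this
  have hsu : IsUnit (1 + y0 * (u1 + u2)) :=
    (hnil _ (Ideal.mul_mem_right _ _ hy0I)).isUnit_one_add
  obtain ⟨si, hsi⟩ := hsu.exists_right_inv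
  obtain ⟨s, hs⟩ : ∃ s, s = 1 + y0 * (u1 + u2) := ⟨_, rfl⟩
  rw [← hs] at hsi
  have hu1I : u1 - algebraMap K B V1 ∈ I := by
    have e1 := hmem 1
    rw [w1, ← hy1] at e1
    have e2 : algebraMap K B V1 * algebraMap K B V1⁻¹ = 1 := by
      rw [← map_mul, mul_inv_cancel₀ h1, map_one]
    have e3 : u1 - algebraMap K B V1 =
        (-u1 * algebraMap K B V1) * (y1 - algebraMap K B V1⁻¹) := by
      linear_combination (algebraMap K B V1) * hu1 - u1 * e2
    rw [e3]
    exact Ideal.mul_mem_left _ _ e1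
  have hu2I : u2 - algebraMap K B V2 ∈ I := by
    have e1 := hmem 2
    rw [w2, ← hy2] at e1
    have e2 : algebraMap K B V2 * algebraMap K B V2⁻¹ = 1 := by
      rw [← map_mul, mul_inv_cancel₀ h2, map_one]
    have e3 : u2 - algebraMap K B V2 =
        (-u2 * algebraMap K B V2) * (y2 - algebraMap K B V2⁻¹) := by
      linear_combination (algebraMap K B V2) * hu2 - u2 * e2
    rw [e3]
    exact Ideal.mul_mem_left _ _ e1
  let c : Fin 2 → Fin 2 → B := fun k b => algebraMap K B (p (Fin.succ k) b - p 0 b)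
  let θ : MvPolynomial (Fin 3) K →ₐ[K] B := aeval ![y0 * si, u1 * c 0 0 + u2 * c 1 0,
    u1 * c 0 1 + u2 * c 1 1]
  have t0 : θ (X 0) = y0 * si := by rw [aeval_X]; rfl
  have t1 : θ (X 1) = u1 * c 0 0 + u2 * c 1 0 := by rw [aeval_X]; rfl
  have t2 : θ (X 2) = u1 * c 0 1 + u2 * c 1 1 := by rw [aeval_X]; rfl
  have hθ0 : θ (bl (p 0) g) = 0 := by
    refine subst_van (m := W) θ (fun l => ?_) hv
    fin_cases l
    · show θ (X 0) - algebraMap K B (v 0) ∈ I
      rw [t0, v0, map_zero, sub_zero]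
      exact Ideal.mul_mem_right _ _ hy0I
    · show θ (X 1) - algebraMap K B (v 1) ∈ I
      rw [t1, v1]
      have e1 : u1 * c 0 0 + u2 * c 1 0 - algebraMap K B
          (V1 * (p 1 0 - p 0 0) + V2 * (p 2 0 - p 0 0)) =
          (u1 - algebraMap K B V1) * c 0 0 + (u2 - algebraMap K B V2) * c 1 0 := by
        have a0 : c 0 0 = algebraMap K B (p 1 0 - p 0 0) := rfl
        have a1 : c 1 0 = algebraMap K B (p 2 0 - p 0 0) := rfl
        rw [a0, a1, map_add, map_mul, map_mul]
        ring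
      rw [e1]
      exact add_mem (Ideal.mul_mem_right _ _ hu1I) (Ideal.mul_mem_right _ _ hu2I)
    · show θ (X 2) - algebraMap K B (v 2) ∈ I
      rw [t2, v2]
      have e1 : u1 * c 0 1 + u2 * c 1 1 - algebraMap K B
          (V1 * (p 1 1 - p 0 1) + V2 * (p 2 1 - p 0 1)) =
          (u1 - algebraMap K B V1) * c 0 1 + (u2 - algebraMap K B V2) * c 1 1 := by
        have a0 : c 0 1 = algebraMap K B (p 1 1 - p 0 1) := rfl
        have a1 : c 1 1 = algebraMap K B (p 2 1 - p 0 1) := rfl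
        rw [a0, a1, map_add, map_mul, map_mul]
        ring
      rw [e1]
      exact add_mem (Ideal.mul_mem_right _ _ hu1I) (Ideal.mul_mem_right _ _ hu2I)
  -- the composition
  let t : Fin 3 → B := ![1, y0 * u1, y0 * u2]
  have hcomp : s ^ e * θ (bl (p 0) g) = aeval t f := by
    have e1 : θ (bl (p 0) g) = aeval ![y0 * si * (u1 * c 0 0 + u2 * c 1 0) + algebraMap K B (p 0 0),
        y0 * si * (u1 * c 0 1 + u2 * c 1 1) + algebraMap K B (p 0 1), 1] g := by
      have e2 : θ.comp (bl (p 0)) =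
          aeval ![y0 * si * (u1 * c 0 0 + u2 * c 1 0) + algebraMap K B (p 0 0),
            y0 * si * (u1 * c 0 1 + u2 * c 1 1) + algebraMap K B (p 0 1), 1] := by
        apply MvPolynomial.algHom_ext
        intro i
        rw [AlgHom.comp_apply, bl, aeval_X, aeval_X]
        have hC : ∀ a : K, θ (C a) = algebraMap K B a := fun a => by
          rw [← MvPolynomial.algebraMap_eq, θ.commutes]
        fin_cases i
        · show θ (X 0 * X 1 + C (p 0 0)) = _
          rw [map_add, map_mul, t0, t1, hC]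
          rfl
        · show θ (X 0 * X 2 + C (p 0 1)) = _
          rw [map_add, map_mul, t0, t2, hC]
          rfl
        · show θ 1 = _
          rw [map_one]
          rfl
      exact DFunLike.congr_fun e2 g
    rw [e1, ← aeval_hom hg, hf]
    have e3 : (aeval t).comp (Pool.Agent.W609.CR.lin A) =
        (aeval (fun l => s * (![y0 * si * (u1 * c 0 0 + u2 * c 1 0) + algebraMap K B (p 0 0),
            y0 * si * (u1 * c 0 1 + u2 * c 1 1) + algebraMap K B (p 0 1), 1] : Fin 3 → B) l) :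
          MvPolynomial (Fin 3) K →ₐ[K] B) := by
      apply MvPolynomial.algHom_ext
      intro i
      rw [AlgHom.comp_apply, Pool.Agent.W609.CR.lin, aeval_X, aeval_X, map_sum,
        Fin.sum_univ_three]
      simp only [map_mul, aeval_X]
      have hC : ∀ a : K, (aeval t : MvPolynomial (Fin 3) K →ₐ[K] B) (C a) = algebraMap K B a :=
        fun a => by rw [aeval_C]
      simp only [hC, hA]
      have s0 : t 0 = 1 := rfl
      have s1 : t 1 = y0 * u1 := rfl
      have s2 : t 2 = y0 * u2 := rfl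
      rw [s0, s1, s2]
      have cc' : ∀ k b, c k b = algebraMap K B (p (Fin.succ k) b) - algebraMap K B (p 0 b) :=
        fun k b => map_sub _ _ _
      fin_cases i
      · show algebraMap K B (p 0 0) * 1 + algebraMap K B (p 1 0) * (y0 * u1) +
          algebraMap K B (p 2 0) * (y0 * u2) =
          s * (y0 * si * (u1 * c 0 0 + u2 * c 1 0) + algebraMap K B (p 0 0))
        have a0 : c 0 0 = algebraMap K B (p 1 0) - algebraMap K B (p 0 0) := cc' 0 0
        have a1 : c 1 0 = algebraMap K B (p 2 0) - algebraMap K B (p 0 0) := cc' 1 0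
        rw [a0, a1]
        linear_combination (-(y0 * (u1 * (algebraMap K B (p 1 0) - algebraMap K B (p 0 0)) +
          u2 * (algebraMap K B (p 2 0) - algebraMap K B (p 0 0))))) * hsi -
          algebraMap K B (p 0 0) * hs
      · show algebraMap K B (p 0 1) * 1 + algebraMap K B (p 1 1) * (y0 * u1) +
          algebraMap K B (p 2 1) * (y0 * u2) =
          s * (y0 * si * (u1 * c 0 1 + u2 * c 1 1) + algebraMap K B (p 0 1))
        have a0 : c 0 1 = algebraMap K B (p 1 1) - algebraMap K B (p 0 1) := cc' 0 1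
        have a1 : c 1 1 = algebraMap K B (p 2 1) - algebraMap K B (p 0 1) := cc' 1 1
        rw [a0, a1]
        linear_combination (-(y0 * (u1 * (algebraMap K B (p 1 1) - algebraMap K B (p 0 1)) +
          u2 * (algebraMap K B (p 2 1) - algebraMap K B (p 0 1))))) * hsi -
          algebraMap K B (p 0 1) * hs
      · show algebraMap K B 1 * 1 + algebraMap K B 1 * (y0 * u1) +
          algebraMap K B 1 * (y0 * u2) = s * 1
        rw [map_one, hs]
        ring
    exact (DFunLike.congr_fun e3 g).symm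
  have hft : aeval t f = 0 := by rw [← hcomp, hθ0, mul_zero]
  unfold Van
  rw [← hπ]
  have hkey : π (X 0 ^ m0 * rev (n := 2) N f) = y1 ^ N 1 * y2 ^ N 2 * aeval t f := by
    rw [map_mul, map_pow, ← hy0]
    unfold rev
    rw [map_sum, MvPolynomial.aeval_def, MvPolynomial.eval₂_eq', Finset.mul_sum, Finset.mul_sum]
    refine Finset.sum_congr rfl fun a ha => ?_
    have hle := hN a ha
    have hda := deg_sum hfe ha
    have e1 : π (monomial (N - a) (coeff a f)) = algebraMap K B (coeff a f) *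
        (y0 ^ (N 0 - a 0) * y1 ^ (N 1 - a 1) * y2 ^ (N 2 - a 2)) := by
      rw [monomial_eq, Finsupp.prod_fintype _ _ (by intro; simp), map_mul, hπC, map_prod,
        Fin.prod_univ_three, map_pow, map_pow, map_pow, ← hy0, ← hy1, ← hy2]
      rfl
    rw [e1, Fin.prod_univ_three]
    have s0 : t 0 = 1 := rfl
    have s1 : t 1 = y0 * u1 := rfl
    have s2 : t 2 = y0 * u2 := rfl
    rw [s0, s1, s2, one_pow, one_mul]
    have b0 : a 0 ≤ N 0 := hle 0
    have b1 : a 1 ≤ N 1 := hle 1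
    have b2 : a 2 ≤ N 2 := hle 2
    have e2 : y0 ^ m0 * y0 ^ (N 0 - a 0) = y0 ^ a 1 * y0 ^ a 2 := by
      rw [← pow_add, ← pow_add]
      congr 1
      omega
    have e3 : y1 ^ N 1 * u1 ^ a 1 = y1 ^ (N 1 - a 1) := by
      conv_lhs => rw [← Nat.sub_add_cancel b1, pow_add, mul_assoc, ← mul_pow, hu1, one_pow,
        mul_one]
    have e4 : y2 ^ N 2 * u2 ^ a 2 = y2 ^ (N 2 - a 2) := by
      conv_lhs => rw [← Nat.sub_add_cancel b2, pow_add, mul_assoc, ← mul_pow, hu2, one_pow,
        mul_one]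
    rw [← e3, ← e4]
    have e5 : y0 ^ m0 * (algebraMap K B (coeff a f) * (y0 ^ (N 0 - a 0) * (y1 ^ N 1 * u1 ^ a 1) *
        (y2 ^ N 2 * u2 ^ a 2))) = (y0 ^ m0 * y0 ^ (N 0 - a 0)) * (algebraMap K B (coeff a f) *
        ((y1 ^ N 1 * u1 ^ a 1) * (y2 ^ N 2 * u2 ^ a 2))) := by ring
    rw [e5, e2]
    ring
  rw [hkey, hft, mul_zero]

end Pool.Agent.H884.TF
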