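import Pool.Agent.H884.TF.Fam10

set_option autoImplicit false
set_option linter.unusedSectionVars false

/-!
# Nine generic points and a point of an exceptional curve on the cubic: families of components
-/

namespace Pool.Agent.H884.TF

open MvPolynomial Pool.Agent.W609 Pool.Agent.W609.CR Pool.Agent.TH167 Pool.Agent.TH167.SH
  Pool.Agent.TH167.DD Pool.Agent.H248R6

variable {K : Type} [Field K] [CharZero K] [IsAlgClosed K]

/-- The class of a component. -/
def cl9 (e : ℕ) (w : Fin 9 → ℕ) : ℤ × (Fin 9 → ℤ) := ((e : ℤ), fun j => (w j : ℤ))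

theorem cr_cl9 {i : Fin 3 → Fin 9} (hi : Function.Injective i) {e : ℕ} {w : Fin 9 → ℕ}
    (p01 : w (i 0) + w (i 1) ≤ e) (p02 : w (i 0) + w (i 2) ≤ e) (p12 : w (i 1) + w (i 2) ≤ e) :
    cr i (cl9 e w) = cl9 (2 * e - (w (i 0) + w (i 1) + w (i 2))) (wcr e i w) := by
  have h01 : i 0 ≠ i 1 := fun h => absurd (hi h) (by decide)
  have h02 : i 0 ≠ i 2 := fun h => absurd (hi h) (by decide)
  have h12 : i 1 ≠ i 2 := fun h => absurd (hi h) (by decide)
  unfold cr cl9
  refine Prod.ext ?_ (funext fun j => ?_)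
  · show (e : ℤ) + ((e : ℤ) - w (i 0) - w (i 1) - w (i 2)) =
      ((2 * e - (w (i 0) + w (i 1) + w (i 2)) : ℕ) : ℤ)
    rw [Nat.cast_sub (by omega)]
    push_cast
    ring
  · show (w j : ℤ) + ((e : ℤ) - w (i 0) - w (i 1) - w (i 2)) * ch i j = ((wcr e i w j : ℕ) : ℤ)
    unfold ch wcr
    by_cases a0 : j = i 0
    · subst a0
      simp only [h01, h02, if_true, if_false]
      rw [Nat.cast_sub (by omega)]
      push_cast
      ring
    by_cases a1 : j = i 1
    · subst a1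
      simp only [h01.symm, h12, if_true, if_false]
      rw [Nat.cast_sub (by omega)]
      push_cast
      ring
    by_cases a2 : j = i 2
    · subst a2
      simp only [h02.symm, h12.symm, if_true, if_false]
      rw [Nat.cast_sub (by omega)]
      push_cast
      ring
    simp only [a0, a1, a2, if_false]
    ring

/-- The bound for a point of an exceptional curve: families of components. -/
theorem blow_fam9 {P : Fin 9 → Fin 2 → K}
    (hP : AlgebraicIndependent ℚ (fun ij : Fin 9 × Fin 2 => P ij.1 ij.2)) {i : Fin 3 → Fin 9}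
    (hi : Function.Injective i) {V1 V2 : K} (h1 : V1 ≠ 0) (h2 : V2 ≠ 0) (h12 : V1 + V2 ≠ 0)
    {B : MvPolynomial (Fin 3) K} (hB0 : B ≠ 0) (hB : B.IsHomogeneous 3)
    (hBv : ∀ j, Van (aff (P j)) 1 B)
    (hBx : Van ![0, V1 * (P (i 1) 0 - P (i 0) 0) + V2 * (P (i 2) 0 - P (i 0) 0),
        V1 * (P (i 1) 1 - P (i 0) 1) + V2 * (P (i 2) 1 - P (i 0) 1)] 2 (bl (P (i 0)) B))
    {n : ℕ} {g : Fin n → MvPolynomial (Fin 3) K} {e : Fin n → ℕ} {w : Fin n → Fin 9 → ℕ}
    (hg : ∀ k, Irreducible (g k)) (hgk : ∀ k l, k ≠ l → ¬ g k ∣ g l)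
    (hge : ∀ k, (g k).IsHomogeneous (e k)) (he : ∀ k, 1 ≤ e k)
    (hw : ∀ k j, Ord (aff (P j)) (w k j) (g k)) {ε : ℕ} (hε : ε ≤ 1) {t : ℕ}
    (ht : ((t + ∑ k, w k (i 0) : ℕ) : ℕ∞) ≤
      ∑ k, od ![0, V1 * (P (i 1) 0 - P (i 0) 0) + V2 * (P (i 2) 0 - P (i 0) 0),
        V1 * (P (i 1) 1 - P (i 0) 1) + V2 * (P (i 2) 1 - P (i 0) 1)] (bl (P (i 0)) (g k)) +
      (ε : ℕ∞)) :
    ∃ T : ℕ, t ≤ T ∧
      -4 ≤ qq (∑ k, cl9 (e k) (w k) + ε • (0, fun j => if j = i 0 then -1 else 0)) -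
        ((T : ℤ) * T + T) ∧
      (T ≤ 1 → -2 ≤ qq (∑ k, cl9 (e k) (w k) + ε • (0, fun j => if j = i 0 then -1 else 0)) -
        ((T : ℤ) * T + T)) := by
  classical
  obtain ⟨P', hP', hrel⟩ := SH.exists_crel hP hi
  have hi12 : i 1 ≠ i 2 := fun h => absurd (hi h) (by decide)
  obtain ⟨good, hgood⟩ : ∃ good : Fin n → Prop, good = fun k =>
    w k (i 0) + w k (i 1) ≤ e k ∧ w k (i 0) + w k (i 2) ≤ e k ∧ w k (i 1) + w k (i 2) ≤ e k :=
    ⟨_, rfl⟩
  have hgd : ∀ k, good k ↔ (w k (i 0) + w k (i 1) ≤ e k ∧ w k (i 0) + w k (i 2) ≤ e k ∧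
      w k (i 1) + w k (i 2) ≤ e k) := fun k => by rw [hgood]
  have htr := fun k (h : good k) => comp_trans hrel (hg k) (hge k) (hw k) ((hgd k).1 h).1
    ((hgd k).1 h).2.1 ((hgd k).1 h).2.2
  obtain ⟨A, hA⟩ : ∃ A, A = mat3 P i := ⟨_, rfl⟩
  have hAdet : A.det ≠ 0 := by rw [hA]; exact hrel.det
  rw [← hA] at htr
  -- the multiplicities at the ninth point
  have hτex : ∀ k, ∃ m : ℕ, (good k → Ord (aff (qp P i V1 V2)) m (TR A (g k))) ∧
      (¬ good k → m = 0) := by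
    intro k
    by_cases hk : good k
    · obtain ⟨m, hm⟩ := TT.exists_ord (p := qp P i V1 V2) (htr k hk).1.ne_zero (htr k hk).2.1
      exact ⟨m, fun _ => hm, fun h => absurd hk h⟩
    · exact ⟨0, fun h => absurd h hk, fun _ => rfl⟩
  choose τ hτ hτ0 using hτex
  have hod : ∀ k, od ![0, V1 * (P (i 1) 0 - P (i 0) 0) + V2 * (P (i 2) 0 - P (i 0) 0),
        V1 * (P (i 1) 1 - P (i 0) 1) + V2 * (P (i 2) 1 - P (i 0) 1)] (bl (P (i 0)) (g k)) ≤
      ((w k (i 0) + τ k : ℕ) : ℕ∞) := by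
    intro k
    refine od_le_of fun W hW => ?_
    by_cases hk : good k
    · have h3 := (htr k hk).2.2.2.1 V1 V2 h1 h2 W hW
      rw [hA] at h3
      have h4 := van_qp h1 h2 h12 (by rw [← hA]; exact (htr k hk).2.1) h3
      rw [← hA] at h4
      by_contra hcon
      have h5 : τ k + 1 ≤ W - w k (i 0) := by omega
      exact (hτ k hk).2 (SH.van_mono h5 h4)
    · rw [hτ0 k hk, add_zero]
      have h3 := bad_comp hP hi (hg k) (hge k) (hw k) (by rw [← hgd]; exact hk)
      have h4 := hge k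
      rw [h3.1] at h4
      exact bad_bl (p := fun c => P (i c)) h1 h2 (hg k).ne_zero h4 (m := fun c => w k (i c))
        (fun c => hw k (i c)) h3.2 hW
  have htT : t ≤ ∑ k, τ k + ε := by
    have h3 : ∑ k, od ![0, V1 * (P (i 1) 0 - P (i 0) 0) + V2 * (P (i 2) 0 - P (i 0) 0),
        V1 * (P (i 1) 1 - P (i 0) 1) + V2 * (P (i 2) 1 - P (i 0) 1)] (bl (P (i 0)) (g k)) ≤
        ((∑ k, (w k (i 0) + τ k) : ℕ) : ℕ∞) := by
      rw [Nat.cast_sum]
      exact Finset.sum_le_sum fun k _ => hod k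
    have h4 : ((t + ∑ k, w k (i 0) : ℕ) : ℕ∞) ≤ ((∑ k, (w k (i 0) + τ k) + ε : ℕ) : ℕ∞) := by
      rw [Nat.cast_add (∑ k, (w k (i 0) + τ k)) ε]
      exact ht.trans (add_le_add_left h3 _)
    have h5 : t + ∑ k, w k (i 0) ≤ ∑ k, (w k (i 0) + τ k) + ε := by exact_mod_cast h4
    rw [Finset.sum_add_distrib] at h5
    omega
  -- the new family
  let ι : Type := {k : Fin n // good k} ⊕ Fin ε
  let G : ι → MvPolynomial (Fin 3) K := Sum.elim (fun k => TR A (g k.1))
    (fun _ => ln (P' (i 1)) (P' (i 2)))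
  let E : ι → ℕ := Sum.elim (fun k => 2 * e k.1 - (w k.1 (i 0) + w k.1 (i 1) + w k.1 (i 2)))
    (fun _ => 1)
  let Wt : ι → Fin 10 → ℕ := Sum.elim (fun k => Fin.cons (τ k.1) (wcr (e k.1) i (w k.1)))
    (fun _ => Fin.cons 1 (fun j => if j = i 1 ∨ j = i 2 then 1 else 0))
  obtain ⟨Q, hQ⟩ : ∃ Q : Fin 10 → Fin 2 → K, Q = Fin.cons (qp P i V1 V2) P' := ⟨_, rfl⟩
  have hQP : ∀ j : Fin 9, Q j.succ = P' j := fun j => by rw [hQ]; rfl
  have hQ0 : Q 0 = qp P i V1 V2 := by rw [hQ]; rfl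
  have hQinj : Function.Injective Q := by
    intro a b
    refine Fin.cases ?_ (fun a => ?_) a
    · refine Fin.cases ?_ (fun b => ?_) b
      · intro _
        rfl
      · intro h
        rw [hQ0, hQP] at h
        exact absurd h (qp_ne hP' hrel h1 h2 h12 b)
    · refine Fin.cases ?_ (fun b => ?_) b
      · intro h
        rw [hQ0, hQP] at h
        exact absurd h.symm (qp_ne hP' hrel h1 h2 h12 a)
      · intro h
        rw [hQP, hQP] at h
        rw [inj_of_alg hP' h]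
  have hne : P' (i 1) ≠ P' (i 2) := fun h' => hi12 (inj_of_alg hP' h')
  have hGirr : ∀ x, Irreducible (G x) := by
    rintro (k | k)
    · exact (htr k.1 k.2).1
    · exact ln_irr hne
  have hGhom : ∀ x, (G x).IsHomogeneous (E x) := by
    rintro (k | k)
    · exact (htr k.1 k.2).2.1
    · exact ln_hom _ _
  have hE1 : ∀ x, 1 ≤ E x := fun x => deg_pos (hGirr x) (hGhom x)
  -- the transform of the cubic curve
  obtain ⟨Bn, μ, c, -, hBn, hBi, hB3, -, hBo, -⟩ := norm_B hP hB0 hB hBv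
  have hBt := comp_trans hrel (w := fun _ => 1) hBi hB3 hBo (by norm_num) (by norm_num)
    (by norm_num)
  rw [← hA] at hBt
  have hB0' : TR A Bn ≠ 0 := hBt.1.ne_zero
  have hB3' : (TR A Bn).IsHomogeneous 3 := hBt.2.1
  have hBv' : ∀ j, Van (aff (Q j)) 1 (TR A Bn) := by
    intro j
    refine Fin.cases ?_ (fun j => ?_) j
    · rw [hQ0]
      have h3 := hBt.2.2.2.1 V1 V2 h1 h2 2 (by
        rw [hBn, map_mul]
        exact Ideal.mul_mem_left _ _ hBx)
      rw [hA] at h3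
      have h4 := van_qp h1 h2 h12 (by rw [← hA]; exact hB3') h3
      rw [← hA] at h4
      exact h4
    · rw [hQP]
      have h3 := (hBt.2.2.1 j).1
      have h4 : wcr 3 i (fun _ : Fin 9 => 1) j = 1 := by
        unfold wcr
        split_ifs <;> rfl
      rw [h4] at h3
      exact h3
  have hlord := ln_ord hP' hrel h12
  rw [← hQ] at hlord
  have hGord : ∀ x j, Ord (aff (Q j)) (Wt x j) (G x) := by
    rintro (k | k) j
    · refine Fin.cases ?_ (fun j => ?_) j
      · rw [hQ0]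
        exact hτ k.1 k.2
      · rw [hQP]
        exact (htr k.1 k.2).2.2.1 j
    · exact hlord j
  -- the line is different from the other components
  have hline : ∀ k : Fin n, good k → ∀ (f1 f2 : ℕ),
      (f1 = 2 * e k - (w k (i 0) + w k (i 1) + w k (i 2)) → f1 = 1 →
        wcr (e k) i (w k) (i 1) = 1 → wcr (e k) i (w k) (i 2) = 1 → False) := by
    intro k hk f1 f2 hf1 hf2 hw1 hw2
    have h10 : i 1 ≠ i 0 := fun h => absurd (hi h) (by decide)
    have h20 : i 2 ≠ i 0 := fun h => absurd (hi h) (by decide)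
    obtain ⟨q1, q2, q3⟩ := (hgd k).1 hk
    unfold wcr at hw1 hw2
    rw [if_neg h10, if_pos rfl] at hw1
    rw [if_neg h20, if_neg hi12.symm, if_pos rfl] at hw2
    omega
  have hl1 : Ord (aff (P' (i 1))) 1 (ln (P' (i 1)) (P' (i 2))) := by
    have := hlord (i 1).succ
    rw [hQP, Fin.cons_succ, if_pos (Or.inl rfl)] at this
    exact this
  have hl2 : Ord (aff (P' (i 2))) 1 (ln (P' (i 1)) (P' (i 2))) := by
    have := hlord (i 2).succ
    rw [hQP, Fin.cons_succ, if_pos (Or.inr rfl)] at this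
    exact this
  have hGk : ∀ x y, x ≠ y → ¬ G x ∣ G y := by
    rintro (k | k) (l | l) hkl hdv
    · refine hgk k.1 l.1 (fun h => hkl (congrArg Sum.inl (Subtype.ext h))) ?_
      exact tr_dvd hAdet (htr k.1 k.2).2.2.2.2.1 (htr k.1 k.2).2.2.2.2.2 (htr l.1 l.2).2.2.2.2.1
        (htr l.1 l.2).2.2.2.2.2 (htr k.1 k.2).1 (htr l.1 l.2).1 hdv
    · have h3 := same (hGirr (Sum.inl k)) (hGirr (Sum.inr l)) hdv (hGhom (Sum.inl k))
        (hGhom (Sum.inr l))
      exact hline k.1 k.2 _ 0 rfl h3.1 (h3.2 _ _ _ ((htr k.1 k.2).2.2.1 (i 1)) hl1)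
        (h3.2 _ _ _ ((htr k.1 k.2).2.2.1 (i 2)) hl2)
    · have h3 := same (hGirr (Sum.inr k)) (hGirr (Sum.inl l)) hdv (hGhom (Sum.inr k))
        (hGhom (Sum.inl l))
      exact hline l.1 l.2 _ 0 rfl h3.1.symm
        (h3.2 _ _ _ hl1 ((htr l.1 l.2).2.2.1 (i 1))).symm
        (h3.2 _ _ _ hl2 ((htr l.1 l.2).2.2.1 (i 2))).symm
    · apply hkl
      congr 1
      apply Fin.ext
      have := k.2
      have := l.2
      omega
  have hfin := ten_fin hP' hQP hQinj hB0' hB3' hBv' hGirr hGk hGhom hE1 hGord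
  have hT : ∑ x, Wt x 0 = ∑ k, τ k + ε := by
    rw [Fintype.sum_sum_type]
    congr 1
    · show ∑ k : {k : Fin n // good k}, τ k.1 = ∑ k, τ k
      rw [← Finset.sum_subtype (Finset.univ.filter good) (fun k => by simp) τ]
      refine Finset.sum_filter_of_ne fun k _ hk => ?_
      by_contra hcon
      exact hk (hτ0 k hcon)
    · show ∑ k : Fin ε, 1 = ε
      simp
  -- the classes
  let exc : ℤ × (Fin 9 → ℤ) := (0, fun j => if j = i 0 then -1 else 0)
  let clA : ι → ℤ × (Fin 9 → ℤ) := Sum.elim (fun k => cl9 (e k.1) (w k.1)) (fun _ => exc)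
  have hcr : ∀ x, cr i (clA x) = ((E x : ℤ), fun j : Fin 9 => ((Wt x j.succ : ℕ) : ℤ)) := by
    rintro (k | k)
    · exact cr_cl9 hi ((hgd k.1).1 k.2).1 ((hgd k.1).1 k.2).2.1 ((hgd k.1).1 k.2).2.2
    · refine (cr_exc hi).trans ?_
      refine Prod.ext ?_ (funext fun j => ?_)
      · show (1 : ℤ) = ((1 : ℕ) : ℤ)
        norm_num
      · show (if j = i 1 ∨ j = i 2 then (1 : ℤ) else 0) =
          ((if j = i 1 ∨ j = i 2 then 1 else 0 : ℕ) : ℤ)
        rw [Nat.cast_ite, Nat.cast_one, Nat.cast_zero]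
  have hq : qq (∑ x, clA x) =
      qq (((∑ x, E x : ℕ) : ℤ), fun j : Fin 9 => ((∑ x, Wt x j.succ : ℕ) : ℤ)) := by
    rw [← qq_cr hi, cr_sum, Finset.sum_congr rfl fun x _ => hcr x]
    congr 1
    refine Prod.ext ?_ (funext fun j => ?_)
    · rw [Prod.fst_sum]
      push_cast
      rfl
    · rw [Prod.snd_sum, Finset.sum_apply]
      push_cast
      rfl
  have hcc : cc (∑ x, E x) (fun j => ∑ x, Wt x j) = qq (∑ x, clA x) -
      (((∑ k, τ k + ε : ℕ) : ℤ) * ((∑ k, τ k + ε : ℕ) : ℤ) + ((∑ k, τ k + ε : ℕ) : ℤ)) := by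
    rw [cc_qq9, hq, hT]
  have htot : ∑ k, cl9 (e k) (w k) + ε • (0, fun j => if j = i 0 then -1 else 0) =
      ∑ x, clA x + ∑ k ∈ Finset.univ.filter (fun k => ¬ good k), cl9 (e k) (w k) := by
    have h3 : ∑ x, clA x = ∑ k ∈ Finset.univ.filter good, cl9 (e k) (w k) + ε • exc := by
      rw [Fintype.sum_sum_type]
      congr 1
      · show ∑ k : {k : Fin n // good k}, cl9 (e k.1) (w k.1) = _
        rw [← Finset.sum_subtype (Finset.univ.filter good) (fun k => by simp)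
          (fun k => cl9 (e k) (w k))]
      · show ∑ k : Fin ε, exc = ε • exc
        rw [Finset.sum_const, Finset.card_univ, Fintype.card_fin]
    rw [h3, ← Finset.sum_filter_add_sum_filter_not Finset.univ good]
    abel
  have hmain : qq (∑ x, clA x) ≤
      qq (∑ k, cl9 (e k) (w k) + ε • (0, fun j => if j = i 0 then -1 else 0)) := by
    rw [htot]
    refine qq_add_sum _ _ _ (fun k _ => qq_irr9 hP (hg k) (hge k) (he k) (hw k)) ?_ ?_
    · intro k hk
      rw [Finset.mem_filter] at hk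
      rw [bq_sum]
      refine Finset.sum_nonneg ?_
      rintro (l | l) _
      · refine bq_irr9 hP (hg l.1) (hge l.1) (hw l.1) (hg k) (hge k) (hw k) (hgk l.1 k fun h => ?_)
        apply hk.2
        rw [← h]
        exact l.2
      · show 0 ≤ bq (0, fun j => if j = i 0 then -1 else 0) (cl9 (e k) (w k))
        unfold bq cl9
        simp
    · intro k _ l _ hkl
      exact bq_irr9 hP (hg k) (hge k) (hw k) (hg l) (hge l) (hw l) (hgk k l hkl)
  refine ⟨∑ k, τ k + ε, htT, ?_, fun hT1 => ?_⟩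
  · have h3 := hfin.1
    rw [hcc] at h3
    linarith
  · have h3 := hfin.2 (by rw [hT]; exact hT1)
    rw [hcc] at h3
    linarith

end Pool.Agent.H884.TF
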