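import Pool.Agent.H884.TF.Blow

set_option autoImplicit false
set_option linter.unusedSectionVars false

/-!
# The charts of the blow-up
-/

namespace Pool.Agent.H884.TF

open MvPolynomial Pool.Agent.W609 Pool.Agent.W609.CR Pool.Agent.TH167 Pool.Agent.TH167.SH
  Pool.Agent.TH167.DD Pool.Agent.H248R6

variable {K : Type} [Field K] [CharZero K]

/-- The total transform in a chart of the blow-up. -/
noncomputable def chart (q v w : Fin 2 → K) :
    MvPolynomial (Fin 3) K →ₐ[K] MvPolynomial (Fin 3) K :=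
  aeval ![C (q 0) + X 0 * (C (v 0) + X 1 * C (w 0)), C (q 1) + X 0 * (C (v 1) + X 1 * C (w 1)), 1]

theorem van_chart {q v w : Fin 2 → K} (hD : v 0 * w 1 - v 1 * w 0 ≠ 0)
    {F : MvPolynomial (Fin 3) K} {W : ℕ} (h : Van 0 W (chart q v w F)) :
    Van ![0, v 0, v 1] W (bl q F) := by
  classical
  rcases Nat.eq_zero_or_pos W with hW | hW
  · rw [hW]
    exact van_zero _ _
  obtain ⟨D, hDd⟩ : ∃ D, D = v 0 * w 1 - v 1 * w 0 := ⟨_, rfl⟩
  rw [← hDd] at hD
  obtain ⟨z, hz⟩ : ∃ z : Fin 3 → K, z = ![0, v 0, v 1] := ⟨_, rfl⟩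
  have z0 : z 0 = 0 := by rw [hz]; rfl
  have z1 : z 1 = v 0 := by rw [hz]; rfl
  have z2 : z 2 = v 1 := by rw [hz]; rfl
  rw [← hz]
  let J := RingHom.ker (MvPolynomial.eval z)
  let B := MvPolynomial (Fin 3) K ⧸ J ^ W
  let π : MvPolynomial (Fin 3) K →ₐ[K] B := Ideal.Quotient.mkₐ K (J ^ W)
  have hπ : ∀ g, π g = 0 ↔ g ∈ J ^ W := fun g => Ideal.Quotient.eq_zero_iff_mem
  have hπC : ∀ c, π (C c) = algebraMap K B c := by
    intro c
    rw [← MvPolynomial.algebraMap_eq]
    exact π.commutes _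
  let I := Ideal.map (Ideal.Quotient.mk (J ^ W)) J
  have hmem : ∀ g, eval z g = 0 → π g ∈ I := by
    intro g hg
    refine Ideal.mem_map_of_mem (Ideal.Quotient.mk (J ^ W)) ?_
    rw [RingHom.mem_ker]
    exact hg
  have hnil : ∀ b ∈ I, IsNilpotent b := by
    intro b hb
    refine ⟨W, ?_⟩
    have h3 : b ^ W ∈ I ^ W := Ideal.pow_mem_pow hb W
    rw [← Ideal.map_pow, Ideal.map_quotient_self] at h3
    exact h3
  -- the coordinates of the direction in the basis `v`, `w`
  obtain ⟨α, hα⟩ : ∃ α : MvPolynomial (Fin 3) K,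
      α = C D⁻¹ * (X 1 * C (w 1) - X 2 * C (w 0)) := ⟨_, rfl⟩
  obtain ⟨β, hβ⟩ : ∃ β : MvPolynomial (Fin 3) K,
      β = C D⁻¹ * (C (v 0) * X 2 - C (v 1) * X 1) := ⟨_, rfl⟩
  have hDD : (C D⁻¹ : MvPolynomial (Fin 3) K) * C D = 1 := by
    rw [← C_mul, inv_mul_cancel₀ hD, C_1]
  have hCD : (C D : MvPolynomial (Fin 3) K) = C (v 0) * C (w 1) - C (v 1) * C (w 0) := by
    rw [hDd, C_sub, C_mul, C_mul]
  have e1 : α * C (v 0) + β * C (w 0) = X 1 := by
    rw [hα, hβ]
    rw [hCD] at hDD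
    linear_combination (X 1) * hDD
  have e2 : α * C (v 1) + β * C (w 1) = X 2 := by
    rw [hα, hβ]
    rw [hCD] at hDD
    linear_combination (X 2) * hDD
  have hα1 : eval z α = 1 := by
    rw [hα]
    simp only [map_mul, map_sub, eval_C, eval_X, z1, z2]
    rw [← hDd, inv_mul_cancel₀ hD]
  have hβ0 : eval z β = 0 := by
    rw [hβ]
    simp only [map_mul, map_sub, eval_C, eval_X, z1, z2]
    ring
  have hαu : IsUnit (π α) := by
    have h1 : π α = 1 + π (α - 1) := by rw [map_sub, map_one]; ring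
    rw [h1]
    refine (hnil _ (hmem _ ?_)).isUnit_one_add
    rw [map_sub, map_one, hα1, sub_self]
  obtain ⟨a', ha'⟩ := hαu.exists_right_inv
  let θ : MvPolynomial (Fin 3) K →ₐ[K] B := aeval ![π (X 0) * π α, π β * a', 0]
  have t0 : θ (X 0) = π (X 0) * π α := by rw [aeval_X]; rfl
  have t1 : θ (X 1) = π β * a' := by rw [aeval_X]; rfl
  have t2 : θ (X 2) = 0 := by rw [aeval_X]; rfl
  have hθ0 : θ (chart q v w F) = 0 := by
    refine subst_van (m := W) θ (fun l => ?_) h
    have hz' : ∀ l, algebraMap K B ((0 : Fin 3 → K) l) = 0 := fun l => by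
      rw [Pi.zero_apply, map_zero]
    rw [hz', sub_zero]
    fin_cases l
    · show θ (X 0) ∈ I
      rw [t0]
      refine Ideal.mul_mem_right _ _ (hmem _ ?_)
      rw [eval_X, z0]
    · show θ (X 1) ∈ I
      rw [t1]
      exact Ideal.mul_mem_right _ _ (hmem _ hβ0)
    · show θ (X 2) ∈ I
      rw [t2]
      exact zero_mem _
  unfold Van
  rw [← hπ, ← hθ0]
  have hcomp : π.comp (bl q) = θ.comp (chart q v w) := by
    apply MvPolynomial.algHom_ext
    intro i
    rw [AlgHom.comp_apply, AlgHom.comp_apply, bl, chart, aeval_X, aeval_X]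
    have hC : ∀ a : K, θ (C a) = algebraMap K B a := fun a => by
      rw [← MvPolynomial.algebraMap_eq, θ.commutes]
    have e1' := congrArg π e1
    have e2' := congrArg π e2
    rw [map_add, map_mul, map_mul, hπC, hπC] at e1' e2'
    fin_cases i
    · show π (X 0 * X 1 + C (q 0)) = θ (C (q 0) + X 0 * (C (v 0) + X 1 * C (w 0)))
      rw [map_add, map_mul, hπC, map_add, map_mul, map_add, map_mul, hC, hC, hC, t0, t1, ← e1']
      linear_combination (-π (X 0) * π β * algebraMap K B (w 0)) * ha'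
    · show π (X 0 * X 2 + C (q 1)) = θ (C (q 1) + X 0 * (C (v 1) + X 1 * C (w 1)))
      rw [map_add, map_mul, hπC, map_add, map_mul, map_add, map_mul, hC, hC, hC, t0, t1, ← e2']
      linear_combination (-π (X 0) * π β * algebraMap K B (w 1)) * ha'
    · show π 1 = θ 1
      rw [map_one, map_one]
  exact DFunLike.congr_fun hcomp F

end Pool.Agent.H884.TF
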