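import Mathlib

set_option autoImplicit false
set_option linter.unusedSectionVars false

/-!
# Classes of divisors, the quadratic form and the quadratic transformation
-/

namespace Pool.Agent.H884.TF

variable {s : ℕ}

/-- Twice the virtual dimension. -/
def qq (v : ℤ × (Fin s → ℤ)) : ℤ :=
  v.1 * v.1 + 3 * v.1 - ∑ j, v.2 j * v.2 j - ∑ j, v.2 j

/-- The intersection number. -/
def bq (v u : ℤ × (Fin s → ℤ)) : ℤ := v.1 * u.1 - ∑ j, v.2 j * u.2 j

theorem qq_add (v u : ℤ × (Fin s → ℤ)) : qq (v + u) = qq v + qq u + 2 * bq v u := by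
  unfold qq bq
  simp only [Prod.fst_add, Prod.snd_add, Pi.add_apply]
  have h1 : ∑ j, (v.2 j + u.2 j) * (v.2 j + u.2 j) =
      ∑ j, v.2 j * v.2 j + ∑ j, u.2 j * u.2 j + 2 * ∑ j, v.2 j * u.2 j := by
    rw [Finset.mul_sum, ← Finset.sum_add_distrib, ← Finset.sum_add_distrib]
    exact Finset.sum_congr rfl fun j _ => by ring
  rw [h1, Finset.sum_add_distrib]
  ring

theorem bq_add (v v' u : ℤ × (Fin s → ℤ)) : bq (v + v') u = bq v u + bq v' u := by
  unfold bq
  simp only [Prod.fst_add, Prod.snd_add, Pi.add_apply, add_mul]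
  rw [Finset.sum_add_distrib]
  ring

theorem bq_comm (v u : ℤ × (Fin s → ℤ)) : bq v u = bq u v := by
  unfold bq
  rw [mul_comm]
  congr 1
  exact Finset.sum_congr rfl fun j _ => mul_comm _ _

theorem bq_zero (u : ℤ × (Fin s → ℤ)) : bq 0 u = 0 := by
  unfold bq
  simp

theorem bq_sum {ι : Type} (B : Finset ι) (l : ι → ℤ × (Fin s → ℤ)) (u : ℤ × (Fin s → ℤ)) :
    bq (∑ i ∈ B, l i) u = ∑ i ∈ B, bq (l i) u := by
  classical
  induction B using Finset.induction_on with
  | empty => simp [bq_zero]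
  | insert a B ha ih =>
    rw [Finset.sum_insert ha, Finset.sum_insert ha, bq_add, ih]

/-- Adding curves. -/
theorem qq_add_sum {ι : Type} [DecidableEq ι] (B : Finset ι) (l : ι → ℤ × (Fin s → ℤ)) :
    ∀ A : ℤ × (Fin s → ℤ), (∀ i ∈ B, 0 ≤ qq (l i)) → (∀ i ∈ B, 0 ≤ bq A (l i)) →
      (∀ i ∈ B, ∀ k ∈ B, i ≠ k → 0 ≤ bq (l i) (l k)) → qq A ≤ qq (A + ∑ i ∈ B, l i) := by
  induction B using Finset.induction_on with
  | empty =>
    intro A _ _ _
    simp
  | insert a B ha ih =>
    intro A h1 h2 h3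
    have h4 := ih (A + l a) (fun i hi => h1 i (Finset.mem_insert_of_mem hi)) (fun i hi => by
      rw [bq_add]
      exact add_nonneg (h2 i (Finset.mem_insert_of_mem hi)) (h3 a (Finset.mem_insert_self _ _) i
        (Finset.mem_insert_of_mem hi) fun h => ha (by rw [h]; exact hi)))
      (fun i hi k hk hik => h3 i (Finset.mem_insert_of_mem hi) k (Finset.mem_insert_of_mem hk) hik)
    rw [Finset.sum_insert ha, ← add_assoc]
    refine le_trans ?_ h4
    rw [qq_add]
    have h5 := h1 a (Finset.mem_insert_self _ _)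
    have h6 := h2 a (Finset.mem_insert_self _ _)
    linarith

/-- The indicator of the three indices. -/
def ch (i : Fin 3 → Fin s) (j : Fin s) : ℤ :=
  (if j = i 0 then 1 else 0) + (if j = i 1 then 1 else 0) + (if j = i 2 then 1 else 0)

theorem sum_ch (i : Fin 3 → Fin s) (F : Fin s → ℤ) :
    ∑ j, ch i j * F j = F (i 0) + F (i 1) + F (i 2) := by
  unfold ch
  simp only [add_mul, Finset.sum_add_distrib, ite_mul, one_mul, zero_mul, Finset.sum_ite_eq',
    Finset.mem_univ, if_true]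

/-- The quadratic transformation of classes. -/
def cr (i : Fin 3 → Fin s) (v : ℤ × (Fin s → ℤ)) : ℤ × (Fin s → ℤ) :=
  (v.1 + (v.1 - v.2 (i 0) - v.2 (i 1) - v.2 (i 2)),
    fun j => v.2 j + (v.1 - v.2 (i 0) - v.2 (i 1) - v.2 (i 2)) * ch i j)

theorem cr_add (i : Fin 3 → Fin s) (v u : ℤ × (Fin s → ℤ)) : cr i (v + u) = cr i v + cr i u := by
  unfold cr
  refine Prod.ext ?_ (funext fun j => ?_)
  · simp only [Prod.fst_add, Prod.snd_add, Pi.add_apply]
    ring
  · simp only [Prod.fst_add, Prod.snd_add, Pi.add_apply]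
    ring

theorem cr_zero (i : Fin 3 → Fin s) : cr i 0 = 0 := by
  unfold cr
  refine Prod.ext ?_ (funext fun j => ?_)
  · simp
  · simp

theorem cr_sum {ι : Type} (B : Finset ι) (i : Fin 3 → Fin s) (l : ι → ℤ × (Fin s → ℤ)) :
    cr i (∑ k ∈ B, l k) = ∑ k ∈ B, cr i (l k) := by
  classical
  induction B using Finset.induction_on with
  | empty => simp [cr_zero]
  | insert a B ha ih =>
    rw [Finset.sum_insert ha, Finset.sum_insert ha, cr_add, ih]

theorem qq_cr {i : Fin 3 → Fin s} (hi : Function.Injective i) (v : ℤ × (Fin s → ℤ)) :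
    qq (cr i v) = qq v := by
  have h01 : i 0 ≠ i 1 := fun h => absurd (hi h) (by decide)
  have h02 : i 0 ≠ i 2 := fun h => absurd (hi h) (by decide)
  have h12 : i 1 ≠ i 2 := fun h => absurd (hi h) (by decide)
  obtain ⟨k, hk⟩ : ∃ k, k = v.1 - v.2 (i 0) - v.2 (i 1) - v.2 (i 2) := ⟨_, rfl⟩
  have c0 : ch i (i 0) = 1 := by simp [ch, h01, h02]
  have c1 : ch i (i 1) = 1 := by simp [ch, h01.symm, h12]
  have c2 : ch i (i 2) = 1 := by simp [ch, h02.symm, h12.symm]
  have h1 : ∑ j, ch i j = 3 := by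
    have := sum_ch i (fun _ => 1)
    simp only [mul_one] at this
    rw [this]
    norm_num
  have h2 : ∑ j, ch i j * ch i j = 3 := by
    rw [sum_ch, c0, c1, c2]
    norm_num
  have h3 := sum_ch i v.2
  unfold qq cr
  simp only [← hk]
  have h4 : ∑ j, (v.2 j + k * ch i j) * (v.2 j + k * ch i j) =
      ∑ j, v.2 j * v.2 j + 2 * k * ∑ j, ch i j * v.2 j + k * k * ∑ j, ch i j * ch i j := by
    rw [Finset.mul_sum, Finset.mul_sum, ← Finset.sum_add_distrib, ← Finset.sum_add_distrib]
    exact Finset.sum_congr rfl fun j _ => by ring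
  have h5 : ∑ j, (v.2 j + k * ch i j) = ∑ j, v.2 j + k * ∑ j, ch i j := by
    rw [Finset.sum_add_distrib, Finset.mul_sum]
  rw [h4, h5, h1, h2, h3]
  have h6 : v.2 (i 0) + v.2 (i 1) + v.2 (i 2) = v.1 - k := by rw [hk]; ring
  rw [h6]
  ring

/-- The class of the exceptional curve. -/
theorem cr_exc {i : Fin 3 → Fin s} (hi : Function.Injective i) :
    cr i (0, fun j => if j = i 0 then -1 else 0) =
      (1, fun j => if j = i 1 ∨ j = i 2 then 1 else 0) := by
  have h01 : i 0 ≠ i 1 := fun h => absurd (hi h) (by decide)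
  have h02 : i 0 ≠ i 2 := fun h => absurd (hi h) (by decide)
  have h12 : i 1 ≠ i 2 := fun h => absurd (hi h) (by decide)
  unfold cr
  refine Prod.ext ?_ (funext fun j => ?_)
  · simp [h01.symm, h02.symm]
  · simp only [h01.symm, h02.symm, if_true, if_false, ch]
    by_cases a0 : j = i 0
    · subst a0
      simp [h01, h02]
    by_cases a1 : j = i 1
    · subst a1
      simp [a0, h12]
    by_cases a2 : j = i 2
    · subst a2
      simp [a0, a1]
    simp [a0, a1, a2]

end Pool.Agent.H884.TF
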