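import Mathlib

set_option autoImplicit false

/-!
# Three vertices of a sparse graph, and sums
-/

namespace Pool.Agent.H884.TF

/-- A symmetric matrix with few nonzero entries has three orthogonal indices. -/
theorem three_free {ι : Type} [DecidableEq ι] (b : ι → ι → ℤ) (hs : ∀ i k, b i k = b k i)
    (hb : ∀ i k, i ≠ k → 0 ≤ b i k) : ∀ (N : ℕ) (T : Finset ι), T.card = N →
      ∑ i ∈ T, ∑ k ∈ T.erase i, b i k + 6 ≤ 2 * (T.card : ℤ) →
      ∃ i ∈ T, ∃ j ∈ T, ∃ k ∈ T, i ≠ j ∧ i ≠ k ∧ j ≠ k ∧ b i j = 0 ∧ b i k = 0 ∧ b j k = 0 := by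
  intro N
  induction N with
  | zero =>
    intro T hT h
    rw [Finset.card_eq_zero] at hT
    subst hT
    simp at h
  | succ N ih =>
    intro T hT h
    by_cases hex : ∃ i ∈ T, 1 ≤ ∑ k ∈ T.erase i, b i k
    · obtain ⟨i, hi, h1⟩ := hex
      have hc : (T.erase i).card = N := by rw [Finset.card_erase_of_mem hi, hT]; rfl
      have h2 : ∑ j ∈ T, ∑ k ∈ T.erase j, b j k =
          ∑ j ∈ T.erase i, ∑ k ∈ (T.erase i).erase j, b j k + 2 * ∑ k ∈ T.erase i, b i k := by
        rw [← Finset.add_sum_erase T (fun j => ∑ k ∈ T.erase j, b j k) hi]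
        have h3 : ∀ j ∈ T.erase i, ∑ k ∈ T.erase j, b j k =
            b i j + ∑ k ∈ (T.erase i).erase j, b j k := by
          intro j hj
          have hj' := Finset.mem_erase.1 hj
          rw [← Finset.add_sum_erase (T.erase j) (fun k => b j k)
            (Finset.mem_erase.2 ⟨hj'.1.symm, hi⟩), hs j i, Finset.erase_right_comm]
        rw [Finset.sum_congr rfl h3, Finset.sum_add_distrib]
        ring
      obtain ⟨i', hi', j', hj', k', hk', h4⟩ := ih (T.erase i) hc (by
        rw [h2] at h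
        rw [hc]
        rw [hT] at h
        push_cast at h
        linarith)
      exact ⟨i', Finset.mem_of_mem_erase hi', j', Finset.mem_of_mem_erase hj', k',
        Finset.mem_of_mem_erase hk', h4⟩
    · push Not at hex
      have h0 : ∀ i ∈ T, ∀ k ∈ T, i ≠ k → b i k = 0 := by
        intro i hi k hk hik
        have h1 := hex i hi
        have hnn : ∀ k ∈ T.erase i, 0 ≤ b i k := fun k hk =>
          hb i k (Finset.mem_erase.1 hk).1.symm
        have h2 := Finset.sum_nonneg hnn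
        have h3 : ∑ k ∈ T.erase i, b i k = 0 := by omega
        exact (Finset.sum_eq_zero_iff_of_nonneg hnn).1 h3 k (Finset.mem_erase.2 ⟨hik.symm, hk⟩)
      have h1 : 0 ≤ ∑ i ∈ T, ∑ k ∈ T.erase i, b i k :=
        Finset.sum_nonneg fun i _ => Finset.sum_nonneg fun k hk =>
          hb i k (Finset.mem_erase.1 hk).1.symm
      have h3 : 2 < T.card := by
        have : (6 : ℤ) ≤ 2 * (T.card : ℤ) := by linarith
        omega
      obtain ⟨i, hi, j, hj, k, hk, hij, hik, hjk⟩ := Finset.two_lt_card.1 h3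
      exact ⟨i, hi, j, hj, k, hk, hij, hik, hjk, h0 i hi j hj hij, h0 i hi k hk hik,
        h0 j hj k hk hjk⟩

/-- Twice the virtual dimension of a class. -/
def cc {s : ℕ} (d : ℕ) (w : Fin s → ℕ) : ℤ :=
  (d : ℤ) * d + 3 * d - ∑ j, (w j : ℤ) * w j - ∑ j, (w j : ℤ)

/-- The intersection number of two classes. -/
def bb {s : ℕ} (d : ℕ) (w : Fin s → ℕ) (e : ℕ) (u : Fin s → ℕ) : ℤ :=
  (d : ℤ) * e - ∑ j, (w j : ℤ) * u j

theorem bb_comm {s : ℕ} (d : ℕ) (w : Fin s → ℕ) (e : ℕ) (u : Fin s → ℕ) :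
    bb d w e u = bb e u d w := by
  unfold bb
  rw [mul_comm]
  congr 1
  exact Finset.sum_congr rfl fun j _ => mul_comm _ _

theorem cc_sum {s n : ℕ} (e : Fin n → ℕ) (w : Fin n → Fin s → ℕ) :
    cc (∑ i, e i) (fun j => ∑ i, w i j) =
      ∑ i, cc (e i) (w i) + ∑ i, ∑ k ∈ Finset.univ.erase i, bb (e i) (w i) (e k) (w k) := by
  have h1 : ∀ i, ∑ k ∈ Finset.univ.erase i, bb (e i) (w i) (e k) (w k) =
      ∑ k, bb (e i) (w i) (e k) (w k) - bb (e i) (w i) (e i) (w i) := by
    intro i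
    rw [← Finset.add_sum_erase _ _ (Finset.mem_univ i)]
    ring
  rw [Finset.sum_congr rfl fun i _ => h1 i, Finset.sum_sub_distrib]
  have h2 : ∑ i, ∑ k, bb (e i) (w i) (e k) (w k) =
      (∑ i, (e i : ℤ)) * (∑ i, (e i : ℤ)) - ∑ j, (∑ i, (w i j : ℤ)) * (∑ i, (w i j : ℤ)) := by
    unfold bb
    simp only [Finset.sum_sub_distrib]
    congr 1
    · rw [Finset.sum_mul_sum]
    · simp only [Finset.sum_mul_sum]
      rw [Finset.sum_comm' (t' := Finset.univ) (s' := fun _ => Finset.univ) (by simp)]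
      rw [Finset.sum_comm]
      rw [Finset.sum_congr rfl fun i _ => Finset.sum_comm]
      rw [Finset.sum_comm]
  rw [h2]
  unfold cc bb
  push_cast
  simp only [Finset.sum_sub_distrib, Finset.sum_add_distrib]
  rw [Finset.sum_comm (f := fun i j => (w i j : ℤ))]
  rw [← Finset.mul_sum]
  ring

end Pool.Agent.H884.TF
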