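import Pool.Agent.H884.TF.Trans

set_option autoImplicit false
set_option linter.unusedSectionVars false

/-!
# The quadratic transformation of a component, at the points
-/

namespace Pool.Agent.H884.TF

open MvPolynomial Pool.Agent.W609 Pool.Agent.W609.CR Pool.Agent.TH167 Pool.Agent.TH167.SH
  Pool.Agent.TH167.DD Pool.Agent.H248R6

variable {K : Type} [Field K] [CharZero K]

theorem ord_X0 {v : Fin 3 → K} (hv : v 0 = 0) : Ord v 1 (X 0 : MvPolynomial (Fin 3) K) := by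
  refine ⟨(SH.van_one _ _).2 (by rw [eval_X, hv]), fun h => ?_⟩
  exact line_mult (X_ne_zero 0) (isHomogeneous_X K 0) h

theorem ord_X0_pow {v : Fin 3 → K} (hv : v 0 = 0) (m : ℕ) :
    Ord v m (X 0 ^ m : MvPolynomial (Fin 3) K) := by
  induction m with
  | zero =>
    rw [pow_zero]
    refine ⟨van_zero _ _, fun h => ?_⟩
    rw [zero_add, SH.van_one, map_one] at h
    exact one_ne_zero h
  | succ m ih =>
    rw [pow_succ]
    exact ord_mul ih (ord_X0 hv)

/-- Van of a product with a power of `X 0`. -/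
theorem van_X0_pow {v : Fin 3 → K} (hv : v 0 = 0) {m W : ℕ} {g : MvPolynomial (Fin 3) K}
    (h : Van v W (X 0 ^ m * g)) : Van v (W - m) g := by
  have h1 := (ord_iff _ _ _).1 (ord_X0_pow (K := K) hv m)
  rw [van_iff, od_mul, h1] at h
  rw [van_iff]
  by_cases htop : od v g = ⊤
  · rw [htop]
    exact le_top
  obtain ⟨r, hr⟩ := ENat.ne_top_iff_exists.1 htop
  rw [← hr] at h ⊢
  have h2 : W ≤ m + r := by exact_mod_cast h
  have h3 : W - m ≤ r := by omega
  exact_mod_cast h3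

/-- The transformation of a component. -/
theorem comp_trans {s : ℕ} {P P' : Fin s → Fin 2 → K} {i : Fin 3 → Fin s}
    (h : SH.CRel P P' i) {d : ℕ} {G : MvPolynomial (Fin 3) K} {w : Fin s → ℕ}
    (hG : Irreducible G) (hGh : G.IsHomogeneous d) (hGo : ∀ j, Ord (aff (P j)) (w j) G)
    (p01 : w (i 0) + w (i 1) ≤ d) (p02 : w (i 0) + w (i 2) ≤ d) (p12 : w (i 1) + w (i 2) ≤ d) :
    Irreducible (TR (mat3 P i) G) ∧
    (TR (mat3 P i) G).IsHomogeneous (2 * d - (w (i 0) + w (i 1) + w (i 2))) ∧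
    (∀ j, Ord (aff (P' j)) (wcr d i w j) (TR (mat3 P i) G)) ∧
    (∀ (V1 V2 : K) (_ : V1 ≠ 0) (_ : V2 ≠ 0) (W : ℕ),
      Van ![0, V1 * (P (i 1) 0 - P (i 0) 0) + V2 * (P (i 2) 0 - P (i 0) 0),
        V1 * (P (i 1) 1 - P (i 0) 1) + V2 * (P (i 2) 1 - P (i 0) 1)] W (bl (P (i 0)) G) →
      Van ((mat3 P i).mulVec ![0, V1⁻¹, V2⁻¹]) (W - w (i 0)) (TR (mat3 P i) G)) ∧
    NN (rev (n := 2) (NN (Pool.Agent.W609.CR.lin (mat3 P i) G))
      (Pool.Agent.W609.CR.lin (mat3 P i) G)) = NN (Pool.Agent.W609.CR.lin (mat3 P i) G) ∧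
    rev (n := 2) (NN (Pool.Agent.W609.CR.lin (mat3 P i) G))
      (rev (n := 2) (NN (Pool.Agent.W609.CR.lin (mat3 P i) G))
        (Pool.Agent.W609.CR.lin (mat3 P i) G)) = Pool.Agent.W609.CR.lin (mat3 P i) G := by
  obtain ⟨hL, hS⟩ := t_lin K
  have hdet := h.det
  have hi := h.inj
  have hu := h.nz
  have hP'i := h.base
  have hP'j := h.img
  have hArc : ∀ r c, (mat3 P i) r c = aff (P (i c)) r := fun r c => by
    simp [mat3]
  obtain ⟨A, hA⟩ : ∃ A, A = mat3 P i := ⟨_, rfl⟩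
  rw [← hA] at hdet hu hP'j hArc ⊢
  have hAu : IsUnit A.det := isUnit_iff_ne_zero.2 hdet
  have hdet' : A⁻¹.det ≠ 0 := by
    rw [Matrix.det_nonsing_inv]
    simpa using hdet
  have hAbs : ∀ k, A.mulVec (bs k) = aff (P (i k)) := by
    intro k
    funext r
    simp only [bs, Matrix.mulVec_single_one]
    simp [hA, mat3, Matrix.col]
  have hAA : ∀ v, A.mulVec (A⁻¹.mulVec v) = v := by
    intro v
    rw [Matrix.mulVec_mulVec, Matrix.mul_nonsing_inv _ hAu, Matrix.one_mulVec]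
  have hAA' : ∀ v, A⁻¹.mulVec (A.mulVec v) = v := by
    intro v
    rw [Matrix.mulVec_mulVec, Matrix.nonsing_inv_mul _ hAu, Matrix.one_mulVec]
  obtain ⟨hLh, hLi, hLv, hLd⟩ := hL A hdet
  obtain ⟨hLh', hLi', hLv', hLd'⟩ := hL A⁻¹ hdet'
  have hG1k : ∀ k, Ord (bs k) (w (i k)) (Pool.Agent.W609.CR.lin A G) := by
    intro k
    refine ⟨(hLv _ _ _).1 ?_, fun h => (hGo (i k)).2 ?_⟩
    · rw [hAbs]; exact (hGo (i k)).1
    · rw [← hAbs]; exact (hLv _ _ _).2 h
  have hnd := not_dvd_of_pairs (m := fun k => w (i k)) (hLi G hG) (hLh G d hGh) hG1k p01 p02 p12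
  obtain ⟨f, hf⟩ : ∃ f, f = Pool.Agent.W609.CR.lin A G := ⟨_, rfl⟩
  have hfirr := hLi G hG
  have hfh := hLh G d hGh
  have hTR : TR A G = Pool.Agent.W609.CR.lin A⁻¹ (rev (n := 2) (NN f) f) := by
    rw [TR, hf]
  rw [← hf] at hG1k hnd hfirr hfh ⊢
  rw [hTR]
  obtain ⟨-, -, -, hNNk, hNle, hirr', -, hNN', hrr, hhom', hbs', hord'⟩ :=
    std2 (m := fun k => w (i k)) hfirr hfh hnd hG1k
  obtain ⟨G2, hG2⟩ : ∃ G2, G2 = rev (n := 2) (NN f) f := ⟨_, rfl⟩
  rw [← hG2] at hirr' hNN' hrr hhom' hbs' hord' ⊢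
  refine ⟨hLi' _ hirr', hLh' _ _ hhom', ?_, ?_, hNN', hrr⟩
  · -- the multiplicities
    have hG3k : ∀ k, Ord (aff (P' (i k)))
        ((![d - (w (i 1) + w (i 2)), d - (w (i 0) + w (i 2)), d - (w (i 0) + w (i 1))] :
          Fin 3 → ℕ) k) (Pool.Agent.W609.CR.lin A⁻¹ G2) := by
      intro k
      have hk : A⁻¹.mulVec (aff (P' (i k))) = bs k := by
        rw [hP'i, ← hAbs, hAA']
      have hk2 := hbs' k
      refine ⟨(hLv' _ _ _).1 ?_, fun h => hk2.2 ?_⟩
      · rw [hk]; exact hk2.1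
      · rw [← hk]; exact (hLv' _ _ _).2 h
    intro j
    by_cases h0 : j = i 0
    · have := hG3k 0
      simp only [Matrix.cons_val_zero] at this
      rw [h0]
      simpa [wcr] using this
    by_cases h1' : j = i 1
    · have := hG3k 1
      simp only [Matrix.cons_val_one, Matrix.cons_val_zero] at this
      have h10 : i 1 ≠ i 0 := by rw [← h1']; exact h0
      rw [h1']
      simpa [wcr, h10] using this
    by_cases h2' : j = i 2
    · have := hG3k 2
      simp only [Matrix.cons_val] at this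
      have h20 : i 2 ≠ i 0 := by rw [← h2']; exact h0
      have h21 : i 2 ≠ i 1 := by rw [← h2']; exact h1'
      rw [h2']
      simpa [wcr, h20, h21] using this
    · have hj : ∀ k, j ≠ i k := by
        intro k
        fin_cases k
        · exact h0
        · exact h1'
        · exact h2'
      have hwj : wcr d i w j = w j := by simp [wcr, h0, h1', h2']
      rw [hwj]
      obtain ⟨c, hc, hcj⟩ := hP'j j hj
      obtain ⟨u, hu'⟩ : ∃ u, u = A⁻¹.mulVec (aff (P j)) := ⟨_, rfl⟩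
      have hAuj : A.mulVec u = aff (P j) := by rw [hu']; exact hAA _
      have hu0 : ∀ k, u k ≠ 0 := fun k => by rw [hu']; exact hu j hj k
      have hG1j : Ord u (w j) f := by
        rw [hf]
        refine ⟨(hLv _ _ _).1 ?_, fun h => (hGo j).2 ?_⟩
        · rw [hAuj]; exact (hGo j).1
        · rw [← hAuj]; exact (hLv _ _ _).2 h
      have hG2j' := hord' u (w j) hu0 hG1j
      rw [← hu'] at hcj
      have hv : A⁻¹.mulVec (c • aff (P' j)) = fun k => (u k)⁻¹ := by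
        rw [← hcj, hAA']
      have key : ∀ m, Van (aff (P' j)) m (Pool.Agent.W609.CR.lin A⁻¹ G2) ↔
          Van (fun k => (u k)⁻¹) m G2 := by
        intro m
        rw [← hS (Pool.Agent.W609.CR.lin A⁻¹ G2) _ (hLh' _ _ hhom') c hc, ← hLv', hv]
      exact ⟨(key _).2 hG2j'.1, fun h => hG2j'.2 ((key _).1 h)⟩
  · intro V1 V2 hV1 hV2 W hW
    have h1 := bl_rev (p := fun c => P (i c)) hV1 hV2 hGh hArc hf hfh (hNNk 0) hNle hW
    rw [← hG2] at h1
    have h2 := van_X0_pow (v := ![0, V1⁻¹, V2⁻¹]) rfl h1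
    rw [← hLv', hAA']
    exact h2

/-- Different components have different transforms. -/
theorem tr_dvd {A : Matrix (Fin 3) (Fin 3) K} (hA : A.det ≠ 0) {G1 G2 : MvPolynomial (Fin 3) K}
    (a1 : NN (rev (n := 2) (NN (Pool.Agent.W609.CR.lin A G1)) (Pool.Agent.W609.CR.lin A G1)) =
      NN (Pool.Agent.W609.CR.lin A G1))
    (b1 : rev (n := 2) (NN (Pool.Agent.W609.CR.lin A G1)) (rev (n := 2)
      (NN (Pool.Agent.W609.CR.lin A G1)) (Pool.Agent.W609.CR.lin A G1)) =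
        Pool.Agent.W609.CR.lin A G1)
    (a2 : NN (rev (n := 2) (NN (Pool.Agent.W609.CR.lin A G2)) (Pool.Agent.W609.CR.lin A G2)) =
      NN (Pool.Agent.W609.CR.lin A G2))
    (b2 : rev (n := 2) (NN (Pool.Agent.W609.CR.lin A G2)) (rev (n := 2)
      (NN (Pool.Agent.W609.CR.lin A G2)) (Pool.Agent.W609.CR.lin A G2)) =
        Pool.Agent.W609.CR.lin A G2)
    (i1 : Irreducible (TR A G1)) (i2 : Irreducible (TR A G2)) (hdv : TR A G1 ∣ TR A G2) :
    G1 ∣ G2 := by
  obtain ⟨u, hu⟩ := hdv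
  have hu' : IsUnit u := by
    rcases i2.isUnit_or_isUnit hu with h | h
    · exact absurd h i1.not_isUnit
    · exact h
  obtain ⟨hc1, hc2⟩ := MvPolynomial.isUnit_iff_totalDegree_of_isReduced.1 hu'
  obtain ⟨c, hc⟩ : ∃ c, u = C c := ⟨_, MvPolynomial.totalDegree_eq_zero_iff_eq_C.1 hc2⟩
  have hc0 : c ≠ 0 := by
    rintro rfl
    rw [map_zero] at hc
    exact hu'.ne_zero hc
  have h1 := congrArg (Pool.Agent.W609.CR.lin A) hu
  rw [map_mul, TR, TR, (lin_lin hA _).1, (lin_lin hA _).1, hc] at h1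
  have h2 : Pool.Agent.W609.CR.lin A (C c) = C c := by
    rw [← MvPolynomial.algebraMap_eq, (Pool.Agent.W609.CR.lin A).commutes]
  rw [h2, mul_comm] at h1
  have h3 := congrArg NN h1
  rw [NN_C_mul hc0, a1, a2] at h3
  have h4 := congrArg (rev (n := 2) (NN (Pool.Agent.W609.CR.lin A G2))) h1
  rw [rev_C_mul hc0, b2, h3, b1] at h4
  have h5 := congrArg (Pool.Agent.W609.CR.lin A⁻¹) h4
  rw [map_mul, (lin_lin hA _).2, (lin_lin hA _).2] at h5
  rw [h5]
  exact Dvd.intro_left _ rfl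

end Pool.Agent.H884.TF
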