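import Pool.Agent.H884.TF.Proj
import Pool.Graph.R_seed8.W944.En.Auto
import Pool.Graph.R_seed8.TH167.SH.Fam
import Pool.Graph.R_seed8.H4R3.RCb

set_option autoImplicit false
set_option linter.unusedSectionVars false

/-!
# At most eight very general points
-/

namespace Pool.Agent.H884.TF

open MvPolynomial Pool.Agent.W609 Pool.Agent.W609.CR Pool.Agent.TH167 Pool.Agent.TH167.SH
  Pool.Agent.TH167.DD Pool.Agent.H248R6

/-- Additional generic points outside of a given curve. -/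
theorem extend {r : ℕ} {P : Fin r → Fin 2 → ℂ}
    (hP : AlgebraicIndependent ℚ (fun ij : Fin r × Fin 2 => P ij.1 ij.2))
    {F : MvPolynomial (Fin 3) ℂ} {d : ℕ} (hF : F.IsHomogeneous d) (hF0 : F ≠ 0) :
    ∃ P' : Fin 8 → Fin 2 → ℂ,
      AlgebraicIndependent ℚ (fun ij : Fin 8 × Fin 2 => P' ij.1 ij.2) ∧
      (∀ (j : Fin 8) (h : j.1 < r), P' j = P ⟨j.1, h⟩) ∧
      ∀ j : Fin 8, ¬ j.1 < r → eval (aff (P' j)) F ≠ 0 := by
  classical
  obtain ⟨A, hA⟩ : ∃ A : Set ℂ, A = Set.range (fun ij : Fin r × Fin 2 => P ij.1 ij.2) ∪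
    (fun s => coeff s F) '' (F.support : Set (Fin 3 →₀ ℕ)) := ⟨_, rfl⟩
  have hAc : A.Countable := by
    rw [hA]
    exact (Set.countable_range _).union (F.support.countable_toSet.image _)
  obtain ⟨k, hk⟩ : ∃ k : Subfield ℂ, k = Subfield.closure A := ⟨_, rfl⟩
  have hc : Countable k := by
    rw [← Cardinal.mk_le_aleph0_iff, hk]
    refine (Subfield.cardinalMk_closure_le_max _).trans ?_
    rw [max_le_iff]
    exact ⟨Cardinal.mk_le_aleph0_iff.2 hAc.to_subtype, le_rfl⟩
  obtain ⟨z, hz⟩ := Pool.Agent.W944.En.exists_indep k (Fin 8 × Fin 2)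
  have hsub : Set.range (fun ij : Fin r × Fin 2 => P ij.1 ij.2) ⊆ Set.range (algebraMap k ℂ) := by
    intro a ha
    refine ⟨⟨a, ?_⟩, rfl⟩
    rw [hk]
    refine Subfield.subset_closure ?_
    rw [hA]
    exact Or.inl ha
  have hall := hP.sumElim_of_tower (S := k) hsub hz
  let f : Fin 8 × Fin 2 → (Fin 8 × Fin 2) ⊕ (Fin r × Fin 2) := fun jc =>
    if h : jc.1.1 < r then Sum.inr (⟨jc.1.1, h⟩, jc.2) else Sum.inl jc
  have hf : Function.Injective f := by
    rintro ⟨j, c⟩ ⟨j', c'⟩ h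
    simp only [f] at h
    split_ifs at h with h1 h2 h2
    · have h3 := Sum.inr.inj h
      have h4 := congrArg (fun y : Fin r × Fin 2 => y.1.1) h3
      have h5 := congrArg Prod.snd h3
      exact Prod.ext (Fin.ext h4) h5
    · exact Sum.inl.inj h
  let P' : Fin 8 → Fin 2 → ℂ := fun j c => if h : j.1 < r then P ⟨j.1, h⟩ c else z (j, c)
  refine ⟨P', ?_, ?_, ?_⟩
  · have h1 := hall.comp f hf
    convert h1 using 1
    funext jc
    simp only [P', Function.comp, f]
    split_ifs <;> rfl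
  · intro j h
    funext c
    simp only [P', dif_pos h]
  · intro j h h0
    -- the form over the small field
    have hcoef : ∀ s, coeff s F ∈ k := by
      intro s
      by_cases hs : s ∈ F.support
      · rw [hk]
        refine Subfield.subset_closure ?_
        rw [hA]
        exact Or.inr ⟨s, hs, rfl⟩
      · rw [notMem_support_iff.1 hs]
        exact zero_mem _
    obtain ⟨F0, hF0'⟩ : ∃ F0 : MvPolynomial (Fin 3) k, map (algebraMap k ℂ) F0 = F := by
      refine ⟨∑ s ∈ F.support, monomial s (⟨coeff s F, hcoef s⟩ : k), ?_⟩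
      rw [map_sum]
      conv_rhs => rw [F.as_sum]
      refine Finset.sum_congr rfl fun s _ => ?_
      rw [map_monomial]
      rfl
    let G : MvPolynomial (Fin 8 × Fin 2) k := aeval ![X (j, 0), X (j, 1), 1] F0
    have hG : ∀ v : Fin 8 × Fin 2 → ℂ, aeval v G = eval ![v (j, 0), v (j, 1), 1] F := by
      intro v
      rw [← hF0', eval_map]
      have h1 : (aeval v).comp (aeval ![X (j, 0), X (j, 1), 1] :
          MvPolynomial (Fin 3) k →ₐ[k] MvPolynomial (Fin 8 × Fin 2) k) =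
          aeval ![v (j, 0), v (j, 1), 1] := by
        apply MvPolynomial.algHom_ext
        intro i
        fin_cases i <;> simp
      exact DFunLike.congr_fun h1 F0
    have hPj : aff (P' j) = ![z (j, 0), z (j, 1), 1] := by
      unfold aff
      simp only [P', dif_neg h]
    have h1 : aeval z G = 0 := by
      rw [hG, ← hPj]
      exact h0
    have h2 : G = 0 := by
      refine hz ?_
      rw [h1, map_zero]
    obtain ⟨p, hp⟩ := TT.exists_pt hF hF0
    apply hp
    have h3 := hG (fun jc => p jc.2)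
    rw [h2, map_zero] at h3
    exact h3.symm

theorem sum_ext {r : ℕ} (hr : r ≤ 8) (f : Fin r → ℤ) :
    ∑ j : Fin 8, (if h : j.1 < r then f ⟨j.1, h⟩ else 0) = ∑ i : Fin r, f i := by
  obtain ⟨g, hg⟩ : ∃ g : ℕ → ℤ, g = fun n => if h : n < r then f ⟨n, h⟩ else 0 := ⟨_, rfl⟩
  have h1 : ∑ j : Fin 8, (if h : j.1 < r then f ⟨j.1, h⟩ else 0) = ∑ n ∈ Finset.range 8, g n := by
    rw [← Fin.sum_univ_eq_sum_range, hg]
  have h2 : ∑ i : Fin r, f i = ∑ n ∈ Finset.range r, g n := by
    rw [← Fin.sum_univ_eq_sum_range, hg]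
    refine Finset.sum_congr rfl fun i _ => ?_
    simp only [dif_pos i.2, Fin.eta]
  rw [h1, h2]
  symm
  refine Finset.sum_subset (by
    intro n hn
    rw [Finset.mem_range] at *
    omega) fun n _ hn => ?_
  rw [Finset.mem_range] at hn
  rw [hg]
  exact dif_neg hn

theorem exists_ord' {v : Fin 3 → ℂ} {F : MvPolynomial (Fin 3) ℂ} (hF0 : F ≠ 0) :
    ∃ m, Ord v m F := by
  have h : od v F ≠ ⊤ := by
    intro h9
    unfold od at h9
    rw [MvPowerSeries.order_eq_top_iff] at h9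
    have h10 : shift (n := 2) v F = 0 := by
      have : ((shift (n := 2) v F : MvPolynomial (Fin 3) ℂ) : MvPowerSeries (Fin 3) ℂ) =
        ((0 : MvPolynomial (Fin 3) ℂ) : MvPowerSeries (Fin 3) ℂ) := by
        rw [h9, MvPolynomial.coe_zero]
      exact MvPolynomial.coe_injective _ _ this
    have h11 := shift_shift (n := 2) v F
    rw [h10, map_zero] at h11
    exact hF0 h11.symm
  obtain ⟨m, hm⟩ := ENat.ne_top_iff_exists.1 h
  exact ⟨m, (ord_iff _ _ _).2 hm.symm⟩

/-- The bound, for at most eight generic points. -/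
theorem few {r : ℕ} (hr : r ≤ 8) {P : Fin r → Fin 2 → ℂ}
    (hP : AlgebraicIndependent ℚ (fun ij : Fin r × Fin 2 => P ij.1 ij.2)) {x : Fin 3 → ℂ}
    (hx0 : x ≠ 0) (hx : ∀ i (c : ℂ), x ≠ c • aff (P i)) {F : MvPolynomial (Fin 3) ℂ} {d : ℕ}
    (hF : F.IsHomogeneous d)
    (hsq : Squarefree F) {m : Fin r → ℕ} (hm : ∀ j, (m j : ℕ∞) ≤ od (aff (P j)) F) {t : ℕ}
    (ht : (t : ℕ∞) ≤ od x F) (h1 : 1 ≤ t) :
    max ((((t + 1).choose 2 : ℕ) : ℤ) - 2) 0 <
      (((d + 2).choose 2 : ℕ) : ℤ) - ∑ i, (((m i + 1).choose 2 : ℕ) : ℤ) := by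
  classical
  have hF0 := hsq.ne_zero
  -- a linear form
  obtain ⟨L, hL0, hLh, hL⟩ : ∃ L : MvPolynomial (Fin 3) ℂ, L ≠ 0 ∧ L.IsHomogeneous 1 ∧
      ∀ (q : Fin 2 → ℂ) (c : ℂ), eval (aff q) L ≠ 0 → x ≠ c • aff q := by
    by_cases hx2 : x 2 = 0
    · refine ⟨X 0, X_ne_zero 0, isHomogeneous_X ℂ 0, fun q c _ h => hx0 ?_⟩
      have h2 := congrFun h 2
      rw [hx2] at h2
      have h3 : c = 0 := by
        have : (c • aff q) 2 = c := by simp [aff]
        rw [← this, ← h2]
      rw [h, h3, zero_smul]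
    · refine ⟨C (x 2) * X 0 - C (x 0) * X 2, ?_, ((isHomogeneous_X ℂ 0).C_mul _).sub
        ((isHomogeneous_X ℂ 2).C_mul _), fun q c hq h => hq ?_⟩
      · intro h
        have h2 := congrArg (coeff (Finsupp.single 0 1)) h
        simp [coeff_X, Finsupp.single_left_inj] at h2
        exact hx2 h2
      · have h2 := congrFun h 2
        have h0 := congrFun h 0
        have e2 : (c • aff q) 2 = c := by simp [aff]
        have e0 : (c • aff q) 0 = c * q 0 := by simp [aff]
        rw [e2] at h2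
        rw [e0] at h0
        simp [aff, h2, h0]
  obtain ⟨P', hP', hPP, hPF⟩ := extend hP (hF.mul hLh) (mul_ne_zero hF0 hL0)
  choose M hM using fun j => exists_ord' (v := aff (P j)) hF0
  obtain ⟨T, hT⟩ := exists_ord' (v := x) hF0
  obtain ⟨M', hM'⟩ : ∃ M' : Fin 8 → ℕ, M' = fun j => if h : j.1 < r then M ⟨j.1, h⟩ else 0 :=
    ⟨_, rfl⟩
  have hMm : ∀ j, m j ≤ M j := by
    intro j
    have h2 := hm j
    rw [(ord_iff _ _ _).1 (hM j)] at h2
    exact_mod_cast h2
  have htT : t ≤ T := by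
    rw [(ord_iff _ _ _).1 hT] at ht
    exact_mod_cast ht
  have hb := eight_proj hP' hx0 (fun j c => by
    by_cases h : j.1 < r
    · rw [hPP j h]
      exact hx _ c
    · refine hL _ c ?_
      have h2 := hPF j h
      rw [map_mul] at h2
      exact right_ne_zero_of_mul h2) hF hsq (M := M') (fun j => by
    rw [hM']
    by_cases h : j.1 < r
    · simp only [dif_pos h]
      rw [hPP j h]
      exact hM _
    · simp only [dif_neg h]
      have h2 := hPF j h
      rw [map_mul] at h2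
      refine ⟨van_zero _ _, fun h3 => left_ne_zero_of_mul h2 ?_⟩
      rw [zero_add, SH.van_one] at h3
      exact h3) hT (h1.trans htT)
  have hs : ∑ i : Fin 8, (((M' i + 1).choose 2 : ℕ) : ℤ) =
      ∑ i, (((M i + 1).choose 2 : ℕ) : ℤ) := by
    rw [← sum_ext hr fun i => (((M i + 1).choose 2 : ℕ) : ℤ)]
    refine Finset.sum_congr rfl fun j _ => ?_
    rw [hM']
    dsimp only
    split_ifs with h
    · rfl
    · rfl
  rw [hs] at hb
  have h2 : ∑ i, (((m i + 1).choose 2 : ℕ) : ℤ) ≤ ∑ i, (((M i + 1).choose 2 : ℕ) : ℤ) :=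
    Finset.sum_le_sum fun i _ => by
      exact_mod_cast Nat.choose_le_choose 2 (Nat.succ_le_succ (hMm i))
  have h3 : (((t + 1).choose 2 : ℕ) : ℤ) ≤ (((T + 1).choose 2 : ℕ) : ℤ) := by
    exact_mod_cast Nat.choose_le_choose 2 (Nat.succ_le_succ htT)
  rw [max_lt_iff] at hb ⊢
  constructor <;> linarith [hb.1, hb.2]

end Pool.Agent.H884.TF
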