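import Pool.Agent.H884.TF.BlowFam
import Pool.Agent.H884.TF.Ext

set_option autoImplicit false
set_option linter.unusedSectionVars false

/-!
# The bound for a point of an exceptional curve
-/

namespace Pool.Agent.H884.TF

open MvPolynomial Pool.Agent.W609 Pool.Agent.W609.CR Pool.Agent.TH167 Pool.Agent.TH167.SH
  Pool.Agent.TH167.DD Pool.Agent.H248R6

variable {K : Type} [Field K] [CharZero K] [IsAlgClosed K]

/-- The factors of a squarefree form. -/
theorem factor' {F : MvPolynomial (Fin 3) K} {d : ℕ} (hF0 : F ≠ 0) (hF : F.IsHomogeneous d)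
    (hsq : Squarefree F) {s : ℕ} {Q : Fin s → Fin 2 → K} {W : Fin s → ℕ}
    (hW : ∀ j, Ord (aff (Q j)) (W j) F) :
    ∃ (n : ℕ) (g : Fin n → MvPolynomial (Fin 3) K) (e : Fin n → ℕ) (w : Fin n → Fin s → ℕ)
      (u : MvPolynomial (Fin 3) K),
      (∀ i, Irreducible (g i)) ∧ (∀ i k, i ≠ k → ¬ g i ∣ g k) ∧ (∀ i, (g i).IsHomogeneous (e i)) ∧
      (∀ i, 1 ≤ e i) ∧ (∀ i j, Ord (aff (Q j)) (w i j) (g i)) ∧ d = ∑ i, e i ∧
      (∀ j, W j = ∑ i, w i j) ∧ IsUnit u ∧ (∏ i, g i) * u = F := by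
  classical
  obtain ⟨f, hf, hfF⟩ := UniqueFactorizationMonoid.exists_prime_factors F hF0
  obtain ⟨l, rfl⟩ : ∃ l : List (MvPolynomial (Fin 3) K), (l : Multiset _) = f := Quot.exists_rep f
  obtain ⟨u, hu⟩ := hfF
  rw [Multiset.prod_coe] at hu
  have hprod : l.prod = ∏ i : Fin l.length, l.get i := by
    conv_lhs => rw [← List.ofFn_get l, List.prod_ofFn]
  have hp : ∀ i : Fin l.length, Prime (l.get i) := fun i =>
    hf _ (Multiset.mem_coe.2 (List.get_mem l i))
  have hdvd : ∀ i : Fin l.length, l.get i ∣ F := fun i => by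
    rw [← hu, hprod]
    exact (Finset.dvd_prod_of_mem _ (Finset.mem_univ i)).mul_right _
  have hdeg := fun i : Fin l.length => deg_of_not_unit hF hF0 (hdvd i) (hp i).not_isUnit
  have hne : ∀ i : Fin l.length, l.get i ≠ 0 := fun i => (hp i).ne_zero
  choose w hw using fun (i : Fin l.length) (j : Fin s) =>
    TT.exists_ord (p := Q j) (hne i) (hdeg i).1
  refine ⟨l.length, fun i => l.get i, fun i => (l.get i).totalDegree, w, u,
    fun i => (hp i).irreducible, ?_, fun i => (hdeg i).1, fun i => (hdeg i).2, hw, ?_, ?_,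
    u.isUnit, ?_⟩
  · intro i k hik hdv
    have h1 : l.get i * l.get i ∣ F := by
      rw [← hu, hprod]
      refine Dvd.dvd.mul_right ?_ _
      rw [← Finset.mul_prod_erase _ _ (Finset.mem_univ i)]
      refine mul_dvd_mul_left _ (hdv.trans ?_)
      exact Finset.dvd_prod_of_mem _ (Finset.mem_erase.2 ⟨hik.symm, Finset.mem_univ k⟩)
    exact (hp i).not_isUnit (hsq _ h1)
  · have h1 : (∏ i : Fin l.length, l.get i).IsHomogeneous
        (∑ i : Fin l.length, (l.get i).totalDegree) :=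
      IsHomogeneous.prod _ _ _ fun i _ => (hdeg i).1
    have h2 : (u : MvPolynomial (Fin 3) K).IsHomogeneous 0 := by
      have h3 := (MvPolynomial.isUnit_iff_totalDegree_of_isReduced.1 u.isUnit).2
      rw [MvPolynomial.totalDegree_eq_zero_iff_eq_C.1 h3]
      exact isHomogeneous_C _ _
    have h3 := h1.mul h2
    rw [← hprod, hu, add_zero] at h3
    exact hF.inj_right h3 hF0
  · intro j
    have h1 : ∀ S : Finset (Fin l.length), Ord (aff (Q j)) (∑ i ∈ S, w i j)
        (∏ i ∈ S, l.get i) := by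
      intro S
      induction S using Finset.induction_on with
      | empty =>
        rw [Finset.sum_empty, Finset.prod_empty]
        exact od_unit isUnit_one
      | insert a S ha ih =>
        rw [Finset.sum_insert ha, Finset.prod_insert ha]
        exact ord_mul (hw a j) ih
    have h2 := ord_mul (h1 Finset.univ) (od_unit u.isUnit)
    rw [← hprod, hu, add_zero] at h2
    exact ord_unique (hW j) h2
  · rw [← hprod]
    exact hu

theorem od_prod {n : ℕ} {v : Fin 3 → K} {p : Fin 2 → K} {g : Fin n → MvPolynomial (Fin 3) K}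
    {u : MvPolynomial (Fin 3) K} (hu : IsUnit u) :
    od v (bl p ((∏ k, g k) * u)) = ∑ k, od v (bl p (g k)) := by
  classical
  have h0 : ∀ f : MvPolynomial (Fin 3) K, IsUnit f → od v f = 0 := by
    intro f hf
    have := (ord_iff _ _ _).1 (od_unit (v := v) hf)
    rw [this]
    rfl
  rw [map_mul, od_mul, h0 _ (hu.map _), add_zero, map_prod]
  have h1 : ∀ S : Finset (Fin n), od v (∏ k ∈ S, bl p (g k)) = ∑ k ∈ S, od v (bl p (g k)) := by
    intro S
    induction S using Finset.induction_on with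
    | empty =>
      rw [Finset.sum_empty, Finset.prod_empty]
      exact h0 _ isUnit_one
    | insert a S ha ih =>
      rw [Finset.sum_insert ha, Finset.prod_insert ha, od_mul, ih]
  exact h1 _

/-- The bound, for a point of an exceptional curve. -/
theorem eight_exc {P : Fin 8 → Fin 2 → K}
    (hP : AlgebraicIndependent ℚ (fun ij : Fin 8 × Fin 2 => P ij.1 ij.2)) (a : Fin 8)
    {v : Fin 2 → K} (hv : v ≠ 0) {F : MvPolynomial (Fin 3) K} {d : ℕ} (hF : F.IsHomogeneous d)
    (hsq : Squarefree F) {M : Fin 8 → ℕ} (hM : ∀ j, Ord (aff (P j)) (M j) F) {m : Fin 8 → ℕ}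
    (hm : ∀ j, m j ≤ M j) (hma : M a ≤ m a + 1) {t : ℕ}
    (ht : ((m a + t : ℕ) : ℕ∞) ≤ od ![0, v 0, v 1] (bl (P a) F)) (h1 : 1 ≤ t) :
    max ((((t + 1).choose 2 : ℕ) : ℤ) - 2) 0 <
      (((d + 2).choose 2 : ℕ) : ℤ) - ∑ i, (((m i + 1).choose 2 : ℕ) : ℤ) := by
  classical
  obtain ⟨i, V1, V2, hi, hi0, hV1, hV2, hV12, hv0, hv1⟩ := exists_idx hP a hv
  obtain ⟨n, g, e, w, u, hg, hgk, hge, he, hw, hd, hWw, hu, hgu⟩ :=
    factor' hsq.ne_zero hF hsq hM
  obtain ⟨ε, hε⟩ : ∃ ε, ε = M a - m a := ⟨_, rfl⟩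
  have hma' := hm a
  have hod : od ![0, v 0, v 1] (bl (P a) F) = ∑ k, od ![0, v 0, v 1] (bl (P a) (g k)) := by
    rw [← hgu, od_prod hu]
  rw [hod] at ht
  obtain ⟨T, htT, hT1, hT2⟩ := blow_fam hP hi hV1 hV2 hV12 hg hgk hge he hw (ε := ε) (by omega)
    (t := t) (by
      rw [hi0, ← hv0, ← hv1]
      have h2 : ((t + ∑ k, w k a : ℕ) : ℕ∞) = ((m a + t : ℕ) : ℕ∞) + (ε : ℕ∞) := by
        rw [← hWw a, ← Nat.cast_add]
        congr 1
        omega
      rw [h2]
      exact add_le_add_left ht _)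
  have hcl : ∑ k, cl (e k) (w k) + ε • (0, fun j => if j = i 0 then -1 else 0) =
      ((d : ℤ), fun j : Fin 8 => ((M j : ℤ) + if j = a then -(ε : ℤ) else 0)) := by
    refine Prod.ext ?_ (funext fun j => ?_)
    · rw [Prod.fst_add, Prod.fst_sum, Prod.smul_fst]
      show ∑ k, ((e k : ℕ) : ℤ) + ε • (0 : ℤ) = (d : ℤ)
      rw [hd]
      push_cast
      simp
    · rw [Prod.snd_add, Prod.snd_sum, Prod.smul_snd, Pi.add_apply, Finset.sum_apply, Pi.smul_apply]
      show ∑ k, ((w k j : ℕ) : ℤ) + ε • (if j = i 0 then (-1 : ℤ) else 0) =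
        (M j : ℤ) + if j = a then -(ε : ℤ) else 0
      rw [hWw j, hi0]
      push_cast
      split_ifs <;> simp
  rw [hcl] at hT1 hT2
  have hle : qq ((d : ℤ), fun j : Fin 8 => ((M j : ℤ) + if j = a then -(ε : ℤ) else 0)) ≤
      (d : ℤ) * d + 3 * d - ∑ j, ((m j : ℤ) * m j + m j) := by
    unfold qq
    have h3 : ∑ j, ((m j : ℤ) * m j + m j) ≤
        ∑ j, (((M j : ℤ) + if j = a then -(ε : ℤ) else 0) *
          ((M j : ℤ) + if j = a then -(ε : ℤ) else 0) +
          ((M j : ℤ) + if j = a then -(ε : ℤ) else 0)) := by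
      refine Finset.sum_le_sum fun j _ => ?_
      have h4 : (m j : ℤ) ≤ (M j : ℤ) + if j = a then -(ε : ℤ) else 0 := by
        split_ifs with h
        · rw [h]
          omega
        · have := hm j
          omega
      have h5 : (0 : ℤ) ≤ m j := by positivity
      generalize ((M j : ℤ) + if j = a then -(ε : ℤ) else 0) = y at *
      generalize (m j : ℤ) = x at *
      nlinarith
    rw [Finset.sum_add_distrib] at h3
    rw [Finset.sum_add_distrib] at h3
    have h6 : ∑ j, ((m j : ℤ) * m j + m j) = ∑ j, (m j : ℤ) * m j + ∑ j, (m j : ℤ) :=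
      Finset.sum_add_distrib
    rw [h6]
    linarith
  have c1 : 2 * (((d + 2).choose 2 : ℕ) : ℤ) = (d : ℤ) * d + 3 * d + 2 := by
    have := two_choose_cast (d + 1)
    rw [show d + 1 + 1 = d + 2 from rfl] at this
    rw [this]
    push_cast
    ring
  have c2 : 2 * ∑ i, (((m i + 1).choose 2 : ℕ) : ℤ) = ∑ j, ((m j : ℤ) * m j + m j) := by
    rw [Finset.mul_sum]
    exact Finset.sum_congr rfl fun i _ => two_choose_cast _
  have c3 := two_choose_cast t
  have htT' : (t : ℤ) ≤ T := by exact_mod_cast htT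
  have ht1 : (1 : ℤ) ≤ t := by exact_mod_cast h1
  have c4 : (t : ℤ) * t + t ≤ (T : ℤ) * T + T := by nlinarith
  rw [max_lt_iff]
  constructor
  · linarith
  · rcases Nat.lt_or_ge 1 T with h | h
    · have h2 : (2 : ℤ) ≤ T := by exact_mod_cast h
      nlinarith
    · have hT1' : T = 1 := by omega
      have h4 := hT2 h
      rw [hT1'] at h4
      push_cast at h4
      linarith

end Pool.Agent.H884.TF
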