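import Pool.Agent.H884.TF.BlowFam10

set_option autoImplicit false
set_option linter.unusedSectionVars false

/-!
# Nine generic points: the bound for a point of an exceptional curve which is on the cubic
-/

namespace Pool.Agent.H884.TF

open MvPolynomial Pool.Agent.W609 Pool.Agent.W609.CR Pool.Agent.TH167 Pool.Agent.TH167.SH
  Pool.Agent.TH167.DD Pool.Agent.H248R6

variable {K : Type} [Field K] [CharZero K] [IsAlgClosed K]

/-- The base points. -/
theorem exists_idx9 {P : Fin 9 → Fin 2 → K}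
    (hP : AlgebraicIndependent ℚ (fun ij : Fin 9 × Fin 2 => P ij.1 ij.2)) (a : Fin 9)
    {v : Fin 2 → K} (hv : v ≠ 0) :
    ∃ (i : Fin 3 → Fin 9) (V1 V2 : K), Function.Injective i ∧ i 0 = a ∧ V1 ≠ 0 ∧ V2 ≠ 0 ∧
      V1 + V2 ≠ 0 ∧ v 0 = V1 * (P (i 1) 0 - P a 0) + V2 * (P (i 2) 0 - P a 0) ∧
      v 1 = V1 * (P (i 1) 1 - P a 1) + V2 * (P (i 2) 1 - P a 1) := by
  classical
  have hv' : v 0 ≠ 0 ∨ v 1 ≠ 0 := by
    by_contra hcon
    push Not at hcon
    apply hv
    funext k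
    fin_cases k
    · exact hcon.1
    · exact hcon.2
  obtain ⟨f, hf⟩ : ∃ f : Fin 9 → K, f = fun b => v 0 * (P b 1 - P a 1) - v 1 * (P b 0 - P a 0) :=
    ⟨_, rfl⟩
  have hfb : ∀ b, f b = v 0 * (P b 1 - P a 1) - v 1 * (P b 0 - P a 0) := fun b => by rw [hf]
  have aux : ∀ b c, b ≠ a → c ≠ a → b ≠ c → f b ≠ 0 → f c ≠ 0 → f b ≠ f c →
      ∃ (i : Fin 3 → Fin 9) (V1 V2 : K), Function.Injective i ∧ i 0 = a ∧ V1 ≠ 0 ∧ V2 ≠ 0 ∧
      V1 + V2 ≠ 0 ∧ v 0 = V1 * (P (i 1) 0 - P a 0) + V2 * (P (i 2) 0 - P a 0) ∧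
      v 1 = V1 * (P (i 1) 1 - P a 1) + V2 * (P (i 2) 1 - P a 1) := by
    intro b c hb hc hbc fb fc fbc
    have hD := cr_ne hP hb.symm hc.symm hbc
    obtain ⟨D, hDd⟩ : ∃ D, D = (P b 0 - P a 0) * (P c 1 - P a 1) -
      (P c 0 - P a 0) * (P b 1 - P a 1) := ⟨_, rfl⟩
    rw [← hDd] at hD
    refine ⟨![a, b, c], f c / D, -f b / D, inj3 hb.symm hc.symm hbc, rfl, div_ne_zero fc hD,
      div_ne_zero (neg_ne_zero.2 fb) hD, ?_, ?_, ?_⟩
    · rw [← add_div]
      refine div_ne_zero ?_ hD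
      intro h
      apply fbc
      linear_combination -h
    · show v 0 = f c / D * (P b 0 - P a 0) + -f b / D * (P c 0 - P a 0)
      field_simp
      rw [hfb, hfb, hDd]
      ring
    · show v 1 = f c / D * (P b 1 - P a 1) + -f b / D * (P c 1 - P a 1)
      field_simp
      rw [hfb, hfb, hDd]
      ring
  have hZ : (Finset.univ.filter fun b : Fin 9 => b ≠ a ∧ f b = 0).card ≤ 1 := by
    rw [Finset.card_le_one]
    intro b hb c hc
    rw [Finset.mem_filter] at hb hc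
    by_contra hbc
    have h1 := cross_zero hv' (by rw [← hfb]; exact hb.2.2) (by rw [← hfb]; exact hc.2.2)
    exact cr_ne hP hb.2.1.symm hc.2.1.symm hbc h1
  have hB : 2 < (Finset.univ.filter fun b : Fin 9 => b ≠ a ∧ f b ≠ 0).card := by
    have h1 : (Finset.univ.erase a : Finset (Fin 9)).card = 8 := by
      rw [Finset.card_erase_of_mem (Finset.mem_univ a)]
      simp
    have h2 : (Finset.univ.erase a : Finset (Fin 9)) =
        (Finset.univ.filter fun b : Fin 9 => b ≠ a ∧ f b ≠ 0) ∪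
          (Finset.univ.filter fun b : Fin 9 => b ≠ a ∧ f b = 0) := by
      ext b
      simp only [Finset.mem_erase, Finset.mem_univ, and_true, Finset.mem_union,
        Finset.mem_filter, true_and]
      tauto
    have h3 := Finset.card_union_le (Finset.univ.filter fun b : Fin 9 => b ≠ a ∧ f b ≠ 0)
      (Finset.univ.filter fun b : Fin 9 => b ≠ a ∧ f b = 0)
    rw [← h2, h1] at h3
    omega
  obtain ⟨b, hb, c, hc, d, hd, hbc, hbd, hcd⟩ := Finset.two_lt_card.1 hB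
  rw [Finset.mem_filter] at hb hc hd
  by_cases h1 : f b = f c
  · by_cases h2 : f b = f d
    · exfalso
      refine cr_ne hP hbc hbd hcd ?_
      refine cross_zero hv' ?_ ?_
      · rw [hfb, hfb] at h1
        linear_combination -h1
      · rw [hfb, hfb] at h2
        linear_combination -h2
    · exact aux b d hb.2.1 hd.2.1 hbd hb.2.2 hd.2.2 h2
  · exact aux b c hb.2.1 hc.2.1 hbc hb.2.2 hc.2.2 h1

/-- The bound, for a point of an exceptional curve. -/
theorem nine_exc {P : Fin 9 → Fin 2 → K}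
    (hP : AlgebraicIndependent ℚ (fun ij : Fin 9 × Fin 2 => P ij.1 ij.2)) (a : Fin 9)
    {v : Fin 2 → K} (hv : v ≠ 0) {B : MvPolynomial (Fin 3) K} (hB0 : B ≠ 0)
    (hB : B.IsHomogeneous 3) (hBv : ∀ j, Van (aff (P j)) 1 B)
    (hBx : Van ![0, v 0, v 1] 2 (bl (P a) B)) {F : MvPolynomial (Fin 3) K} {d : ℕ} (hF : F.IsHomogeneous d)
    (hsq : Squarefree F) {M : Fin 9 → ℕ} (hM : ∀ j, Ord (aff (P j)) (M j) F) {m : Fin 9 → ℕ}
    (hm : ∀ j, m j ≤ M j) (hma : M a ≤ m a + 1) {t : ℕ}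
    (ht : ((m a + t : ℕ) : ℕ∞) ≤ od ![0, v 0, v 1] (bl (P a) F)) (h1 : 1 ≤ t) :
    max ((((t + 1).choose 2 : ℕ) : ℤ) - 2) 0 <
      (((d + 2).choose 2 : ℕ) : ℤ) - ∑ i, (((m i + 1).choose 2 : ℕ) : ℤ) := by
  classical
  obtain ⟨i, V1, V2, hi, hi0, hV1, hV2, hV12, hv0, hv1⟩ := exists_idx9 hP a hv
  have hBx' : Van ![0, V1 * (P (i 1) 0 - P (i 0) 0) + V2 * (P (i 2) 0 - P (i 0) 0),
      V1 * (P (i 1) 1 - P (i 0) 1) + V2 * (P (i 2) 1 - P (i 0) 1)] 2 (bl (P (i 0)) B) := by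
    rw [hi0, ← hv0, ← hv1]
    exact hBx
  obtain ⟨n, g, e, w, u, hg, hgk, hge, he, hw, hd, hWw, hu, hgu⟩ :=
    factor' hsq.ne_zero hF hsq hM
  obtain ⟨ε, hε⟩ : ∃ ε, ε = M a - m a := ⟨_, rfl⟩
  have hma' := hm a
  have hod : od ![0, v 0, v 1] (bl (P a) F) = ∑ k, od ![0, v 0, v 1] (bl (P a) (g k)) := by
    rw [← hgu, od_prod hu]
  rw [hod] at ht
  obtain ⟨T, htT, hT1, hT2⟩ := blow_fam9 hP hi hV1 hV2 hV12 hB0 hB hBv hBx' hg hgk hge he hw (ε := ε) (by omega)
    (t := t) (by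
      rw [hi0, ← hv0, ← hv1]
      have h2 : ((t + ∑ k, w k a : ℕ) : ℕ∞) = ((m a + t : ℕ) : ℕ∞) + (ε : ℕ∞) := by
        rw [← hWw a, ← Nat.cast_add]
        congr 1
        omega
      rw [h2]
      exact add_le_add_left ht _)
  have hcl : ∑ k, cl9 (e k) (w k) + ε • (0, fun j => if j = i 0 then -1 else 0) =
      ((d : ℤ), fun j : Fin 9 => ((M j : ℤ) + if j = a then -(ε : ℤ) else 0)) := by
    refine Prod.ext ?_ (funext fun j => ?_)
    · rw [Prod.fst_add, Prod.fst_sum, Prod.smul_fst]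
      show ∑ k, ((e k : ℕ) : ℤ) + ε • (0 : ℤ) = (d : ℤ)
      rw [hd]
      push_cast
      simp
    · rw [Prod.snd_add, Prod.snd_sum, Prod.smul_snd, Pi.add_apply, Finset.sum_apply, Pi.smul_apply]
      show ∑ k, ((w k j : ℕ) : ℤ) + ε • (if j = i 0 then (-1 : ℤ) else 0) =
        (M j : ℤ) + if j = a then -(ε : ℤ) else 0
      rw [hWw j, hi0]
      push_cast
      split_ifs <;> simp
  rw [hcl] at hT1 hT2
  have hle : qq ((d : ℤ), fun j : Fin 9 => ((M j : ℤ) + if j = a then -(ε : ℤ) else 0)) ≤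
      (d : ℤ) * d + 3 * d - ∑ j, ((m j : ℤ) * m j + m j) := by
    unfold qq
    have h3 : ∑ j, ((m j : ℤ) * m j + m j) ≤
        ∑ j, (((M j : ℤ) + if j = a then -(ε : ℤ) else 0) *
          ((M j : ℤ) + if j = a then -(ε : ℤ) else 0) +
          ((M j : ℤ) + if j = a then -(ε : ℤ) else 0)) := by
      refine Finset.sum_le_sum fun j _ => ?_
      have h4 : (m j : ℤ) ≤ (M j : ℤ) + if j = a then -(ε : ℤ) else 0 := by
        split_ifs with h
        · rw [h]
          omega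
        · have := hm j
          omega
      have h5 : (0 : ℤ) ≤ m j := by positivity
      generalize ((M j : ℤ) + if j = a then -(ε : ℤ) else 0) = y at *
      generalize (m j : ℤ) = x at *
      nlinarith
    rw [Finset.sum_add_distrib] at h3
    rw [Finset.sum_add_distrib] at h3
    have h6 : ∑ j, ((m j : ℤ) * m j + m j) = ∑ j, (m j : ℤ) * m j + ∑ j, (m j : ℤ) :=
      Finset.sum_add_distrib
    rw [h6]
    linarith
  have c1 : 2 * (((d + 2).choose 2 : ℕ) : ℤ) = (d : ℤ) * d + 3 * d + 2 := by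
    have := two_choose_cast (d + 1)
    rw [show d + 1 + 1 = d + 2 from rfl] at this
    rw [this]
    push_cast
    ring
  have c2 : 2 * ∑ i, (((m i + 1).choose 2 : ℕ) : ℤ) = ∑ j, ((m j : ℤ) * m j + m j) := by
    rw [Finset.mul_sum]
    exact Finset.sum_congr rfl fun i _ => two_choose_cast _
  have c3 := two_choose_cast t
  have htT' : (t : ℤ) ≤ T := by exact_mod_cast htT
  have ht1 : (1 : ℤ) ≤ t := by exact_mod_cast h1
  have c4 : (t : ℤ) * t + t ≤ (T : ℤ) * T + T := by nlinarith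
  rw [max_lt_iff]
  constructor
  · linarith
  · rcases Nat.lt_or_ge 1 T with h | h
    · have h2 : (2 : ℤ) ≤ T := by exact_mod_cast h
      nlinarith
    · have hT1' : T = 1 := by omega
      have h4 := hT2 h
      rw [hT1'] at h4
      push_cast at h4
      linarith

end Pool.Agent.H884.TF
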