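import Pool.Agent.H884.TF.Nine
import Pool.Agent.H884.TF.Exc

set_option autoImplicit false
set_option linter.unusedSectionVars false

/-!
# Nine generic points: irreducible curves through them, and families of components
-/

namespace Pool.Agent.H884.TF

open MvPolynomial Pool.Agent.W609 Pool.Agent.W609.CR Pool.Agent.TH167 Pool.Agent.TH167.SH
  Pool.Agent.TH167.DD Pool.Agent.H248R6

variable {K : Type} [Field K] [CharZero K] [IsAlgClosed K]

/-- The cubic curve through nine generic points is irreducible, smooth and can be normalized. -/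
theorem norm_B {P : Fin 9 → Fin 2 → K}
    (hP : AlgebraicIndependent ℚ (fun ij : Fin 9 × Fin 2 => P ij.1 ij.2))
    {B : MvPolynomial (Fin 3) K} (hB0 : B ≠ 0) (hB : B.IsHomogeneous 3)
    (hBv : ∀ j, Van (aff (P j)) 1 B) :
    ∃ (A : MvPolynomial (Fin 3) K) (μ : Fin 3 →₀ ℕ) (c : K), c ≠ 0 ∧ A = C c * B ∧
      Irreducible A ∧ A.IsHomogeneous 3 ∧ coeff μ A = 1 ∧ (∀ j, Ord (aff (P j)) 1 A) ∧
      ∀ x : Fin 2 → K, Van (aff x) 1 B → Ord (aff x) 1 A := by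
  classical
  obtain ⟨c, μ, hc, hμ, hcA⟩ := TT.exists_norm (w := fun _ => 1) ((mem_VS _ _ _ _).2
    ⟨hB, hBv⟩) hB0
  obtain ⟨A, hA⟩ : ∃ A, A = C c * B := ⟨_, rfl⟩
  rw [← hA] at hμ hcA
  obtain ⟨hA3, hAv⟩ := (mem_VS _ _ _ _).1 hcA
  have hA0 : A ≠ 0 := by
    rintro h
    rw [h, coeff_zero] at hμ
    exact zero_ne_one hμ
  obtain ⟨hirr, hord⟩ := cubic_irr9 hP hA0 hA3 hAv
  refine ⟨A, μ, c, hc, hA, hirr, hA3, hμ, hord, fun x hx => ⟨?_, fun h => ?_⟩⟩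
  · rw [SH.van_one] at hx ⊢
    rw [hA, map_mul, hx, mul_zero]
  · exact no_sing hP hirr hA3 hμ hord h

/-- Irreducible curves through nine generic points which are different from the cubic curve meet it
in a further point. -/
theorem kk_irr9 {P : Fin 9 → Fin 2 → K}
    (hP : AlgebraicIndependent ℚ (fun ij : Fin 9 × Fin 2 => P ij.1 ij.2))
    {A : MvPolynomial (Fin 3) K} {μ : Fin 3 →₀ ℕ} (hA : Irreducible A) (hA3 : A.IsHomogeneous 3)
    (hμ : coeff μ A = 1) (hord : ∀ j, Ord (aff (P j)) 1 A)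
    {g : MvPolynomial (Fin 3) K} {e : ℕ} {w : Fin 9 → ℕ}
    (hg0 : g ≠ 0) (hge : g.IsHomogeneous e) (he : 1 ≤ e) (hrel : IsRelPrime A g)
    (hw : ∀ j, Van (aff (P j)) (w j) g) : ∑ j, w j ≠ 3 * e := by
  classical
  intro hsum
  obtain ⟨u, O, hu, hO, hx, -⟩ := exists_O hA hA3 (inj_of_alg hP) hord
  obtain ⟨Q, hQ⟩ : ∃ Q : Fin 10 → Fin 2 → K, Q = Fin.cons O P := ⟨_, rfl⟩
  have hQP : ∀ i : Fin 9, Q i.succ = P i := fun i => by rw [hQ]; rfl
  have hQ0 : Q 0 = O := by rw [hQ]; rfl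
  have hQinj : Function.Injective Q := by
    rw [hQ, Fin.cons_injective_iff]
    refine ⟨?_, inj_of_alg hP⟩
    rintro ⟨j, hj⟩
    exact hx j (congrFun hj 0)
  have hQo : ∀ j, Ord (aff (Q j)) 1 A := fun j => by
    refine Fin.cases ?_ (fun i => ?_) j
    · rw [hQ0]
      exact ⟨(SH.van_one _ _).2 hO, fun h => no_sing hP hA hA3 hμ hord h⟩
    · rw [hQP]
      exact hord i
  obtain ⟨V, hV, hVr⟩ := velocities hP hA hA3 hμ hQinj hQP hQo
  have h1 := hVr g e (Fin.cons 0 w) he hge hg0 hrel (fun j => by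
    refine Fin.cases ?_ (fun i => ?_) j
    · exact van_zero _ _
    · rw [hQP]
      exact hw i) (by
    rw [Fin.sum_univ_succ]
    simp only [Fin.cons_zero, Fin.cons_succ, zero_add]
    exact hsum)
  have h2 := rel_zero hV (c := fun j => (((Fin.cons 0 w : Fin 10 → ℕ) j : ℕ) : K)) h1 (by
    simp only [Fin.cons_zero]
    exact Nat.cast_zero)
  have h3 : ∀ i, w i = 0 := fun i => by
    have h4 : ((w i : ℕ) : K) = 0 := congrFun h2 i.succ
    exact_mod_cast h4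
  rw [Finset.sum_eq_zero fun i _ => h3 i] at hsum
  omega

/-- The class of an irreducible curve. -/
theorem qq_irr9 {P : Fin 9 → Fin 2 → K}
    (hP : AlgebraicIndependent ℚ (fun ij : Fin 9 × Fin 2 => P ij.1 ij.2))
    {g : MvPolynomial (Fin 3) K} {e : ℕ} {w : Fin 9 → ℕ}
    (hg : Irreducible g) (hge : g.IsHomogeneous e) (he : 1 ≤ e)
    (hw : ∀ j, Ord (aff (P j)) (w j) g) :
    0 ≤ qq ((e : ℤ), fun j : Fin 9 => (w j : ℤ)) := by
  classical
  obtain ⟨B, hB0, hB, hBv⟩ := exists_cubic P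
  obtain ⟨A, μ, c, -, -, hA, hA3, hμ, hord, -⟩ := norm_B hP hB0 hB hBv
  by_cases hdv : g ∣ A
  · obtain ⟨h1, h2⟩ := same hg hA hdv hge hA3
    have h3 : ∀ j, w j = 1 := fun j => h2 _ _ _ (hw j) (hord j)
    unfold qq
    simp only [h3, h1]
    norm_num
  have h1 := bez (inj_of_alg hP) hg hge (fun j => (hw j).1) hA.ne_zero hA3 (fun j => (hord j).1) hdv
  simp only [mul_one] at h1
  have hAg : ¬ A ∣ g := by
    rintro ⟨u, hu⟩
    have hu' : IsUnit u := by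
      rcases hg.isUnit_or_isUnit hu with h | h
      · exact absurd h hA.not_isUnit
      · exact h
    obtain ⟨v, hv⟩ := hu'.exists_right_inv
    exact hdv ⟨v, by rw [hu, mul_assoc, hv, mul_one]⟩
  have h0 := kk_irr9 hP hA hA3 hμ hord hg.ne_zero hge he
    ((Irreducible.isRelPrime_iff_not_dvd hA).2 hAg) (fun j => (hw j).1)
  have h2 := genus (inj_of_alg hP) hg hge he hw
  have h1' : ((∑ j, w j : ℕ) : ℤ) + 1 ≤ 3 * e := by
    have : ∑ j, w j + 1 ≤ 3 * e := by omega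
    exact_mod_cast this
  have h2' : ((∑ j, w j * w j : ℕ) : ℤ) + 3 * e ≤ e * e + 2 + ((∑ j, w j : ℕ) : ℤ) := by
    exact_mod_cast h2
  unfold qq
  have c1 : ((∑ j, w j * w j : ℕ) : ℤ) = ∑ j, (w j : ℤ) * w j := by push_cast; rfl
  have c2 : ((∑ j, w j : ℕ) : ℤ) = ∑ j, (w j : ℤ) := by push_cast; rfl
  rw [← c1, ← c2]
  linarith

theorem bq_irr9 {P : Fin 9 → Fin 2 → K}
    (hP : AlgebraicIndependent ℚ (fun ij : Fin 9 × Fin 2 => P ij.1 ij.2))
    {g h : MvPolynomial (Fin 3) K} {e f : ℕ} {w u : Fin 9 → ℕ}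
    (hg : Irreducible g) (hge : g.IsHomogeneous e) (hw : ∀ j, Ord (aff (P j)) (w j) g)
    (hh : Irreducible h) (hhf : h.IsHomogeneous f) (hu : ∀ j, Ord (aff (P j)) (u j) h)
    (hnd : ¬ g ∣ h) :
    0 ≤ bq ((e : ℤ), fun j : Fin 9 => (w j : ℤ)) ((f : ℤ), fun j : Fin 9 => (u j : ℤ)) := by
  have h1 := bez (inj_of_alg hP) hg hge (fun j => (hw j).1) hh.ne_zero hhf (fun j => (hu j).1) hnd
  unfold bq
  have h2 : ((∑ j, w j * u j : ℕ) : ℤ) ≤ ((e * f : ℕ) : ℤ) := by exact_mod_cast h1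
  push_cast at h2
  linarith

theorem cc_qq9 (d : ℕ) (w : Fin 10 → ℕ) :
    cc d w = qq ((d : ℤ), fun j : Fin 9 => (w j.succ : ℤ)) - ((w 0 : ℤ) * w 0 + w 0) := by
  unfold cc qq
  rw [Fin.sum_univ_succ (fun j => (w j : ℤ) * w j), Fin.sum_univ_succ (fun j => (w j : ℤ))]
  ring

theorem ten_fin {P : Fin 9 → Fin 2 → K}
    (hP : AlgebraicIndependent ℚ (fun ij : Fin 9 × Fin 2 => P ij.1 ij.2)) {Q : Fin 10 → Fin 2 → K}
    (hQP : ∀ i : Fin 9, Q i.succ = P i) (hQ : Function.Injective Q)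
    {B : MvPolynomial (Fin 3) K} (hB0 : B ≠ 0) (hB : B.IsHomogeneous 3)
    (hBv : ∀ j, Van (aff (Q j)) 1 B) {ι : Type} [Fintype ι]
    {g : ι → MvPolynomial (Fin 3) K} {e : ι → ℕ} {w : ι → Fin 10 → ℕ}
    (hg : ∀ i, Irreducible (g i)) (hgk : ∀ i k, i ≠ k → ¬ g i ∣ g k)
    (hge : ∀ i, (g i).IsHomogeneous (e i)) (he : ∀ i, 1 ≤ e i)
    (hw : ∀ i j, Ord (aff (Q j)) (w i j) (g i)) :
    -4 ≤ cc (∑ i, e i) (fun j => ∑ i, w i j) ∧
      (∑ i, w i 0 ≤ 1 → -2 ≤ cc (∑ i, e i) (fun j => ∑ i, w i j)) := by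
  obtain ⟨A, μ, c, -, -, hA, hA3, hμ, -, hx⟩ := norm_B hP hB0 hB (fun j => by
    have := hBv j.succ
    rwa [hQP] at this)
  obtain ⟨f, -⟩ : ∃ f : ι ≃ Fin (Fintype.card ι), True := ⟨Fintype.equivFin ι, trivial⟩
  exact ten_fam hP hQP hQ hA hA3 hμ (fun j => hx _ (hBv j)) (g := fun x => g (f.symm x))
    (e := fun x => e (f.symm x))
    (w := fun x => w (f.symm x)) (fun x => hg _)
    (fun x y hxy => hgk _ _ fun h => hxy (f.symm.injective h)) (fun x => hge _) (fun x => he _)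
    (fun x j => hw _ j) (d := ∑ i, e i) (Equiv.sum_comp f.symm e).symm
    (W := fun j => ∑ i, w i j) (fun j => (Equiv.sum_comp f.symm fun i => w i j).symm)

end Pool.Agent.H884.TF
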