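import Pool.Agent.H884.TF.Bad
import Pool.Agent.H884.TF.Cls

set_option autoImplicit false
set_option linter.unusedSectionVars false

/-!
# Families of components and a point of an exceptional curve
-/

namespace Pool.Agent.H884.TF

open MvPolynomial Pool.Agent.W609 Pool.Agent.W609.CR Pool.Agent.TH167 Pool.Agent.TH167.SH
  Pool.Agent.TH167.DD Pool.Agent.H248R6

variable {K : Type} [Field K] [CharZero K] [IsAlgClosed K]

theorem nine_fin {P : Fin 8 → Fin 2 → K}
    (hP : AlgebraicIndependent ℚ (fun ij : Fin 8 × Fin 2 => P ij.1 ij.2)) {Q : Fin 9 → Fin 2 → K}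
    (hQP : ∀ i : Fin 8, Q i.succ = P i) (hQ : Function.Injective Q) {ι : Type} [Fintype ι]
    {g : ι → MvPolynomial (Fin 3) K} {e : ι → ℕ} {w : ι → Fin 9 → ℕ}
    (hg : ∀ i, Irreducible (g i)) (hgk : ∀ i k, i ≠ k → ¬ g i ∣ g k)
    (hge : ∀ i, (g i).IsHomogeneous (e i)) (he : ∀ i, 1 ≤ e i)
    (hw : ∀ i j, Ord (aff (Q j)) (w i j) (g i)) :
    -4 ≤ cc (∑ i, e i) (fun j => ∑ i, w i j) ∧
      (∑ i, w i 0 ≤ 1 → -2 ≤ cc (∑ i, e i) (fun j => ∑ i, w i j)) := by
  obtain ⟨f, -⟩ : ∃ f : ι ≃ Fin (Fintype.card ι), True := ⟨Fintype.equivFin ι, trivial⟩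
  exact nine_fam hP hQP hQ (g := fun x => g (f.symm x)) (e := fun x => e (f.symm x))
    (w := fun x => w (f.symm x)) (fun x => hg _)
    (fun x y hxy => hgk _ _ fun h => hxy (f.symm.injective h)) (fun x => hge _) (fun x => he _)
    (fun x j => hw _ j) (d := ∑ i, e i) (Equiv.sum_comp f.symm e).symm
    (W := fun j => ∑ i, w i j) (fun j => (Equiv.sum_comp f.symm fun i => w i j).symm)

theorem cc_qq (d : ℕ) (w : Fin 9 → ℕ) :
    cc d w = qq ((d : ℤ), fun j : Fin 8 => (w j.succ : ℤ)) - ((w 0 : ℤ) * w 0 + w 0) := by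
  unfold cc qq
  rw [Fin.sum_univ_succ (fun j => (w j : ℤ) * w j), Fin.sum_univ_succ (fun j => (w j : ℤ))]
  ring

/-- The class of an irreducible curve. -/
theorem qq_irr {P : Fin 8 → Fin 2 → K}
    (hP : AlgebraicIndependent ℚ (fun ij : Fin 8 × Fin 2 => P ij.1 ij.2))
    {g : MvPolynomial (Fin 3) K} {e : ℕ} {w : Fin 8 → ℕ}
    (hg : Irreducible g) (hge : g.IsHomogeneous e) (he : 1 ≤ e)
    (hw : ∀ j, Ord (aff (P j)) (w j) g) :
    0 ≤ qq ((e : ℤ), fun j : Fin 8 => (w j : ℤ)) := by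
  have h1 := kk_irr hP hg hge he hw
  have h2 := genus (inj_of_alg hP) hg hge he hw
  have h1' : ((∑ j, w j : ℕ) : ℤ) + 1 ≤ 3 * e := by exact_mod_cast h1
  have h2' : ((∑ j, w j * w j : ℕ) : ℤ) + 3 * e ≤ e * e + 2 + ((∑ j, w j : ℕ) : ℤ) := by
    exact_mod_cast h2
  unfold qq
  have c1 : ((∑ j, w j * w j : ℕ) : ℤ) = ∑ j, (w j : ℤ) * w j := by push_cast; rfl
  have c2 : ((∑ j, w j : ℕ) : ℤ) = ∑ j, (w j : ℤ) := by push_cast; rfl
  rw [← c1, ← c2]
  linarith

theorem bq_irr {P : Fin 8 → Fin 2 → K}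
    (hP : AlgebraicIndependent ℚ (fun ij : Fin 8 × Fin 2 => P ij.1 ij.2))
    {g h : MvPolynomial (Fin 3) K} {e f : ℕ} {w u : Fin 8 → ℕ}
    (hg : Irreducible g) (hge : g.IsHomogeneous e) (hw : ∀ j, Ord (aff (P j)) (w j) g)
    (hh : Irreducible h) (hhf : h.IsHomogeneous f) (hu : ∀ j, Ord (aff (P j)) (u j) h)
    (hnd : ¬ g ∣ h) :
    0 ≤ bq ((e : ℤ), fun j : Fin 8 => (w j : ℤ)) ((f : ℤ), fun j : Fin 8 => (u j : ℤ)) := by
  have h1 := bez (inj_of_alg hP) hg hge (fun j => (hw j).1) hh.ne_zero hhf (fun j => (hu j).1) hnd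
  unfold bq
  have h2 : ((∑ j, w j * u j : ℕ) : ℤ) ≤ ((e * f : ℕ) : ℤ) := by exact_mod_cast h1
  push_cast at h2
  linarith

/-- The components which are sides of the triangle. -/
theorem bad_comp {s : ℕ} {P : Fin s → Fin 2 → K}
    (hP : AlgebraicIndependent ℚ (fun ij : Fin s × Fin 2 => P ij.1 ij.2)) {i : Fin 3 → Fin s}
    (hi : Function.Injective i) {g : MvPolynomial (Fin 3) K} {e : ℕ} {w : Fin s → ℕ}
    (hg : Irreducible g) (hge : g.IsHomogeneous e) (hw : ∀ j, Ord (aff (P j)) (w j) g)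
    (hbad : ¬ (w (i 0) + w (i 1) ≤ e ∧ w (i 0) + w (i 2) ≤ e ∧ w (i 1) + w (i 2) ≤ e)) :
    e = 1 ∧ w (i 0) + w (i 1) + w (i 2) = 2 := by
  classical
  have key : ∀ a b : Fin 3, a ≠ b → ¬ (w (i a) + w (i b) ≤ e) → e = 1 := by
    intro a b hab h
    have hne : P (i a) ≠ P (i b) := fun h' => hab (hi (inj_of_alg hP h'))
    have hiab : i a ≠ i b := fun h' => hab (hi h')
    by_cases hdv : g ∣ ln (P (i a)) (P (i b))
    · exact (same hg (ln_irr hne) hdv hge (ln_hom _ _)).1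
    · exfalso
      apply h
      have h1 := bez (inj_of_alg hP) hg hge (fun j => (hw j).1) (ln_ne hne) (ln_hom _ _)
        (w := fun j => (if j = i a then 1 else 0) + (if j = i b then 1 else 0)) (fun j => by
          by_cases h1 : j = i a
          · subst h1
            simp only [if_true, hiab, if_false, add_zero]
            exact ln_left _ _
          · by_cases h2 : j = i b
            · subst h2
              simp only [if_true, h1, if_false, zero_add]
              exact ln_right _ _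
            · simp only [h1, h2, if_false, add_zero]
              exact van_zero _ _) hdv
      rw [mul_one] at h1
      refine le_trans (le_of_eq ?_) h1
      simp only [mul_add, mul_ite, mul_one, mul_zero, Finset.sum_add_distrib,
        Finset.sum_ite_eq', Finset.mem_univ, if_true]
  have he1 : e = 1 := by
    by_contra hcon
    apply hbad
    refine ⟨?_, ?_, ?_⟩
    · by_contra h
      exact hcon (key 0 1 (by decide) h)
    · by_contra h
      exact hcon (key 0 2 (by decide) h)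
    · by_contra h
      exact hcon (key 1 2 (by decide) h)
  subst he1
  have hle : ∀ k, w (i k) ≤ 1 := fun k => van_le hg.ne_zero hge (hw _).1
  have hl0 := hle 0
  have hl1 := hle 1
  have hl2 := hle 2
  have hnot : ¬ (1 ≤ w (i 0) ∧ 1 ≤ w (i 1) ∧ 1 ≤ w (i 2)) := by
    rintro ⟨h0, h1, h2⟩
    refine line_two hP hg.ne_zero hge i hi fun k => ?_
    fin_cases k
    · exact SH.van_mono h0 (hw _).1
    · exact SH.van_mono h1 (hw _).1
    · exact SH.van_mono h2 (hw _).1
  refine ⟨rfl, ?_⟩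
  omega

theorem od_le_of {v : Fin 3 → K} {f : MvPolynomial (Fin 3) K} {n : ℕ}
    (h : ∀ W, Van v W f → W ≤ n) : od v f ≤ (n : ℕ∞) := by
  by_contra hcon
  push Not at hcon
  have h1 := Order.add_one_le_of_lt hcon
  have h2 : ((n + 1 : ℕ) : ℕ∞) ≤ od v f := by
    rw [Nat.cast_add, Nat.cast_one]
    exact h1
  have h3 := h (n + 1) ((van_iff _ _ _).2 h2)
  omega

end Pool.Agent.H884.TF
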