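import Pool.Agent.H884.TF.Exc

set_option autoImplicit false
set_option linter.unusedSectionVars false

/-!
# At most eight very general points and a point of an exceptional curve
-/

namespace Pool.Agent.H884.TF

open MvPolynomial Pool.Agent.W609 Pool.Agent.W609.CR Pool.Agent.TH167 Pool.Agent.TH167.SH
  Pool.Agent.TH167.DD Pool.Agent.H248R6

/-- The bound for a point of an exceptional curve, for at most eight generic points. -/
theorem few_exc {r : ℕ} (hr : r ≤ 8) {P : Fin r → Fin 2 → ℂ}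
    (hP : AlgebraicIndependent ℚ (fun ij : Fin r × Fin 2 => P ij.1 ij.2)) (a : Fin r)
    {v : Fin 2 → ℂ} (hv : v ≠ 0) {F : MvPolynomial (Fin 3) ℂ} {d : ℕ}
    (hF : F.IsHomogeneous d) (hsq : Squarefree F) {m : Fin r → ℕ}
    (hm : ∀ j, (m j : ℕ∞) ≤ od (aff (P j)) F)
    (hma : od (aff (P a)) F ≤ ((m a + 1 : ℕ) : ℕ∞)) {t : ℕ}
    (ht : ((m a + t : ℕ) : ℕ∞) ≤ od ![0, v 0, v 1] (bl (P a) F)) (h1 : 1 ≤ t) :
    max ((((t + 1).choose 2 : ℕ) : ℤ) - 2) 0 <
      (((d + 2).choose 2 : ℕ) : ℤ) - ∑ i, (((m i + 1).choose 2 : ℕ) : ℤ) := by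
  classical
  have hF0 := hsq.ne_zero
  obtain ⟨P', hP', hPP, hPF⟩ := extend hP hF hF0
  choose M hM using fun j => exists_ord' (v := aff (P j)) hF0
  obtain ⟨M', hM'⟩ : ∃ M' : Fin 8 → ℕ, M' = fun j => if h : j.1 < r then M ⟨j.1, h⟩ else 0 :=
    ⟨_, rfl⟩
  obtain ⟨m', hm'⟩ : ∃ m' : Fin 8 → ℕ, m' = fun j => if h : j.1 < r then m ⟨j.1, h⟩ else 0 :=
    ⟨_, rfl⟩
  have hMm : ∀ j, m j ≤ M j := by
    intro j
    have h2 := hm j
    rw [(ord_iff _ _ _).1 (hM j)] at h2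
    exact_mod_cast h2
  have hMa : M a ≤ m a + 1 := by
    rw [(ord_iff _ _ _).1 (hM a)] at hma
    exact_mod_cast hma
  have ha8 : a.1 < 8 := lt_of_lt_of_le a.2 hr
  have hPa : P' ⟨a.1, ha8⟩ = P a := hPP ⟨a.1, ha8⟩ a.2
  have ema : m' ⟨a.1, ha8⟩ = m a := by
    rw [hm']
    simp only [dif_pos a.2, Fin.eta]
  have eMa : M' ⟨a.1, ha8⟩ = M a := by
    rw [hM']
    simp only [dif_pos a.2, Fin.eta]
  have hb := eight_exc hP' ⟨a.1, ha8⟩ hv hF hsq (M := M') (fun j => by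
    rw [hM']
    by_cases h : j.1 < r
    · simp only [dif_pos h]
      rw [hPP j h]
      exact hM _
    · simp only [dif_neg h]
      have h2 := hPF j h
      refine ⟨van_zero _ _, fun h3 => h2 ?_⟩
      rw [zero_add, SH.van_one] at h3
      exact h3) (m := m') (fun j => by
    rw [hM', hm']
    by_cases h : j.1 < r
    · simp only [dif_pos h]
      exact hMm _
    · simp only [dif_neg h]
      exact le_rfl) (by rw [eMa, ema]; exact hMa) (t := t) (by rw [ema, hPa]; exact ht) h1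
  have hs : ∑ i : Fin 8, (((m' i + 1).choose 2 : ℕ) : ℤ) =
      ∑ i, (((m i + 1).choose 2 : ℕ) : ℤ) := by
    rw [← sum_ext hr fun i => (((m i + 1).choose 2 : ℕ) : ℤ)]
    refine Finset.sum_congr rfl fun j _ => ?_
    rw [hm']
    dsimp only
    split_ifs with h
    · rfl
    · rfl
  rw [hs] at hb
  exact hb

end Pool.Agent.H884.TF
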