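import Pool.Agent.H884.TF.Genus
import Pool.Graph.R_seed8.TH167.T3.Nine

set_option autoImplicit false
set_option linter.unusedSectionVars false

/-!
# Curves through eight generic points
-/

namespace Pool.Agent.H884.TF

open MvPolynomial Pool.Agent.W609 Pool.Agent.W609.CR Pool.Agent.TH167 Pool.Agent.TH167.SH
  Pool.Agent.TH167.DD Pool.Agent.H248R6

variable {K : Type} [Field K] [CharZero K] [IsAlgClosed K]

/-- The anticanonical degree of an irreducible curve is positive. -/
theorem kk_irr {P : Fin 8 → Fin 2 → K}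
    (hP : AlgebraicIndependent ℚ (fun ij : Fin 8 × Fin 2 => P ij.1 ij.2))
    {G : MvPolynomial (Fin 3) K} {e : ℕ} (hG : Irreducible G) (hGe : G.IsHomogeneous e)
    (he : 1 ≤ e) {w : Fin 8 → ℕ} (hw : ∀ j, Ord (aff (P j)) (w j) G) :
    ∑ j, w j + 1 ≤ 3 * e := by
  classical
  rcases lt_or_ge (ip e w e w) 0 with h | h
  · have h9 : (Finset.univ.filter fun j => 3 < w j).card ≤ 9 :=
      (Finset.card_filter_le _ _).trans (by simp)
    obtain ⟨-, h2⟩ := T3.neg9 (r := 4) h9 hP hG hGe hw h
    unfold kk at h2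
    have h3 : ((∑ j, w j : ℕ) : ℤ) = ∑ j, (w j : ℤ) := by push_cast; rfl
    have h4 : ∑ j : Fin (4 + 4), (w j : ℤ) = ((∑ j, w j : ℕ) : ℤ) := h3.symm
    rw [h4] at h2
    omega
  · unfold ip at h
    have h1 := sq_sum_le_card_mul_sum_sq (s := (Finset.univ : Finset (Fin 8)))
      (f := fun j => (w j : ℤ))
    rw [Finset.card_univ, Fintype.card_fin] at h1
    have h2 : ∑ j, (w j : ℤ) ^ 2 = ∑ j, (w j : ℤ) * w j :=
      Finset.sum_congr rfl fun j _ => sq _
    rw [h2] at h1
    have h3 : ((∑ j, w j : ℕ) : ℤ) = ∑ j, (w j : ℤ) := by push_cast; rfl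
    by_contra hcon
    push Not at hcon
    have h4 : (3 * e : ℤ) ≤ ∑ j, (w j : ℤ) := by
      rw [← h3]
      exact_mod_cast (by omega : 3 * e ≤ ∑ j, w j)
    have he' : (1 : ℤ) ≤ e := by exact_mod_cast he
    push_cast at h1
    nlinarith

theorem deg_of_not_unit {G H : MvPolynomial (Fin 3) K} {e : ℕ} (hG : G.IsHomogeneous e)
    (hG0 : G ≠ 0) (hH : H ∣ G) (hu : ¬ IsUnit H) :
    H.IsHomogeneous H.totalDegree ∧ 1 ≤ H.totalDegree := by
  have h1 := Pool.Agent.Chud.homog_of_dvd hG hG0 hH
  refine ⟨h1, ?_⟩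
  by_contra hcon
  have h2 : H.totalDegree = 0 := by omega
  apply hu
  have h3 := MvPolynomial.totalDegree_eq_zero_iff_eq_C.1 h2
  rw [h3]
  refine (isUnit_iff_ne_zero.2 fun h4 => ?_).map C
  rw [h4, C_0] at h3
  rw [h3, zero_dvd_iff] at hH
  exact hG0 hH

/-- The anticanonical degree of a curve is positive. -/
theorem kk_form {P : Fin 8 → Fin 2 → K}
    (hP : AlgebraicIndependent ℚ (fun ij : Fin 8 × Fin 2 => P ij.1 ij.2)) :
    ∀ (e : ℕ) (G : MvPolynomial (Fin 3) K) (w : Fin 8 → ℕ), G ≠ 0 → G.IsHomogeneous e → 1 ≤ e →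
      (∀ j, Ord (aff (P j)) (w j) G) → ∑ j, w j + 1 ≤ 3 * e := by
  classical
  intro e
  induction e using Nat.strong_induction_on with
  | _ e ih =>
    intro G w hG0 hGe he hw
    by_cases hirr : Irreducible G
    · exact kk_irr hP hirr hGe he hw
    have hnu : ¬ IsUnit G := by
      intro hu
      have h1 := (MvPolynomial.isUnit_iff_totalDegree_of_isReduced.1 hu).2
      rw [hGe.totalDegree hG0] at h1
      omega
    rw [irreducible_iff] at hirr
    push Not at hirr
    obtain ⟨a, b, hab, ha, hb⟩ := hirr hnu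
    obtain ⟨a1, a2⟩ := deg_of_not_unit hGe hG0 ⟨b, hab⟩ ha
    obtain ⟨b1, b2⟩ := deg_of_not_unit hGe hG0 ⟨a, by rw [hab, mul_comm]⟩ hb
    have ha0 : a ≠ 0 := by
      rintro rfl
      rw [zero_mul] at hab
      exact hG0 hab
    have hb0 : b ≠ 0 := by
      rintro rfl
      rw [mul_zero] at hab
      exact hG0 hab
    have hdeg : a.totalDegree + b.totalDegree = e := by
      rw [← MvPolynomial.totalDegree_mul_of_isDomain ha0 hb0, ← hab, hGe.totalDegree hG0]
    choose wa hwa using fun j => TT.exists_ord (p := P j) ha0 a1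
    choose wb hwb using fun j => TT.exists_ord (p := P j) hb0 b1
    have hsum : ∀ j, w j = wa j + wb j := fun j => by
      have h1 := ord_mul (hwa j) (hwb j)
      rw [← hab] at h1
      exact ord_unique (hw j) h1
    have k1 := ih _ (by omega) a wa ha0 a1 a2 hwa
    have k2 := ih _ (by omega) b wb hb0 b1 b2 hwb
    rw [Finset.sum_congr rfl fun j _ => hsum j, Finset.sum_add_distrib]
    omega

/-- A cubic curve through eight generic points is irreducible, and smooth there. -/
theorem cubic_irr {P : Fin 8 → Fin 2 → K}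
    (hP : AlgebraicIndependent ℚ (fun ij : Fin 8 × Fin 2 => P ij.1 ij.2))
    {A : MvPolynomial (Fin 3) K} (hA0 : A ≠ 0) (hA : A.IsHomogeneous 3)
    (hv : ∀ j, Van (aff (P j)) 1 A) : Irreducible A ∧ ∀ j, Ord (aff (P j)) 1 A := by
  classical
  choose w hw using fun j => TT.exists_ord (p := P j) hA0 hA
  have h1 : ∀ j, 1 ≤ w j := fun j => ord_pos (hw j) (hv j)
  have h8 : 8 ≤ ∑ j, w j := by
    have := Finset.sum_le_sum (s := (Finset.univ : Finset (Fin 8))) (f := fun _ => 1) (g := w)
      fun j _ => h1 j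
    simpa using this
  have hk := kk_form hP 3 A w hA0 hA (by norm_num) hw
  constructor
  · by_contra hirr
    have hnu : ¬ IsUnit A := by
      intro hu
      have h1 := (MvPolynomial.isUnit_iff_totalDegree_of_isReduced.1 hu).2
      rw [hA.totalDegree hA0] at h1
      omega
    rw [irreducible_iff] at hirr
    push Not at hirr
    obtain ⟨a, b, hab, ha, hb⟩ := hirr hnu
    obtain ⟨a1, a2⟩ := deg_of_not_unit hA hA0 ⟨b, hab⟩ ha
    obtain ⟨b1, b2⟩ := deg_of_not_unit hA hA0 ⟨a, by rw [hab, mul_comm]⟩ hb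
    have ha0 : a ≠ 0 := by
      rintro rfl
      rw [zero_mul] at hab
      exact hA0 hab
    have hb0 : b ≠ 0 := by
      rintro rfl
      rw [mul_zero] at hab
      exact hA0 hab
    have hdeg : a.totalDegree + b.totalDegree = 3 := by
      rw [← MvPolynomial.totalDegree_mul_of_isDomain ha0 hb0, ← hab, hA.totalDegree hA0]
    choose wa hwa using fun j => TT.exists_ord (p := P j) ha0 a1
    choose wb hwb using fun j => TT.exists_ord (p := P j) hb0 b1
    have hsum : ∀ j, w j = wa j + wb j := fun j => by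
      have h1 := ord_mul (hwa j) (hwb j)
      rw [← hab] at h1
      exact ord_unique (hw j) h1
    have k1 := kk_form hP _ a wa ha0 a1 a2 hwa
    have k2 := kk_form hP _ b wb hb0 b1 b2 hwb
    rw [Finset.sum_congr rfl fun j _ => hsum j, Finset.sum_add_distrib] at h8
    omega
  · intro j
    have h2 : w j = 1 := by
      by_contra hne
      have h3 : 2 ≤ w j := by
        have := h1 j
        omega
      have h4 : 9 ≤ ∑ j, w j := by
        rw [← Finset.add_sum_erase _ _ (Finset.mem_univ j)]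
        have h5 := Finset.sum_le_sum (s := (Finset.univ.erase j : Finset (Fin 8)))
          (f := fun _ => 1) (g := w) fun j _ => h1 j
        rw [Finset.sum_const, Finset.card_erase_of_mem (Finset.mem_univ _), Finset.card_univ,
          Fintype.card_fin, smul_eq_mul] at h5
        omega
      omega
    rw [← h2]
    exact hw j

/-- There is a cubic form with a given vanishing at nine points. -/
theorem exists_cubic (Q : Fin 9 → Fin 2 → K) : ∃ A : MvPolynomial (Fin 3) K, A ≠ 0 ∧
    A.IsHomogeneous 3 ∧ ∀ j, Van (aff (Q j)) 1 A := by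
  have h1 := le_dim (fun _ : Fin 9 => 1) Q 3
  rw [← vs_eq_forms] at h1
  have h2 : ∑ _i : Fin 9, (1 + 1).choose 2 = 9 := by simp
  have h3 : (3 + 2).choose 2 = 10 := rfl
  rw [h2, h3] at h1
  have hf := vs_fin (fun j => aff (Q j)) (fun _ => 1) 3
  have hpos : 0 < Module.finrank K ↥(VS (fun j => aff (Q j)) (fun _ => 1) 3) := by omega
  have h4 : Nontrivial ↥(VS (fun j => aff (Q j)) (fun _ => 1) 3) := Module.finrank_pos_iff.1 hpos
  obtain ⟨⟨f, hfm⟩, hf0⟩ := exists_ne (0 : ↥(VS (fun j => aff (Q j)) (fun _ => 1) 3))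
  have hfm' := (mem_VS _ _ _ _).1 hfm
  exact ⟨f, fun h => hf0 (Subtype.ext h), hfm'.1, hfm'.2⟩

end Pool.Agent.H884.TF
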