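import Pool.Graph.R_seed8.TH167.CL.Cliff
import Pool.Graph.R_seed8.TH167.DD.PrimeA
import Pool.Graph.R_seed8.TH167.DD.Adj2

set_option autoImplicit false
set_option linter.unusedSectionVars false

/-!
# The arithmetic genus of an irreducible plane curve
-/

namespace Pool.Agent.H884.TF

open MvPolynomial Pool.Agent.W609 Pool.Agent.W609.CR Pool.Agent.TH167 Pool.Agent.TH167.SH
  Pool.Agent.TH167.DD Pool.Agent.H248R6

variable {K : Type} [Field K] [CharZero K] [IsAlgClosed K]

/-- An irreducible curve has infinitely many points. -/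
theorem inf_pts {G : MvPolynomial (Fin 3) K} {d : ℕ} (hG : Irreducible G)
    (hGd : G.IsHomogeneous d) (hd : 2 ≤ d) : {q : Fin 2 → K | eval (aff q) G = 0}.Infinite := by
  classical
  intro hfin
  let h : MvPolynomial (Fin 3) K := ∏ q ∈ hfin.toFinset, mf 0 q
  have hh : h.IsHomogeneous (∑ q ∈ hfin.toFinset, 1) :=
    IsHomogeneous.prod _ _ _ fun q _ => mf_hom 0 q
  have hnd : ¬ G ∣ h := by
    intro hdvd
    obtain ⟨q, hq, hq2⟩ := (hG.prime.dvd_finsetProd_iff _).1 hdvd
    obtain ⟨c, hc⟩ := hq2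
    have hc0 : c ≠ 0 := by
      rintro rfl
      rw [mul_zero] at hc
      exact mf_ne 0 q hc
    have h1 := (mf_hom 0 q).totalDegree (mf_ne 0 q)
    rw [hc, MvPolynomial.totalDegree_mul_of_isDomain hG.ne_zero hc0,
      hGd.totalDegree hG.ne_zero] at h1
    omega
  obtain ⟨q, hq1, hq2⟩ := exists_point_on hG hGd hd hh hnd
  apply hq2
  show eval (aff q) (∏ q ∈ hfin.toFinset, mf 0 q) = 0
  rw [map_prod]
  refine Finset.prod_eq_zero (i := q) (hfin.mem_toFinset.2 hq1) ?_
  rw [eval_mf, sub_self]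

/-- The inequality of the genus. -/
theorem genus {s : ℕ} {P : Fin s → Fin 2 → K} (hP : Function.Injective P)
    {G : MvPolynomial (Fin 3) K} {d : ℕ} (hG : Irreducible G) (hGd : G.IsHomogeneous d)
    (hd : 1 ≤ d) {w : Fin s → ℕ} (hw : ∀ i, Ord (aff (P i)) (w i) G) :
    ∑ j, w j * w j + 3 * d ≤ d * d + 2 + ∑ j, w j := by
  classical
  rcases Nat.lt_or_ge 1 d with h2 | h2
  swap
  · have hd1 : d = 1 := by omega
    subst hd1
    have h1 : ∀ j, w j ≤ 1 := fun j => van_le hG.ne_zero hGd (hw j).1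
    have h3 : ∑ j, w j * w j = ∑ j, w j := by
      refine Finset.sum_congr rfl fun j _ => ?_
      have := h1 j
      interval_cases w j <;> rfl
    omega
  -- a system of high degree
  obtain ⟨M, hM⟩ : ∃ M, M = ∑ j, (w j).choose 2 + 1 := ⟨_, rfl⟩
  let V := VS (fun j => aff (P j)) (fun j => w j - 1) (d + M)
  have hVf : Module.Finite K ↥V := vs_fin (fun j => aff (P j)) (fun j => w j - 1) (d + M)
  have hBf := mult_finite (K := K) G M
  have hB := mult_finrank (K := K) hG.ne_zero M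
  have hV := le_dim (fun j => w j - 1) P (d + M)
  rw [← vs_eq_forms] at hV
  have hV' : (d + M + 2).choose 2 ≤ Module.finrank K ↥V + ∑ j, (w j).choose 2 := by
    refine hV.trans (Nat.add_le_add_left (Finset.sum_le_sum fun j _ => ?_) _)
    rcases Nat.eq_zero_or_pos (w j) with h | h
    · rw [h]
      simp
    · rw [Nat.sub_add_cancel h]
  have c1 : 2 * (d + M + 2).choose 2 = (d + M + 1) * (d + M + 2) := H932R7.two_choose (d + M)
  have c2 : 2 * (M + 2).choose 2 = (M + 1) * (M + 2) := H932R7.two_choose M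
  have hbig : (M + 2).choose 2 + 1 ≤ Module.finrank K ↥V := by
    have h3 : 2 * (M + 2).choose 2 + 2 + 2 * ∑ j, (w j).choose 2 ≤ 2 * (d + M + 2).choose 2 := by
      rw [c1, c2]
      have h4 : ∑ j, (w j).choose 2 = M - 1 := by omega
      have h5 : 2 * ∑ j, (w j).choose 2 + 2 = 2 * M := by omega
      nlinarith
    omega
  obtain ⟨n, hn⟩ : ∃ n, Module.finrank K ↥V = (M + 2).choose 2 + 1 + n :=
    ⟨_, (Nat.add_sub_of_le hbig).symm⟩
  -- the points
  have hinf : ({q : Fin 2 → K | eval (aff q) G = 0} \ Set.range P).Infinite :=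
    (inf_pts hG hGd h2).sdiff (Set.finite_range P)
  obtain ⟨J, hJ, hJn⟩ := hinf.exists_subset_card_eq n
  obtain ⟨f, hfV, hfB, hfJ⟩ := CL.exists_van J V (mult G M) (by rw [hB, hJn, hn]; omega)
  have hf := (mem_VS _ _ _ _).1 hfV
  have hf0 : f ≠ 0 := by
    rintro rfl
    exact hfB (Submodule.zero_mem _)
  have hnd : ¬ G ∣ f := fun hdvd => hfB (mem_mult hGd hG.ne_zero hf.1 hdvd fun _ => rfl)
  have hbz := bezQ hP hG hGd (fun j => (hw j).1) hf0 hf.1 hf.2 hnd (Q := J)
    (fun j hj => (hJ hj).2 ⟨j, rfl⟩) (fun q hq => (hJ hq).1) hfJ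
  rw [hJn] at hbz
  have h6 : ∑ j, w j * (w j - 1) + ∑ j, w j = ∑ j, w j * w j := by
    rw [← Finset.sum_add_distrib]
    refine Finset.sum_congr rfl fun j _ => ?_
    rcases Nat.eq_zero_or_pos (w j) with h | h
    · rw [h]
    · obtain ⟨v, hv⟩ : ∃ v, w j = v + 1 := ⟨w j - 1, by omega⟩
      rw [hv, Nat.add_sub_cancel]
      ring
  have h7 : 2 * ∑ j, (w j).choose 2 = ∑ j, w j * (w j - 1) := by
    rw [Finset.mul_sum]
    refine Finset.sum_congr rfl fun j _ => ?_
    rw [Nat.choose_two_right, Nat.mul_div_cancel' (Nat.even_mul_pred_self _).two_dvd]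
  nlinarith

end Pool.Agent.H884.TF
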