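import Pool.Agent.H884.TF.Pt

set_option autoImplicit false
set_option linter.unusedSectionVars false

/-!
# The theorem of Abel on a plane cubic curve, for derivations
-/

namespace Pool.Agent.H884.TF

open MvPolynomial Pool.Agent.W609 Pool.Agent.W609.CR Pool.Agent.TH167 Pool.Agent.TH167.SH
  Pool.Agent.TH167.DD Pool.Agent.H248R6

variable {K : Type} [Field K] [CharZero K]

/-- The slope of the line from `O` to `q`. -/
noncomputable def sl (O q : Fin 2 → K) : K := (q 1 - O 1) / (q 0 - O 0)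

/-- The second parameter of the point `q`. -/
noncomputable def rr (O q : Fin 2 → K) : K := (q 0 - O 0)⁻¹

/-- The derivative of the equation along the line. -/
noncomputable def et (O : Fin 2 → K) (A : MvPolynomial (Fin 3) K) (q : Fin 2 → K) : K :=
  2 * ((phi O A).coeff 2).eval (sl O q) * rr O q + ((phi O A).coeff 1).eval (sl O q)

theorem phi_cubic {O : Fin 2 → K} {A : MvPolynomial (Fin 3) K} (hA : A.IsHomogeneous 3)
    (hO : eval (aff O) A = 0) : phi O A = Polynomial.C ((phi O A).coeff 2) * Polynomial.X ^ 2 +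
      Polynomial.C ((phi O A).coeff 1) * Polynomial.X + Polynomial.C ((phi O A).coeff 0) := by
  have h3 : (phi O A).coeff 3 = 0 := by rw [phi_top O hA, hO, Polynomial.C_0]
  conv_lhs => rw [Polynomial.as_sum_range_C_mul_X_pow' (phi O A) (n := 4)
    (lt_of_le_of_lt (phi_deg2 O hA) (by norm_num))]
  rw [Finset.sum_range_succ, Finset.sum_range_succ, Finset.sum_range_succ, Finset.sum_range_succ,
    Finset.sum_range_zero, h3]
  simp
  ring

theorem pt_eq {O q : Fin 2 → K} (hx : q 0 ≠ O 0) :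
    O 0 * rr O q + 1 = rr O q * q 0 ∧ O 1 * rr O q + sl O q = rr O q * q 1 := by
  have : q 0 - O 0 ≠ 0 := sub_ne_zero.2 hx
  unfold rr sl
  constructor
  · field_simp
    ring
  · field_simp
    ring

theorem rr_ne {O q : Fin 2 → K} (hx : q 0 ≠ O 0) : rr O q ≠ 0 :=
  inv_ne_zero (sub_ne_zero.2 hx)

theorem psi_zero {O q : Fin 2 → K} (hx : q 0 ≠ O 0) {G : MvPolynomial (Fin 3) K} {e : ℕ}
    (hG : G.IsHomogeneous e) : (psi O (Polynomial.C (rr O q)) G).eval (sl O q) = 0 ↔
      eval (aff q) G = 0 := by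
  have h1 := ((t_lin K).2 G e hG (rr O q) (rr_ne hx) (aff q) 1)
  rw [TT.van_one, TT.van_one] at h1
  rw [← h1, eval_psi, Polynomial.eval_C]
  obtain ⟨a1, a2⟩ := pt_eq hx
  have h2 : (![O 0 * rr O q + 1, O 1 * rr O q + sl O q, rr O q] : Fin 3 → K) =
      rr O q • aff q := by
    rw [a1, a2]
    funext i
    fin_cases i
    · simp [aff]
    · simp [aff]
    · simp [aff]
  rw [h2]

theorem et_ne {O q : Fin 2 → K} {A : MvPolynomial (Fin 3) K} (hA : A.IsHomogeneous 3)
    (hO : eval (aff O) A = 0) (hx : q 0 ≠ O 0) (hq : eval (aff q) (polar O A) ≠ 0) :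
    et O A q ≠ 0 := by
  intro h
  apply hq
  rw [← psi_zero hx (polar_hom O hA), ← eval_phi, ← phi_polar]
  conv_lhs => rw [phi_cubic hA hO]
  simp only [Polynomial.derivative_add, Polynomial.derivative_mul, Polynomial.derivative_C,
    Polynomial.derivative_X, Polynomial.derivative_X_pow, zero_mul, zero_add, add_zero, mul_one,
    Polynomial.eval_add, Polynomial.eval_mul, Polynomial.eval_C, Polynomial.eval_pow,
    Polynomial.eval_X]
  unfold et at h
  rw [← h]
  simp
  ring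

theorem quad_zero {O q : Fin 2 → K} {A : MvPolynomial (Fin 3) K} (hA : A.IsHomogeneous 3)
    (hO : eval (aff O) A = 0) (hx : q 0 ≠ O 0) (hq : eval (aff q) A = 0) :
    ((phi O A).coeff 2).eval (sl O q) * rr O q ^ 2 + ((phi O A).coeff 1).eval (sl O q) * rr O q +
      ((phi O A).coeff 0).eval (sl O q) = 0 := by
  rw [← psi_zero hx hA, ← eval_phi, phi_cubic hA hO] at hq
  simpa using hq

theorem gamma_ne {O : Fin 2 → K} {A : MvPolynomial (Fin 3) K} (hA : Irreducible A)
    (hA3 : A.IsHomogeneous 3) : (phi O A).coeff 0 ≠ 0 := by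
  intro h
  obtain ⟨x, hx⟩ := exists_slope (finite_inf hA3 (not_X_dvd hA hA3 (by norm_num)
    (isHomogeneous_X K 2) X2_not_unit))
  apply hx
  have h1 := eval_phi O 0 A
  rw [← Polynomial.coeff_zero_eq_eval_zero, h] at h1
  have h2 := congrArg (Polynomial.eval x) h1
  rw [eval_psi, Polynomial.eval_zero] at h2
  show eval ![1, x, 0] A = 0
  rw [mul_zero, mul_zero, zero_add, zero_add] at h2
  exact h2.symm

theorem sl_ne {O p q : Fin 2 → K} (hp : p 0 ≠ O 0) (hq : q 0 ≠ O 0)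
    (h : eval (aff O) (ln p q) ≠ 0) : sl O p ≠ sl O q := by
  intro h1
  apply h
  have a1 : p 0 - O 0 ≠ 0 := sub_ne_zero.2 hp
  have a2 : q 0 - O 0 ≠ 0 := sub_ne_zero.2 hq
  unfold sl at h1
  rw [div_eq_div_iff a1 a2] at h1
  unfold ln
  simp [aff]
  linear_combination -h1

/-- The theorem of Abel. -/
theorem geo_abel [IsAlgClosed K] (D : Derivation ℚ K K) {O : Fin 2 → K}
    {A : MvPolynomial (Fin 3) K} (hA : Irreducible A) (hA3 : A.IsHomogeneous 3)
    (hDA : dG D A = 0) (hDO : ∀ i, D (O i) = 0) {n : ℕ} {Q : Fin n → Fin 2 → K}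
    (hQA : ∀ j, eval (aff (Q j)) A = 0) (hO : eval (aff O) A = 0) (hx : ∀ j, Q j 0 ≠ O 0)
    (hln : ∀ j k, j ≠ k → eval (aff O) (ln (Q j) (Q k)) ≠ 0)
    (hη : ∀ j, eval (aff (Q j)) (polar O A) ≠ 0) (hα : (phi O A).coeff 2 ≠ 0)
    {F : MvPolynomial (Fin 3) K} {d : ℕ} (hd : 1 ≤ d) (hF : F.IsHomogeneous d) (hF0 : F ≠ 0)
    (hrel : IsRelPrime A F) {m : Fin n → ℕ} (hv : ∀ j, Van (aff (Q j)) (m j) F)
    (hm : ∑ j, m j = 3 * d) :
    ∑ j, (m j : K) * (D (sl O (Q j)) / et O A (Q j)) = 0 := by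
  refine abel D (phi_deg O hA3 2) (phi_deg O hA3 1) (phi_deg O hA3 0) (dP_phi_const D hDO hDA 2)
    (dP_phi_const D hDO hDA 1) (dP_phi_const D hDO hDA 0) hd (F := fun k => (phi O F).coeff k)
    (phi_deg O hF) (s := fun j => sl O (Q j)) ?_ hm (ρ := fun j => rr O (Q j))
    (fun j => quad_zero hA3 hO (hx j) (hQA j)) (fun j => et_ne hA3 hO (hx j) (hη j)) ?_ ?_
  · intro j k hjk
    by_contra hne
    exact sl_ne (hx j) (hx k) (hln j k hne) hjk
  · intro j R hR
    show _ ∣ ∑ k ∈ Finset.range (d + 1), (phi O F).coeff k * R ^ k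
    rw [phi_sum O hF R]
    exact van_psi (rr_ne (hx j)) (pt_eq (hx j)).1 (pt_eq (hx j)).2 hF (hv j) hR
  · exact norm_ne hA3 hF hA.ne_zero hF0 hrel hO hα (gamma_ne hA hA3)

end Pool.Agent.H884.TF
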