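import Pool.Agent.H884.TF.Geo
import Pool.Graph.R_seed8.TH167.TT.Tlem

set_option autoImplicit false
set_option linter.unusedSectionVars false

/-!
# Three orthogonal `(-2)`-curves on the blow-up of nine points, eight of which are generic
-/

namespace Pool.Agent.H884.TF

open MvPolynomial Pool.Agent.W609 Pool.Agent.W609.CR Pool.Agent.TH167 Pool.Agent.TH167.SH
  Pool.Agent.TH167.DD Pool.Agent.H248R6

variable {K : Type} [Field K] [CharZero K]

/-- The centre of the projection is constant. -/
theorem der_O (D : Derivation ℚ K K) {A : MvPolynomial (Fin 3) K} (hDA : dG D A = 0) {u : ℚ}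
    {O : Fin 2 → K} (hu : O 0 = (u : K)) (hO : eval (aff O) A = 0)
    (hy : ∃ y, eval (aff ![O 0, y]) (pderiv 1 A) ≠ 0) : ∀ i, D (O i) = 0 := by
  have h0 : D (O 0) = 0 := by
    rw [hu, ← eq_ratCast (algebraMap ℚ K), D.map_algebraMap]
  have h1 : D (O 1) = 0 := by
    let h : MvPolynomial (Fin 3) K →ₐ[K] Polynomial K :=
      aeval ![Polynomial.C (O 0), Polynomial.X, 1]
    have hhe : ∀ (F : MvPolynomial (Fin 3) K) (y : K), (h F).eval y =
        eval (aff ![O 0, y]) F := by
      intro F y
      induction F using MvPolynomial.induction_on with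
      | C c => simp [h]
      | add p q hp hq => rw [map_add, Polynomial.eval_add, hp, hq, map_add]
      | mul_X p i hp =>
        rw [map_mul, Polynomial.eval_mul, hp, map_mul, eval_X]
        congr 1
        fin_cases i <;> simp [h, aff]
    have hhd : ∀ F : MvPolynomial (Fin 3) K, Polynomial.derivative (h F) = h (pderiv 1 F) := by
      intro F
      induction F using MvPolynomial.induction_on with
      | C c => simp [h]
      | add p q hp hq => rw [map_add, map_add, hp, hq, map_add, map_add]
      | mul_X p i hp =>
        rw [map_mul, Polynomial.derivative_mul, hp, Derivation.leibniz, map_add, smul_eq_mul,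
          smul_eq_mul, map_mul, map_mul]
        fin_cases i
        · simp [h, pderiv_X]
          ring
        · simp [h, pderiv_X]
          ring
        · simp [h, pderiv_X]
    have hD : ∀ F : MvPolynomial (Fin 3) K, dP D (h F) = h (dG D F) := by
      intro F
      induction F using MvPolynomial.induction_on with
      | C c =>
        have e1 : ∀ c : K, h (C c) = Polynomial.C c := fun c => by simp [h]
        rw [dG_C, e1, e1, dP_C]
      | add p q hp hq => rw [map_add, dP_add, dG_add, map_add, hp, hq]
      | mul_X p i hp =>
        have e1 : dP D (h (X i)) = 0 := by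
          fin_cases i
          · show dP D (h (X 0)) = 0
            have : h (X 0) = Polynomial.C (O 0) := by simp [h]
            rw [this, dP_C, h0, Polynomial.C_0]
          · show dP D (h (X 1)) = 0
            have : h (X 1) = Polynomial.X := by simp [h]
            rw [this, dP_X]
          · show dP D (h (X 2)) = 0
            have : h (X 2) = 1 := by simp [h]
            rw [this, dP_one]
        rw [map_mul, dP_mul, hp, dG_mul, dG_X, e1, mul_zero, mul_zero, add_zero, add_zero,
          map_mul]
    obtain ⟨y, hy⟩ := hy
    refine TT.const_root D _ (h A) le_rfl ?_ ?_ ?_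
    · intro h2
      apply hy
      rw [← hhe, ← hhd, h2, Polynomial.derivative_zero, Polynomial.eval_zero]
    · intro i
      rw [← coeff_dP, hD, hDA, map_zero, Polynomial.coeff_zero]
    · rw [hhe]
      have : (![O 0, O 1] : Fin 2 → K) = O := by
        funext i
        fin_cases i <;> rfl
      rw [this]
      exact hO
  intro i
  fin_cases i
  · exact h0
  · exact h1

/-- A point does not move if its parameter does not move. -/
theorem der_pt (D : Derivation ℚ K K) {A : MvPolynomial (Fin 3) K} (hA3 : A.IsHomogeneous 3)
    (hDA : dG D A = 0) {O q : Fin 2 → K} (hDO : ∀ i, D (O i) = 0) (hx : q 0 ≠ O 0)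
    (hqA : eval (aff q) A = 0) (hη : eval (aff q) (polar O A) ≠ 0) (hs : D (sl O q) = 0) :
    ∀ i, D (q i) = 0 := by
  have hx' : q 0 - O 0 ≠ 0 := sub_ne_zero.2 hx
  have e1 := der_eval D (aff q) A
  rw [hqA, map_zero, hDA, map_zero, zero_add, Fin.sum_univ_three] at e1
  have a0 : aff q 0 = q 0 := rfl
  have a1 : aff q 1 = q 1 := rfl
  have a2 : aff q 2 = 1 := rfl
  rw [a0, a1, a2, D.map_one_eq_zero, mul_zero, add_zero] at e1
  have e2 : D (q 1) = sl O q * D (q 0) := by
    have h1 : q 1 = O 1 + (q 0 - O 0) * sl O q := by
      unfold sl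
      field_simp
      ring
    have h2 := congrArg D h1
    rw [map_add, D.leibniz, map_sub, hDO, hDO, hs, smul_zero, zero_add, zero_add, sub_zero,
      smul_eq_mul] at h2
    exact h2
  have e3 := congrArg (eval (aff q)) hA3.sum_X_mul_pderiv
  rw [Fin.sum_univ_three] at e3
  simp only [map_add, map_mul, eval_X, map_nsmul, hqA, smul_zero, a0, a1, a2, one_mul] at e3
  have e4 : eval (aff q) (polar O A) = O 0 * eval (aff q) (pderiv 0 A) +
      O 1 * eval (aff q) (pderiv 1 A) + eval (aff q) (pderiv 2 A) := by
    unfold polar
    simp
  have e5 : D (q 0) = 0 := by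
    by_contra hne
    apply hη
    rw [e4]
    have h3 : (q 0 - O 0) * sl O q = q 1 - O 1 := by
      unfold sl
      field_simp
    have h4 : (eval (aff q) (pderiv 0 A) + sl O q * eval (aff q) (pderiv 1 A)) * D (q 0) = 0 := by
      rw [e2] at e1
      linear_combination -e1
    have h5 := (mul_eq_zero.1 h4).resolve_right hne
    linear_combination e3 - (q 0 - O 0) * h5 + eval (aff q) (pderiv 1 A) * h3
  intro i
  fin_cases i
  · exact e5
  · show D (q 1) = 0
    rw [e2, e5, mul_zero]

end Pool.Agent.H884.TF
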