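import Pool.Agent.H884.TF.Lin

set_option autoImplicit false
set_option linter.unusedSectionVars false

/-!
# Three orthogonal `(-2)`-curves on the blow-up of nine points, eight of which are generic
-/

namespace Pool.Agent.H884.TF

open MvPolynomial Pool.Agent.W609 Pool.Agent.W609.CR Pool.Agent.TH167 Pool.Agent.TH167.SH
  Pool.Agent.TH167.DD Pool.Agent.H248R6

variable {K : Type} [Field K] [CharZero K]

theorem lin_indep {m : Fin 3 → Fin 9 → ℕ} {d : Fin 3 → ℕ} (hm : ∀ a, ∑ j, m a j = 3 * d a)
    (hip : ∀ a b, ∑ j, m a j * m b j = d a * d b + if a = b then 2 else 0) :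
    LinearIndependent K (fun a : Fin 3 => (fun j : Fin 9 => (m a j : K))) := by
  rw [Fintype.linearIndependent_iff]
  intro c hc b
  have h1 : ∀ j, ∑ a, c a * (m a j : K) = 0 := by
    intro j
    have := congrFun hc j
    simpa [Finset.sum_apply] using this
  have h2 : ∑ a, c a * (d a : K) = 0 := by
    have h3 : ∑ j, ∑ a, c a * (m a j : K) = 0 := Finset.sum_eq_zero fun j _ => h1 j
    rw [Finset.sum_comm] at h3
    have h4 : ∀ a, ∑ j, c a * (m a j : K) = 3 * (c a * d a) := by
      intro a
      rw [← Finset.mul_sum, ← Nat.cast_sum, hm a]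
      push_cast
      ring
    rw [Finset.sum_congr rfl fun a _ => h4 a, ← Finset.mul_sum] at h3
    exact (mul_eq_zero.1 h3).resolve_left three_ne_zero
  have h3 : ∑ j, (∑ a, c a * (m a j : K)) * (m b j : K) = 0 :=
    Finset.sum_eq_zero fun j _ => by rw [h1, zero_mul]
  have h4 : ∑ j, (∑ a, c a * (m a j : K)) * (m b j : K) =
      ∑ a, c a * ∑ j, (m a j : K) * (m b j : K) := by
    simp only [Finset.sum_mul, Finset.mul_sum]
    rw [Finset.sum_comm]
    exact Finset.sum_congr rfl fun a _ => Finset.sum_congr rfl fun j _ => by ring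
  have h5 : ∀ a, ∑ j, (m a j : K) * (m b j : K) = d a * d b + if a = b then 2 else 0 := by
    intro a
    have := congrArg (fun n : ℕ => (n : K)) (hip a b)
    push_cast at this
    exact this
  rw [h4, Finset.sum_congr rfl fun a _ => by rw [h5 a]] at h3
  have h6 : ∑ a, c a * ((d a : K) * d b + if a = b then 2 else 0) =
      (∑ a, c a * (d a : K)) * d b + 2 * c b := by
    have h7 : ∀ a, c a * ((d a : K) * d b + if a = b then 2 else 0) =
        c a * (d a : K) * d b + if a = b then 2 * c b else 0 := by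
      intro a
      split_ifs with h
      · subst h
        ring
      · ring
    rw [Finset.sum_congr rfl fun a _ => h7 a, Finset.sum_add_distrib, Finset.sum_mul,
      Finset.sum_ite_eq' Finset.univ b, if_pos (Finset.mem_univ b)]
  rw [h6, h2, zero_mul, zero_add] at h3
  exact (mul_eq_zero.1 h3).resolve_left two_ne_zero

/-- There are no three orthogonal `(-2)`-curves. -/
theorem no_three [IsAlgClosed K] {P : Fin 8 → Fin 2 → K}
    (hP : AlgebraicIndependent ℚ (fun ij : Fin 8 × Fin 2 => P ij.1 ij.2))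
    {A : MvPolynomial (Fin 3) K} (hA : Irreducible A) (hA3 : A.IsHomogeneous 3)
    {μ : Fin 3 →₀ ℕ} (hμ : coeff μ A = 1)
    {Q : Fin 9 → Fin 2 → K} (hQ : Function.Injective Q) (hQP : ∀ i : Fin 8, Q i.succ = P i)
    (hord : ∀ j, Ord (aff (Q j)) 1 A)
    {F : Fin 3 → MvPolynomial (Fin 3) K} {d : Fin 3 → ℕ} (hd : ∀ a, 1 ≤ d a)
    (hF : ∀ a, (F a).IsHomogeneous (d a)) (hF0 : ∀ a, F a ≠ 0) (hrel : ∀ a, IsRelPrime A (F a))
    {m : Fin 3 → Fin 9 → ℕ} (hv : ∀ a j, Van (aff (Q j)) (m a j) (F a))
    (hm : ∀ a, ∑ j, m a j = 3 * d a)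
    (hip : ∀ a b, ∑ j, m a j * m b j = d a * d b + if a = b then 2 else 0) : False := by
  classical
  obtain ⟨D, hD⟩ := TT.exists_D hP
  obtain ⟨u, O, hu, hO, hx, hln, hη, hpol, hy⟩ := exists_O hA hA3 hQ hord
  have hα := alpha_ne hA3 hO hpol
  have hQA : ∀ j, eval (aff (Q j)) A = 0 := fun j => (TT.van_one).1 (hord j).1
  let Dw : (Fin 8 × Fin 2 → K) → Derivation ℚ K K := fun w => ∑ y, w y • D y
  have hDw : ∀ w z, Dw w z = ∑ y, w y * D y z := fun w z => TT.sum_der _ _ _ _
  have hDP : ∀ w i b, Dw w (P i b) = w (i, b) := by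
    intro w i b
    rw [hDw, Finset.sum_eq_single (i, b)]
    · rw [hD, if_pos ⟨rfl, rfl⟩, mul_one]
    · intro y _ hy
      rw [hD, if_neg, mul_zero]
      intro h
      exact hy (Prod.ext h.1.symm h.2.symm)
    · intro h
      exact absurd (Finset.mem_univ _) h
  -- the derivations which kill `A`
  let L : (Fin 8 × Fin 2 → K) →ₗ[K] MvPolynomial (Fin 3) K :=
    { toFun := fun w => ∑ y, w y • dG (D y) A
      map_add' := fun w w' => by
        simp only [Pi.add_apply, add_smul, Finset.sum_add_distrib]
      map_smul' := fun t w => by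
        simp only [Pi.smul_apply, smul_eq_mul, mul_smul, RingHom.id_apply, Finset.smul_sum] }
  have hL : ∀ w, L w = ∑ y, w y • dG (D y) A := fun w => rfl
  have hLD : ∀ w, dG (Dw w) A = L w := by
    intro w
    ext s
    rw [coeff_dG, hDw, hL, coeff_sum]
    exact Finset.sum_congr rfl fun y _ => by rw [coeff_smul, coeff_dG, smul_eq_mul]
  have hH := H248R6.finrank_homog (K := K) 3
  have hHf : Module.Finite K ↥(homogeneousSubmodule (Fin 3) K 3) :=
    Module.Finite.iff_fg.2 (homogeneousSubmodule_fg _ _ 3)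
  have hrange : LinearMap.range L < homogeneousSubmodule (Fin 3) K 3 := by
    rw [lt_iff_le_and_ne]
    constructor
    · rintro _ ⟨w, rfl⟩
      rw [hL]
      exact Submodule.sum_mem _ fun y _ => Submodule.smul_mem _ _ (dG_homog _ hA3)
    · intro heq
      have h1 : A ∈ LinearMap.range L := by
        rw [heq]
        exact hA3
      obtain ⟨w, hw⟩ := h1
      have h2 := congrArg (coeff μ) hw
      rw [hμ, hL, coeff_sum, Finset.sum_eq_zero (fun y _ => by
        rw [coeff_smul, coeff_dG, hμ, (D y).map_one_eq_zero, smul_zero])] at h2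
      exact zero_ne_one h2
  have hr9 := Submodule.finrank_lt_finrank_of_lt hrange
  rw [hH] at hr9
  have hrk := LinearMap.finrank_range_add_finrank_ker L
  rw [Module.finrank_fintype_fun_eq_card, Fintype.card_prod, Fintype.card_fin,
    Fintype.card_fin] at hrk
  have h10 : (3 + 2).choose 2 = 10 := rfl
  rw [h10] at hr9
  -- the relations
  let M : Matrix (Fin 3) (Fin 9) K := Matrix.of fun a j => (m a j : K)
  have hM : M.rank = 3 := by
    have h1 : LinearIndependent K M.row := lin_indep hm hip
    have h2 := h1.rank_matrix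
    rwa [Fintype.card_fin] at h2
  have hMk := LinearMap.finrank_range_add_finrank_ker M.mulVecLin
  rw [Module.finrank_fintype_fun_eq_card, Fintype.card_fin] at hMk
  have hM' : Module.finrank K ↥(LinearMap.range M.mulVecLin) = 3 := hM
  have hker : ∀ w : ↥(LinearMap.ker L), dG (Dw w.1) A = 0 := by
    intro w
    rw [hLD]
    exact w.2
  let E : ↥(LinearMap.ker L) →ₗ[K] (Fin 9 → K) :=
    { toFun := fun w j => Dw w.1 (sl O (Q j)) / et O A (Q j)
      map_add' := fun w w' => by
        funext j
        simp only [hDw, Submodule.coe_add, Pi.add_apply, add_mul, Finset.sum_add_distrib, add_div]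
      map_smul' := fun t w => by
        funext j
        simp only [hDw, Submodule.coe_smul, Pi.smul_apply, smul_eq_mul, RingHom.id_apply,
          mul_assoc, ← Finset.mul_sum, mul_div_assoc] }
  have hE : ∀ w j, E w j = Dw w.1 (sl O (Q j)) / et O A (Q j) := fun w j => rfl
  have hEk : ∀ w, E w ∈ LinearMap.ker M.mulVecLin := by
    intro w
    rw [LinearMap.mem_ker, Matrix.mulVecLin_apply]
    funext a
    have h1 := geo_abel (Dw w.1) hA hA3 (hker w) (der_O (Dw w.1) (hker w) hu hO hy) hQA hO hx hln
      hη hα (hd a) (hF a) (hF0 a) (hrel a) (hv a) (hm a)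
    exact h1
  have hinj : Function.Injective E := by
    rw [← LinearMap.ker_eq_bot, LinearMap.ker_eq_bot']
    intro w hw
    apply Subtype.ext
    funext y
    show w.1 y = 0
    have hs : Dw w.1 (sl O (Q y.1.succ)) = 0 := by
      have h1 := congrFun hw y.1.succ
      rw [hE] at h1
      exact (div_eq_zero_iff.1 h1).resolve_right (et_ne hA3 hO (hx _) (hη _))
    have h2 := der_pt (Dw w.1) hA3 (hker w) (der_O (Dw w.1) (hker w) hu hO hy) (hx y.1.succ)
      (hQA _) (hη _) hs y.2
    rw [hQP, hDP] at h2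
    exact h2
  have h1 := LinearMap.finrank_le_finrank_of_injective
    (f := E.codRestrict (LinearMap.ker M.mulVecLin) hEk) (by
      intro a b hab
      exact hinj (congrArg Subtype.val hab))
  omega

end Pool.Agent.H884.TF
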