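import Pool.Agent.H884.TF.Sing9

set_option autoImplicit false
set_option linter.unusedSectionVars false

/-!
# Reduced curves with assigned multiplicities at nine generic points and at another point of the
# cubic curve through them
-/

namespace Pool.Agent.H884.TF

open MvPolynomial Pool.Agent.W609 Pool.Agent.W609.CR Pool.Agent.TH167 Pool.Agent.TH167.SH
  Pool.Agent.TH167.DD Pool.Agent.H248R6

variable {K : Type} [Field K] [CharZero K]

/-- A relation which does not involve the tenth point is trivial. -/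
theorem rel_zero {V : Submodule K (Fin 10 → K)}
    (hV : ∀ v : Fin 9 → K, ∃ w ∈ V, ∀ i : Fin 9, w i.succ = v i) {c : Fin 10 → K}
    (hc : ∀ w ∈ V, ∑ j, c j * w j = 0) (h0 : c 0 = 0) : c = 0 := by
  classical
  funext j
  refine Fin.cases h0 (fun i => ?_) j
  obtain ⟨w, hw, hwv⟩ := hV (Pi.single i 1)
  have h1 := hc w hw
  rw [Fin.sum_univ_succ, h0, zero_mul, zero_add, Finset.sum_eq_single i] at h1
  · rw [hwv, Pi.single_eq_same, mul_one] at h1
    exact h1
  · intro b _ hb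
    rw [hwv, Pi.single_eq_of_ne hb, mul_zero]
  · intro h
    exact absurd (Finset.mem_univ _) h

/-- Two relations are proportional. -/
theorem rel_prop {V : Submodule K (Fin 10 → K)}
    (hV : ∀ v : Fin 9 → K, ∃ w ∈ V, ∀ i : Fin 9, w i.succ = v i) {m m' : Fin 10 → ℕ}
    (hm : ∀ w ∈ V, ∑ j, (m j : K) * w j = 0) (hm' : ∀ w ∈ V, ∑ j, (m' j : K) * w j = 0) :
    ∀ j, m' 0 * m j = m 0 * m' j := by
  intro j
  have h1 := rel_zero hV (c := fun j => (m' 0 : K) * m j - (m 0 : K) * m' j) (fun w hw => by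
    have h2 : ∀ j, ((m' 0 : K) * m j - (m 0 : K) * m' j) * w j =
        (m' 0 : K) * (m j * w j) - (m 0 : K) * (m' j * w j) := fun j => by ring
    rw [Finset.sum_congr rfl fun j _ => h2 j, Finset.sum_sub_distrib, ← Finset.mul_sum,
      ← Finset.mul_sum, hm w hw, hm' w hw, mul_zero, mul_zero, sub_zero]) (by ring)
  have h2 := congrFun h1 j
  have h3 : ((m' 0 * m j : ℕ) : K) = ((m 0 * m' j : ℕ) : K) := by
    push_cast
    exact sub_eq_zero.1 h2
  exact_mod_cast h3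

/-- Two classes of `(-2)`-curves with proportional multiplicities meet negatively. -/
theorem two_neg {m m' : Fin 10 → ℕ} {d d' : ℕ} (hp : ∀ j, m' 0 * m j = m 0 * m' j)
    (h0 : m' 0 ≠ 0) (hm : ∑ j, m j = 3 * d) (hm' : ∑ j, m' j = 3 * d')
    (hs : ∑ j, m j * m j = d * d + 2) : d * d' < ∑ j, m j * m' j := by
  have h1 : m' 0 * (3 * d) = m 0 * (3 * d') := by
    rw [← hm, ← hm', Finset.mul_sum, Finset.mul_sum]
    exact Finset.sum_congr rfl fun j _ => hp j
  have h2 : m' 0 * d = m 0 * d' := by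
    have : 3 * (m' 0 * d) = 3 * (m 0 * d') := by linarith
    omega
  have h3 : m' 0 * (d * d + 2) = m 0 * ∑ j, m j * m' j := by
    rw [← hs, Finset.mul_sum, Finset.mul_sum]
    refine Finset.sum_congr rfl fun j _ => ?_
    calc m' 0 * (m j * m j) = (m' 0 * m j) * m j := by ring
      _ = (m 0 * m' j) * m j := by rw [hp]
      _ = _ := by ring
  by_contra hcon
  push Not at hcon
  have h4 : m 0 * ∑ j, m j * m' j ≤ m 0 * (d * d') := Nat.mul_le_mul_left _ hcon
  have h5 : m 0 * (d * d') = m' 0 * (d * d) := by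
    calc m 0 * (d * d') = d * (m 0 * d') := by ring
      _ = d * (m' 0 * d) := by rw [h2]
      _ = _ := by ring
  rw [← h3, h5] at h4
  have h6 : m' 0 * (d * d + 2) = m' 0 * (d * d) + 2 * m' 0 := by ring
  omega

variable [IsAlgClosed K]

/-- A cubic curve through nine generic points is irreducible and smooth there. -/
theorem cubic_irr9 {P : Fin 9 → Fin 2 → K}
    (hP : AlgebraicIndependent ℚ (fun ij : Fin 9 × Fin 2 => P ij.1 ij.2))
    {A : MvPolynomial (Fin 3) K} (hA0 : A ≠ 0) (hA : A.IsHomogeneous 3)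
    (hv : ∀ j, Van (aff (P j)) 1 A) : Irreducible A ∧ ∀ j, Ord (aff (P j)) 1 A := by
  classical
  have h8 : AlgebraicIndependent ℚ (fun ij : Fin 8 × Fin 2 => P ij.1.succ ij.2) := by
    have := hP.comp (fun ij : Fin 8 × Fin 2 => ((ij.1.succ : Fin 9), ij.2)) (by
      rintro ⟨i, b⟩ ⟨i', b'⟩ h
      rw [Prod.mk.injEq] at h
      exact Prod.ext (Fin.succ_injective _ h.1) h.2)
    exact this
  have h8' : AlgebraicIndependent ℚ (fun ij : Fin 8 × Fin 2 => P ij.1.castSucc ij.2) := by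
    have := hP.comp (fun ij : Fin 8 × Fin 2 => ((ij.1.castSucc : Fin 9), ij.2)) (by
      rintro ⟨i, b⟩ ⟨i', b'⟩ h
      rw [Prod.mk.injEq] at h
      exact Prod.ext (Fin.castSucc_injective _ h.1) h.2)
    exact this
  obtain ⟨h1, h2⟩ := cubic_irr (P := fun i => P i.succ) h8 hA0 hA fun j => hv _
  obtain ⟨-, h3⟩ := cubic_irr (P := fun i => P i.castSucc) h8' hA0 hA fun j => hv _
  refine ⟨h1, fun j => ?_⟩
  refine Fin.cases ?_ (fun i => h2 i) j
  exact h3 0

/-- The numerical properties of the components. -/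
theorem comp10 {Q : Fin 10 → Fin 2 → K} (hQ : Function.Injective Q)
    {A : MvPolynomial (Fin 3) K} (hA : Irreducible A) (hA3 : A.IsHomogeneous 3)
    (ha : ∀ j, Ord (aff (Q j)) 1 A) {V : Submodule K (Fin 10 → K)}
    (hV : ∀ v : Fin 9 → K, ∃ w ∈ V, ∀ i : Fin 9, w i.succ = v i)
    (hVr : ∀ (F : MvPolynomial (Fin 3) K) (d : ℕ) (m : Fin 10 → ℕ), 1 ≤ d → F.IsHomogeneous d →
        F ≠ 0 → IsRelPrime A F → (∀ j, Van (aff (Q j)) (m j) F) → ∑ j, m j = 3 * d →
        ∀ w ∈ V, ∑ j, (m j : K) * w j = 0)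
    {g : MvPolynomial (Fin 3) K} {e : ℕ} {w : Fin 10 → ℕ}
    (hg : Irreducible g) (hge : g.IsHomogeneous e) (he : 1 ≤ e)
    (hw : ∀ j, Ord (aff (Q j)) (w j) g) :
    (g ∣ A ∧ A ∣ g ∧ w 0 = 1 ∧ cc e w = -2) ∨
    (¬ A ∣ g ∧ 0 ≤ cc e w) ∨
    (¬ A ∣ g ∧ w 0 ≠ 0 ∧ cc e w = -2 ∧ ∑ j, w j = 3 * e ∧
      ∑ j, w j * w j = e * e + 2) := by
  classical
  by_cases hgA : g ∣ A
  · left
    obtain ⟨u, hu⟩ := hgA
    have hu' : IsUnit u := by
      rcases hA.isUnit_or_isUnit hu with h | h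
      · exact absurd h hg.not_isUnit
      · exact h
    have hw' : ∀ j, w j = 1 := fun j => by
      have h1 := ord_mul (hw j) (od_unit (v := aff (Q j)) hu')
      rw [← hu, add_zero] at h1
      exact ord_unique h1 (ha j)
    have he3 : e = 3 := by
      have h1 : A.totalDegree = 3 := hA3.totalDegree hA.ne_zero
      rw [hu, MvPolynomial.totalDegree_mul_of_isDomain hg.ne_zero hu'.ne_zero,
        hge.totalDegree hg.ne_zero,
        (MvPolynomial.isUnit_iff_totalDegree_of_isReduced.1 hu').2] at h1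
      omega
    refine ⟨⟨u, hu⟩, ?_, hw' 0, ?_⟩
    · obtain ⟨v, hv⟩ := hu'.exists_right_inv
      exact ⟨v, by rw [hu, mul_assoc, hv, mul_one]⟩
    · unfold cc
      rw [he3]
      simp only [hw']
      simp
  right
  have hAg : ¬ A ∣ g := by
    rintro ⟨u, hu⟩
    have hu' : IsUnit u := by
      rcases hg.isUnit_or_isUnit hu with h | h
      · exact absurd h hA.not_isUnit
      · exact h
    obtain ⟨v, hv⟩ := hu'.exists_right_inv
    exact hgA ⟨v, by rw [hu, mul_assoc, hv, mul_one]⟩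
  have hgen := genus hQ hg hge he hw
  have hbz := bez hQ hg hge (fun j => (hw j).1) hA.ne_zero hA3 (fun j => (ha j).1) hgA
  have hle : ∑ j, w j ≤ 3 * e := by
    simp only [mul_one] at hbz
    omega
  have c1 : ((∑ j, w j * w j : ℕ) : ℤ) = ∑ j, (w j : ℤ) * w j := by push_cast; rfl
  have c2 : ((∑ j, w j : ℕ) : ℤ) = ∑ j, (w j : ℤ) := by push_cast; rfl
  have hcc : cc e w = (e : ℤ) * e + 3 * e - ((∑ j, w j * w j : ℕ) : ℤ) -
      ((∑ j, w j : ℕ) : ℤ) := by
    unfold cc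
    rw [c1, c2]
  have hgen' : ((∑ j, w j * w j : ℕ) : ℤ) + 3 * e ≤ e * e + 2 + ((∑ j, w j : ℕ) : ℤ) := by
    exact_mod_cast hgen
  by_cases hlt : ∑ j, w j + 1 ≤ 3 * e
  · left
    refine ⟨hAg, ?_⟩
    rw [hcc]
    have : ((∑ j, w j : ℕ) : ℤ) + 1 ≤ 3 * e := by exact_mod_cast hlt
    linarith
  have heq : ∑ j, w j = 3 * e := by omega
  have hrel := hVr g e w he hge hg.ne_zero ((Irreducible.isRelPrime_iff_not_dvd hA).2 hAg)
    (fun j => (hw j).1) heq
  have h0 : w 0 ≠ 0 := by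
    intro h0
    have h1 := rel_zero hV (c := fun j => (w j : K)) hrel (by
      show ((w 0 : ℕ) : K) = 0
      rw [h0]
      exact Nat.cast_zero)
    have h2 : ∑ j, w j = 0 := Finset.sum_eq_zero fun j _ => by
      have h3 : ((w j : ℕ) : K) = 0 := congrFun h1 j
      exact_mod_cast h3
    omega
  by_cases hcc0 : 0 ≤ cc e w
  · exact Or.inl ⟨hAg, hcc0⟩
  right
  have heq' : ((∑ j, w j : ℕ) : ℤ) = 3 * e := by exact_mod_cast heq
  -- parity
  have hpar : 2 ∣ ∑ j, w j * w j + ∑ j, w j := by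
    rw [← Finset.sum_add_distrib]
    refine Finset.dvd_sum fun j _ => ?_
    have : w j * w j + w j = w j * (w j + 1) := by ring
    rw [this]
    exact (Nat.even_mul_succ_self _).two_dvd
  have hpar2 : 2 ∣ e * e + e := by
    have : e * e + e = e * (e + 1) := by ring
    rw [this]
    exact (Nat.even_mul_succ_self _).two_dvd
  have hsq2 : ∑ j, w j * w j = e * e + 2 := by
    have h1 : ∑ j, w j * w j ≤ e * e + 2 := by
      have : ((∑ j, w j * w j : ℕ) : ℤ) ≤ ((e * e + 2 : ℕ) : ℤ) := by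
        push_cast at hgen' heq' ⊢
        linarith
      exact_mod_cast this
    have h2 : e * e < ∑ j, w j * w j := by
      have : ((e * e : ℕ) : ℤ) < ((∑ j, w j * w j : ℕ) : ℤ) := by
        rw [hcc] at hcc0
        push_cast at hcc0 heq' ⊢
        linarith
      exact_mod_cast this
    generalize ∑ j, w j * w j = S at *
    generalize e * e = T at *
    rw [heq] at hpar
    omega
  refine ⟨hAg, h0, ?_, heq, hsq2⟩
  rw [hcc, heq', hsq2]
  push_cast
  ring

/-- The bound for a family of components. -/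
theorem ten_fam {P : Fin 9 → Fin 2 → K}
    (hP : AlgebraicIndependent ℚ (fun ij : Fin 9 × Fin 2 => P ij.1 ij.2)) {Q : Fin 10 → Fin 2 → K}
    (hQP : ∀ i : Fin 9, Q i.succ = P i) (hQ : Function.Injective Q)
    {A : MvPolynomial (Fin 3) K} {μ : Fin 3 →₀ ℕ} (hA : Irreducible A) (hA3 : A.IsHomogeneous 3)
    (hμ : coeff μ A = 1) (ha : ∀ j, Ord (aff (Q j)) 1 A) {n : ℕ}
    {g : Fin n → MvPolynomial (Fin 3) K} {e : Fin n → ℕ} {w : Fin n → Fin 10 → ℕ}
    (hg : ∀ i, Irreducible (g i)) (hgk : ∀ i k, i ≠ k → ¬ g i ∣ g k)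
    (hge : ∀ i, (g i).IsHomogeneous (e i)) (he : ∀ i, 1 ≤ e i)
    (hw : ∀ i j, Ord (aff (Q j)) (w i j) (g i)) {d : ℕ} (hd : d = ∑ i, e i) {W : Fin 10 → ℕ}
    (hWw : ∀ j, W j = ∑ i, w i j) :
    -4 ≤ cc d W ∧ (W 0 ≤ 1 → -2 ≤ cc d W) := by
  classical
  obtain ⟨V, hV, hVr⟩ := velocities hP hA hA3 hμ hQ hQP ha
  have hWf : W = fun j => ∑ i, w i j := funext hWw
  have hcs := cc_sum e w
  rw [← hd, ← hWf] at hcs
  have hbb : ∀ i k, i ≠ k → 0 ≤ bb (e i) (w i) (e k) (w k) := by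
    intro i k hik
    have h1 := bez hQ (hg i) (hge i) (fun j => (hw i j).1) (hg k).ne_zero (hge k)
      (fun j => (hw k j).1) (hgk i k hik)
    unfold bb
    have h2 : ((∑ j, w i j * w k j : ℕ) : ℤ) ≤ ((e i * e k : ℕ) : ℤ) := by exact_mod_cast h1
    push_cast at h2
    linarith
  have hcomp := fun i => comp10 hQ hA hA3 ha hV hVr (hg i) (hge i) (he i) (hw i)
  let T1 : Finset (Fin n) := Finset.univ.filter fun i => A ∣ g i
  let T2 : Finset (Fin n) := Finset.univ.filter fun i => ¬ A ∣ g i ∧ cc (e i) (w i) < 0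
  have hT1 : ∀ i, i ∈ T1 ↔ A ∣ g i := fun i => by
    show i ∈ Finset.univ.filter (fun i => A ∣ g i) ↔ _
    rw [Finset.mem_filter]
    simp
  have hT2 : ∀ i, i ∈ T2 ↔ ¬ A ∣ g i ∧ cc (e i) (w i) < 0 := fun i => by
    show i ∈ Finset.univ.filter (fun i => ¬ A ∣ g i ∧ cc (e i) (w i) < 0) ↔ _
    rw [Finset.mem_filter]
    simp
  have h1 : ∀ i ∈ T1, g i ∣ A ∧ w i 0 = 1 ∧ cc (e i) (w i) = -2 := by
    intro i hi
    rw [hT1] at hi
    rcases hcomp i with ⟨h1, -, h2, h3⟩ | ⟨h, -⟩ | ⟨h, -⟩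
    · exact ⟨h1, h2, h3⟩
    · exact absurd hi h
    · exact absurd hi h
  have h2 : ∀ i ∈ T2, w i 0 ≠ 0 ∧ cc (e i) (w i) = -2 ∧ ∑ j, w i j = 3 * e i ∧
      ∑ j, w i j * w i j = e i * e i + 2 := by
    intro i hi
    rw [hT2] at hi
    rcases hcomp i with ⟨-, h, -⟩ | ⟨-, h⟩ | ⟨-, h⟩
    · exact absurd h hi.1
    · omega
    · exact h
  have hc1 : T1.card ≤ 1 := by
    rw [Finset.card_le_one]
    intro i hi k hk
    by_contra hne
    exact hgk i k hne ((h1 i hi).1.trans ((hT1 k).1 hk))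
  have hc2 : T2.card ≤ 1 := by
    rw [Finset.card_le_one]
    intro i hi k hk
    by_contra hne
    obtain ⟨a1, -, a3, a4⟩ := h2 i hi
    obtain ⟨b1, -, b3, -⟩ := h2 k hk
    have r1 := hVr (g i) (e i) (w i) (he i) (hge i) (hg i).ne_zero
      ((Irreducible.isRelPrime_iff_not_dvd hA).2 ((hT2 i).1 hi).1) (fun j => (hw i j).1) a3
    have r2 := hVr (g k) (e k) (w k) (he k) (hge k) (hg k).ne_zero
      ((Irreducible.isRelPrime_iff_not_dvd hA).2 ((hT2 k).1 hk).1) (fun j => (hw k j).1) b3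
    have h3 := two_neg (rel_prop hV r1 r2) b1 a3 b3 a4
    have h4 := hbb i k hne
    unfold bb at h4
    have h5 : ((e i * e k : ℕ) : ℤ) < ((∑ j, w i j * w k j : ℕ) : ℤ) := by exact_mod_cast h3
    push_cast at h5
    linarith
  have hsum : ∑ i, cc (e i) (w i) ≥ -2 * (T1.card : ℤ) - 2 * (T2.card : ℤ) := by
    have e1 : ∀ i, (if i ∈ T1 then (-2 : ℤ) else 0) + (if i ∈ T2 then (-2 : ℤ) else 0) ≤
        cc (e i) (w i) := by
      intro i
      rcases hcomp i with ⟨-, h3, -, h4⟩ | ⟨h3, h4⟩ | ⟨h3, -, h4, -⟩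
      · rw [if_pos ((hT1 i).2 h3), if_neg (fun h => ((hT2 i).1 h).1 h3), h4]
        norm_num
      · rw [if_neg (fun h => h3 ((hT1 i).1 h)), if_neg (fun h => by
          have := ((hT2 i).1 h).2
          omega)]
        linarith
      · rw [if_neg (fun h => h3 ((hT1 i).1 h)), if_pos ((hT2 i).2 ⟨h3, by omega⟩), h4]
        norm_num
    have e2 := Finset.sum_le_sum (s := (Finset.univ : Finset (Fin n))) fun i _ => e1 i
    rw [Finset.sum_add_distrib, Finset.sum_ite_mem, Finset.sum_ite_mem, Finset.univ_inter,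
      Finset.univ_inter, Finset.sum_const, Finset.sum_const, nsmul_eq_mul, nsmul_eq_mul] at e2
    linarith
  have hnn : 0 ≤ ∑ i, ∑ k ∈ Finset.univ.erase i, bb (e i) (w i) (e k) (w k) :=
    Finset.sum_nonneg fun i _ => Finset.sum_nonneg fun k hk =>
      hbb i k (Finset.mem_erase.1 hk).1.symm
  constructor
  · have c1 : (T1.card : ℤ) ≤ 1 := by exact_mod_cast hc1
    have c2 : (T2.card : ℤ) ≤ 1 := by exact_mod_cast hc2
    linarith
  · intro hW1
    have hdis : Disjoint T1 T2 := by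
      rw [Finset.disjoint_left]
      intro i hi hi2
      exact ((hT2 i).1 hi2).1 ((hT1 i).1 hi)
    have hTc : T1.card + T2.card ≤ 1 := by
      rw [← Finset.card_union_of_disjoint hdis]
      have e1 : (T1 ∪ T2).card ≤ ∑ i ∈ T1 ∪ T2, w i 0 := by
        rw [Finset.card_eq_sum_ones]
        refine Finset.sum_le_sum fun i hi => ?_
        rcases Finset.mem_union.1 hi with hi | hi
        · rw [(h1 i hi).2.1]
        · exact Nat.one_le_iff_ne_zero.2 (h2 i hi).1
      have e2 : ∑ i ∈ T1 ∪ T2, w i 0 ≤ ∑ i, w i 0 :=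
        Finset.sum_le_sum_of_subset_of_nonneg (Finset.subset_univ _) fun _ _ _ => Nat.zero_le _
      rw [← hWw] at e2
      omega
    have c1 : (T1.card : ℤ) + (T2.card : ℤ) ≤ 1 := by exact_mod_cast hTc
    linarith

/-- The bound for nine generic points and a point of a cubic curve through them. -/
theorem ten_bound {P : Fin 9 → Fin 2 → K}
    (hP : AlgebraicIndependent ℚ (fun ij : Fin 9 × Fin 2 => P ij.1 ij.2)) {Q : Fin 10 → Fin 2 → K}
    (hQP : ∀ i : Fin 9, Q i.succ = P i) (hQ : Function.Injective Q)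
    {B : MvPolynomial (Fin 3) K} (hB0 : B ≠ 0) (hB : B.IsHomogeneous 3)
    (hBv : ∀ j, Van (aff (Q j)) 1 B)
    {F : MvPolynomial (Fin 3) K} {d : ℕ} (hF0 : F ≠ 0) (hF : F.IsHomogeneous d)
    (hsq : Squarefree F) {W : Fin 10 → ℕ} (hW : ∀ j, Ord (aff (Q j)) (W j) F) :
    -4 ≤ cc d W ∧ (W 0 ≤ 1 → -2 ≤ cc d W) := by
  classical
  obtain ⟨c, μ, hc, hμ, hcA⟩ := TT.exists_norm (w := fun _ => 1) ((mem_VS _ _ _ _).2
    ⟨hB, hBv⟩) hB0
  obtain ⟨A, hA⟩ : ∃ A, A = C c * B := ⟨_, rfl⟩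
  rw [← hA] at hμ hcA
  obtain ⟨hA3, hAv⟩ := (mem_VS _ _ _ _).1 hcA
  have hA0 : A ≠ 0 := by
    rintro h
    rw [h, coeff_zero] at hμ
    exact zero_ne_one hμ
  obtain ⟨hirr, hord⟩ := cubic_irr9 hP hA0 hA3 (fun i => by
    have := hAv i.succ
    rwa [hQP] at this)
  have ho : ∀ i : Fin 9, Ord (aff (Q i.succ)) 1 A := fun i => by
    rw [hQP]
    exact hord i
  -- the tenth point is a smooth point of the cubic curve
  have ha2 : ¬ Van (aff (Q 0)) 2 A := fun h => no_sing hP hirr hA3 hμ hord h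
  have ha' : ∀ j, Ord (aff (Q j)) 1 A := fun j => by
    refine Fin.cases ?_ (fun i => ho i) j
    exact ⟨hAv 0, ha2⟩
  obtain ⟨n, g, e, w, hg, hgk, hge, he, hw, hd, hWw⟩ := factor hF0 hF hsq hW
  exact ten_fam hP hQP hQ hirr hA3 hμ ha' hg hgk hge he hw hd hWw

end Pool.Agent.H884.TF
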