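import Pool.Agent.H884.TF.Lin2
import Pool.Agent.H884.TF.Gen8
import Pool.Agent.H884.TF.Comb

set_option autoImplicit false
set_option linter.unusedSectionVars false

/-!
# Reduced curves with assigned multiplicities at nine points, eight of which are generic
-/

namespace Pool.Agent.H884.TF

open MvPolynomial Pool.Agent.W609 Pool.Agent.W609.CR Pool.Agent.TH167 Pool.Agent.TH167.SH
  Pool.Agent.TH167.DD Pool.Agent.H248R6

variable {K : Type} [Field K] [CharZero K] [IsAlgClosed K]

theorem od_unit {v : Fin 3 → K} {f : MvPolynomial (Fin 3) K} (hf : IsUnit f) : Ord v 0 f := by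
  obtain ⟨g, hg⟩ := hf.exists_right_inv
  rw [ord_iff]
  have h1 : od v 1 = 0 := by
    have h2 : Ord v 0 (1 : MvPolynomial (Fin 3) K) := by
      refine ⟨van_zero _ _, fun h => ?_⟩
      rw [zero_add, SH.van_one, map_one] at h
      exact one_ne_zero h
    rw [(ord_iff _ _ _).1 h2]
    rfl
  rw [← hg, od_mul] at h1
  rw [(add_eq_zero.1 h1).1]
  rfl

/-- The factors of a squarefree form. -/
theorem factor {F : MvPolynomial (Fin 3) K} {d : ℕ} (hF0 : F ≠ 0) (hF : F.IsHomogeneous d)
    (hsq : Squarefree F) {s : ℕ} {Q : Fin s → Fin 2 → K} {W : Fin s → ℕ}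
    (hW : ∀ j, Ord (aff (Q j)) (W j) F) :
    ∃ (n : ℕ) (g : Fin n → MvPolynomial (Fin 3) K) (e : Fin n → ℕ) (w : Fin n → Fin s → ℕ),
      (∀ i, Irreducible (g i)) ∧ (∀ i k, i ≠ k → ¬ g i ∣ g k) ∧ (∀ i, (g i).IsHomogeneous (e i)) ∧
      (∀ i, 1 ≤ e i) ∧ (∀ i j, Ord (aff (Q j)) (w i j) (g i)) ∧ d = ∑ i, e i ∧
      ∀ j, W j = ∑ i, w i j := by
  classical
  obtain ⟨f, hf, hfF⟩ := UniqueFactorizationMonoid.exists_prime_factors F hF0
  obtain ⟨l, rfl⟩ : ∃ l : List (MvPolynomial (Fin 3) K), (l : Multiset _) = f := Quot.exists_rep f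
  obtain ⟨u, hu⟩ := hfF
  rw [Multiset.prod_coe] at hu
  have hprod : l.prod = ∏ i : Fin l.length, l.get i := by
    conv_lhs => rw [← List.ofFn_get l, List.prod_ofFn]
  have hp : ∀ i : Fin l.length, Prime (l.get i) := fun i =>
    hf _ (Multiset.mem_coe.2 (List.get_mem l i))
  have hdvd : ∀ i : Fin l.length, l.get i ∣ F := fun i => by
    rw [← hu, hprod]
    exact (Finset.dvd_prod_of_mem _ (Finset.mem_univ i)).mul_right _
  have hdeg := fun i : Fin l.length => deg_of_not_unit hF hF0 (hdvd i) (hp i).not_isUnit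
  have hne : ∀ i : Fin l.length, l.get i ≠ 0 := fun i => (hp i).ne_zero
  choose w hw using fun (i : Fin l.length) (j : Fin s) =>
    TT.exists_ord (p := Q j) (hne i) (hdeg i).1
  refine ⟨l.length, fun i => l.get i, fun i => (l.get i).totalDegree, w, fun i => (hp i).irreducible,
    ?_, fun i => (hdeg i).1, fun i => (hdeg i).2, hw, ?_, ?_⟩
  · intro i k hik hdv
    have h1 : l.get i * l.get i ∣ F := by
      rw [← hu, hprod]
      refine Dvd.dvd.mul_right ?_ _
      rw [← Finset.mul_prod_erase _ _ (Finset.mem_univ i)]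
      refine mul_dvd_mul_left _ (hdv.trans ?_)
      exact Finset.dvd_prod_of_mem _ (Finset.mem_erase.2 ⟨hik.symm, Finset.mem_univ k⟩)
    exact (hp i).not_isUnit (hsq _ h1)
  · have h1 : (∏ i : Fin l.length, l.get i).IsHomogeneous
        (∑ i : Fin l.length, (l.get i).totalDegree) :=
      IsHomogeneous.prod _ _ _ fun i _ => (hdeg i).1
    have h2 : (u : MvPolynomial (Fin 3) K).IsHomogeneous 0 := by
      have h3 := (MvPolynomial.isUnit_iff_totalDegree_of_isReduced.1 u.isUnit).2
      rw [MvPolynomial.totalDegree_eq_zero_iff_eq_C.1 h3]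
      exact isHomogeneous_C _ _
    have h3 := h1.mul h2
    rw [← hprod, hu, add_zero] at h3
    exact hF.inj_right h3 hF0
  · intro j
    have h1 : ∀ S : Finset (Fin l.length), Ord (aff (Q j)) (∑ i ∈ S, w i j)
        (∏ i ∈ S, l.get i) := by
      intro S
      induction S using Finset.induction_on with
      | empty =>
        rw [Finset.sum_empty, Finset.prod_empty]
        exact od_unit isUnit_one
      | insert a S ha ih =>
        rw [Finset.sum_insert ha, Finset.prod_insert ha]
        exact ord_mul (hw a j) ih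
    have h2 := ord_mul (h1 Finset.univ) (od_unit u.isUnit)
    rw [← hprod, hu, add_zero] at h2
    exact ord_unique (hW j) h2

/-- The cubic curve through eight generic points and another point. -/
theorem exists_A {P : Fin 8 → Fin 2 → K}
    (hP : AlgebraicIndependent ℚ (fun ij : Fin 8 × Fin 2 => P ij.1 ij.2)) {Q : Fin 9 → Fin 2 → K}
    (hQP : ∀ i : Fin 8, Q i.succ = P i) :
    ∃ (A : MvPolynomial (Fin 3) K) (μ : Fin 3 →₀ ℕ) (a : Fin 9 → ℕ), Irreducible A ∧
      A.IsHomogeneous 3 ∧ coeff μ A = 1 ∧ (∀ j, Ord (aff (Q j)) (a j) A) ∧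
      (∀ i : Fin 8, a i.succ = 1) ∧ (a 0 = 1 ∨ a 0 = 2) := by
  classical
  obtain ⟨A0, hA00, hA0h, hA0v⟩ := exists_cubic Q
  obtain ⟨c, μ, hc, hμ, hcA⟩ := TT.exists_norm (w := fun _ => 1) ((mem_VS _ _ _ _).2
    ⟨hA0h, hA0v⟩) hA00
  obtain ⟨A, hA⟩ : ∃ A, A = C c * A0 := ⟨_, rfl⟩
  rw [← hA] at hμ hcA
  obtain ⟨hA3, hAv⟩ := (mem_VS _ _ _ _).1 hcA
  have hA0 : A ≠ 0 := by
    rintro h
    rw [h, coeff_zero] at hμ
    exact zero_ne_one hμ
  obtain ⟨hirr, hord⟩ := cubic_irr hP hA0 hA3 (fun i => by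
    have := hAv i.succ
    rwa [hQP] at this)
  choose a ha using fun j => TT.exists_ord (p := Q j) hA0 hA3
  refine ⟨A, μ, a, hirr, hA3, hμ, ha, fun i => ?_, ?_⟩
  · have h1 := hord i
    rw [← hQP] at h1
    exact ord_unique (ha _) h1
  · have h1 := ord_pos (ha 0) (hAv 0)
    have h2 := ord_lt hirr hA3 (by norm_num) (ha 0).1
    omega

/-- The numerical properties of the components. -/
theorem comp_irr {P : Fin 8 → Fin 2 → K}
    (hP : AlgebraicIndependent ℚ (fun ij : Fin 8 × Fin 2 => P ij.1 ij.2)) {Q : Fin 9 → Fin 2 → K}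
    (hQP : ∀ i : Fin 8, Q i.succ = P i) (hQ : Function.Injective Q)
    {A : MvPolynomial (Fin 3) K} {a : Fin 9 → ℕ} (hA : Irreducible A) (hA3 : A.IsHomogeneous 3)
    (ha : ∀ j, Ord (aff (Q j)) (a j) A) (ha1 : ∀ i : Fin 8, a i.succ = 1)
    (ha0 : a 0 = 1 ∨ a 0 = 2) {g : MvPolynomial (Fin 3) K} {e : ℕ} {w : Fin 9 → ℕ}
    (hg : Irreducible g) (hge : g.IsHomogeneous e) (he : 1 ≤ e)
    (hw : ∀ j, Ord (aff (Q j)) (w j) g) :
    (g ∣ A ∧ cc e w = if a 0 = 1 then 0 else -4) ∨
    (¬ A ∣ g ∧ 0 ≤ cc e w) ∨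
    (¬ A ∣ g ∧ a 0 = 1 ∧ w 0 ≠ 0 ∧ cc e w = -2 ∧ ∑ j, w j = 3 * e ∧
      ∑ j, w j * w j = e * e + 2) := by
  classical
  by_cases hgA : g ∣ A
  · left
    refine ⟨hgA, ?_⟩
    obtain ⟨u, hu⟩ := hgA
    have hu' : IsUnit u := by
      rcases hA.isUnit_or_isUnit hu with h | h
      · exact absurd h hg.not_isUnit
      · exact h
    have hw' : ∀ j, w j = a j := fun j => by
      have h1 := ord_mul (hw j) (od_unit (v := aff (Q j)) hu')
      rw [← hu, add_zero] at h1
      exact ord_unique h1 (ha j)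
    have he3 : e = 3 := by
      have h1 : A.totalDegree = 3 := hA3.totalDegree hA.ne_zero
      rw [hu, MvPolynomial.totalDegree_mul_of_isDomain hg.ne_zero hu'.ne_zero,
        hge.totalDegree hg.ne_zero,
        (MvPolynomial.isUnit_iff_totalDegree_of_isReduced.1 hu').2] at h1
      omega
    have hwf : w = a := funext hw'
    unfold cc
    rw [he3, hwf, Fin.sum_univ_succ (fun j => (a j : ℤ) * a j),
      Fin.sum_univ_succ (fun j => (a j : ℤ))]
    simp only [ha1]
    rcases ha0 with h | h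
    · rw [if_pos h, h]
      simp
    · rw [if_neg (by omega), h]
      simp
  right
  have hAg : ¬ A ∣ g := by
    rintro ⟨u, hu⟩
    have hu' : IsUnit u := by
      rcases hg.isUnit_or_isUnit hu with h | h
      · exact absurd h hA.not_isUnit
      · exact h
    obtain ⟨v, hv⟩ := hu'.exists_right_inv
    exact hgA ⟨v, by rw [hu, mul_assoc, hv, mul_one]⟩
  have hgen := genus hQ hg hge he hw
  have h8 := kk_irr hP hg hge he (w := fun i => w i.succ) (fun i => by
    rw [← hQP]
    exact hw _)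
  have hbz := bez hQ hg hge (fun j => (hw j).1) hA.ne_zero hA3 (fun j => (ha j).1) hgA
  rw [Fin.sum_univ_succ] at hbz
  simp only [ha1, mul_one] at hbz
  have hs : ∑ j, w j = w 0 + ∑ i : Fin 8, w i.succ := Fin.sum_univ_succ _
  have c1 : ((∑ j, w j * w j : ℕ) : ℤ) = ∑ j, (w j : ℤ) * w j := by push_cast; rfl
  have c2 : ((∑ j, w j : ℕ) : ℤ) = ∑ j, (w j : ℤ) := by push_cast; rfl
  have hcc : cc e w = (e : ℤ) * e + 3 * e - ((∑ j, w j * w j : ℕ) : ℤ) -
      ((∑ j, w j : ℕ) : ℤ) := by
    unfold cc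
    rw [c1, c2]
  have hgen' : ((∑ j, w j * w j : ℕ) : ℤ) + 3 * e ≤ e * e + 2 + ((∑ j, w j : ℕ) : ℤ) := by
    exact_mod_cast hgen
  have hle : ∑ j, w j ≤ 3 * e := by
    rcases ha0 with h | h
    · rw [h] at hbz
      omega
    · rw [h] at hbz
      omega
  by_cases hlt : ∑ j, w j + 1 ≤ 3 * e
  · left
    refine ⟨hAg, ?_⟩
    rw [hcc]
    have : ((∑ j, w j : ℕ) : ℤ) + 1 ≤ 3 * e := by exact_mod_cast hlt
    linarith
  have heq : ∑ j, w j = 3 * e := by omega
  have h0 : w 0 ≠ 0 := by omega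
  have ha01 : a 0 = 1 := by
    rcases ha0 with h | h
    · exact h
    · rw [h] at hbz
      omega
  by_cases hcc0 : 0 ≤ cc e w
  · exact Or.inl ⟨hAg, hcc0⟩
  right
  have heq' : ((∑ j, w j : ℕ) : ℤ) = 3 * e := by exact_mod_cast heq
  -- parity
  have hpar : 2 ∣ ∑ j, w j * w j + ∑ j, w j := by
    rw [← Finset.sum_add_distrib]
    refine Finset.dvd_sum fun j _ => ?_
    have : w j * w j + w j = w j * (w j + 1) := by ring
    rw [this]
    exact (Nat.even_mul_succ_self _).two_dvd
  have hpar2 : 2 ∣ e * e + e := by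
    have : e * e + e = e * (e + 1) := by ring
    rw [this]
    exact (Nat.even_mul_succ_self _).two_dvd
  have hsq2 : ∑ j, w j * w j = e * e + 2 := by
    have h1 : ∑ j, w j * w j ≤ e * e + 2 := by
      have : ((∑ j, w j * w j : ℕ) : ℤ) ≤ ((e * e + 2 : ℕ) : ℤ) := by
        push_cast at hgen' heq' ⊢
        linarith
      exact_mod_cast this
    have h2 : e * e < ∑ j, w j * w j := by
      have : ((e * e : ℕ) : ℤ) < ((∑ j, w j * w j : ℕ) : ℤ) := by
        rw [hcc] at hcc0
        push_cast at hcc0 heq' ⊢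
        linarith
      exact_mod_cast this
    generalize ∑ j, w j * w j = S at *
    generalize e * e = T at *
    rw [heq] at hpar
    omega
  refine ⟨hAg, ha01, h0, ?_, heq, hsq2⟩
  rw [hcc, heq', hsq2]
  push_cast
  ring

/-- The bound for nine points, eight of which are generic: a family of components. -/
theorem nine_fam {P : Fin 8 → Fin 2 → K}
    (hP : AlgebraicIndependent ℚ (fun ij : Fin 8 × Fin 2 => P ij.1 ij.2)) {Q : Fin 9 → Fin 2 → K}
    (hQP : ∀ i : Fin 8, Q i.succ = P i) (hQ : Function.Injective Q) {n : ℕ}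
    {g : Fin n → MvPolynomial (Fin 3) K} {e : Fin n → ℕ} {w : Fin n → Fin 9 → ℕ}
    (hg : ∀ i, Irreducible (g i)) (hgk : ∀ i k, i ≠ k → ¬ g i ∣ g k)
    (hge : ∀ i, (g i).IsHomogeneous (e i)) (he : ∀ i, 1 ≤ e i)
    (hw : ∀ i j, Ord (aff (Q j)) (w i j) (g i)) {d : ℕ} (hd : d = ∑ i, e i) {W : Fin 9 → ℕ}
    (hWw : ∀ j, W j = ∑ i, w i j) :
    -4 ≤ cc d W ∧ (W 0 ≤ 1 → -2 ≤ cc d W) := by
  classical
  obtain ⟨A, μ, a, hA, hA3, hμ, ha, ha1, ha0⟩ := exists_A hP hQP
  have hWf : W = fun j => ∑ i, w i j := funext hWw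
  have hcs := cc_sum e w
  rw [← hd, ← hWf] at hcs
  have hbb : ∀ i k, i ≠ k → 0 ≤ bb (e i) (w i) (e k) (w k) := by
    intro i k hik
    have h1 := bez hQ (hg i) (hge i) (fun j => (hw i j).1) (hg k).ne_zero (hge k)
      (fun j => (hw k j).1) (hgk i k hik)
    unfold bb
    have h2 : ((∑ j, w i j * w k j : ℕ) : ℤ) ≤ ((e i * e k : ℕ) : ℤ) := by exact_mod_cast h1
    push_cast at h2
    linarith
  have hcomp := fun i => comp_irr hP hQP hQ hA hA3 ha ha1 ha0 (hg i) (hge i) (he i) (hw i)
  have hsnn : ∀ T : Finset (Fin n), 0 ≤ ∑ i ∈ T, ∑ k ∈ T.erase i, bb (e i) (w i) (e k) (w k) :=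
    fun T => Finset.sum_nonneg fun i _ => Finset.sum_nonneg fun k hk =>
      hbb i k (Finset.mem_erase.1 hk).1.symm
  have hpar : (2 : ℤ) ∣ cc d W := by
    have h1 : ∀ m : ℕ, (2 : ℤ) ∣ (m : ℤ) * m + m := fun m => by
      have h2 : (2 : ℕ) ∣ m * (m + 1) := (Nat.even_mul_succ_self _).two_dvd
      have h3 : ((2 : ℕ) : ℤ) ∣ ((m * (m + 1) : ℕ) : ℤ) := by exact_mod_cast h2
      push_cast at h3
      rwa [mul_add, mul_one] at h3
    have h2 : cc d W = ((d : ℤ) * d + d) + 2 * d - ∑ j, ((W j : ℤ) * W j + W j) := by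
      unfold cc
      rw [Finset.sum_add_distrib]
      ring
    rw [h2]
    exact dvd_sub (dvd_add (h1 d) (dvd_mul_right _ _)) (Finset.dvd_sum fun j _ => h1 _)
  rcases ha0 with ha01 | ha02
  · -- the cubic curve is smooth at the ninth point
    let T : Finset (Fin n) := Finset.univ.filter fun i => cc (e i) (w i) < 0
    have hT : ∀ i, i ∈ T ↔ cc (e i) (w i) < 0 := fun i => by
      show i ∈ Finset.univ.filter (fun i => cc (e i) (w i) < 0) ↔ _
      rw [Finset.mem_filter]
      simp
    have hneg : ∀ i ∈ T, ¬ A ∣ g i ∧ w i 0 ≠ 0 ∧ cc (e i) (w i) = -2 ∧ ∑ j, w i j = 3 * e i ∧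
        ∑ j, w i j * w i j = e i * e i + 2 := by
      intro i hi
      rw [hT] at hi
      rcases hcomp i with ⟨-, h⟩ | ⟨-, h⟩ | ⟨h1, -, h2, h3, h4, h5⟩
      · rw [if_pos ha01] at h
        omega
      · omega
      · exact ⟨h1, h2, h3, h4, h5⟩
    have hc1 : ∑ i, cc (e i) (w i) ≥ -2 * (T.card : ℤ) := by
      rw [← Finset.sum_filter_add_sum_filter_not Finset.univ (fun i => cc (e i) (w i) < 0)]
      have h1 : ∑ i ∈ T, cc (e i) (w i) = -2 * (T.card : ℤ) := by
        rw [Finset.sum_congr rfl fun i hi => (hneg i hi).2.2.1, Finset.sum_const, nsmul_eq_mul]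
        ring
      have h2 : 0 ≤ ∑ i ∈ Finset.univ.filter (fun i => ¬ cc (e i) (w i) < 0), cc (e i) (w i) :=
        Finset.sum_nonneg fun i hi => by
          rw [Finset.mem_filter] at hi
          omega
      have h3 : ∑ i ∈ Finset.univ.filter (fun i => cc (e i) (w i) < 0), cc (e i) (w i) =
          -2 * (T.card : ℤ) := h1
      linarith
    have hc2 : ∑ i ∈ T, ∑ k ∈ T.erase i, bb (e i) (w i) (e k) (w k) ≤
        ∑ i, ∑ k ∈ Finset.univ.erase i, bb (e i) (w i) (e k) (w k) := by
      refine (Finset.sum_le_sum fun i _ => ?_).trans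
        (Finset.sum_le_sum_of_subset_of_nonneg (Finset.subset_univ T) fun i _ _ =>
          Finset.sum_nonneg fun k hk => hbb i k (Finset.mem_erase.1 hk).1.symm)
      exact Finset.sum_le_sum_of_subset_of_nonneg
        (Finset.erase_subset_erase i (Finset.subset_univ T)) fun k hk _ =>
          hbb i k (Finset.mem_erase.1 hk).1.symm
    constructor
    · by_contra hcon
      have h6 : cc d W ≤ -6 := by omega
      obtain ⟨i, hi, j, hj, k, hk, hij, hik, hjk, b1, b2, b3⟩ := three_free
        (fun i k => bb (e i) (w i) (e k) (w k)) (fun i k => bb_comm _ _ _ _) hbb T.card T rfl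
        (by linarith)
      have hz : ∀ a b, bb (e a) (w a) (e b) (w b) = 0 → ∑ l, w a l * w b l = e a * e b := by
        intro a b h
        unfold bb at h
        have h1 : ((∑ l, w a l * w b l : ℕ) : ℤ) = ((e a * e b : ℕ) : ℤ) := by
          push_cast
          linarith
        exact_mod_cast h1
      have hz' : ∀ a b, bb (e a) (w a) (e b) (w b) = 0 → ∑ l, w b l * w a l = e b * e a := by
        intro a b h
        rw [mul_comm (e b), ← hz a b h]
        exact Finset.sum_congr rfl fun l _ => mul_comm _ _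
      let v : Fin 3 → Fin n := ![i, j, k]
      have hv : ∀ c, v c ∈ T := by
        intro c
        fin_cases c
        · exact hi
        · exact hj
        · exact hk
      refine no_three hP hA hA3 hμ hQ hQP (fun l => ?_) (F := fun c => g (v c))
        (d := fun c => e (v c)) (fun c => he _) (fun c => hge _) (fun c => (hg _).ne_zero)
        (fun c => (Irreducible.isRelPrime_iff_not_dvd hA).2 (hneg _ (hv c)).1)
        (m := fun c => w (v c)) (fun c l => (hw _ l).1) (fun c => (hneg _ (hv c)).2.2.2.1) ?_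
      · have h1 : a l = 1 := by
          refine Fin.cases ha01 (fun i => ha1 i) l
        rw [← h1]
        exact ha l
      · have hself := fun i hi => (hneg i hi).2.2.2.2
        intro c c'
        fin_cases c <;> fin_cases c'
        · simpa [v] using hself i hi
        · simpa [v] using hz i j b1
        · simpa [v] using hz i k b2
        · simpa [v] using hz' i j b1
        · simpa [v] using hself j hj
        · simpa [v] using hz j k b3
        · simpa [v] using hz' i k b2
        · simpa [v] using hz' j k b3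
        · simpa [v] using hself k hk
    · intro hW1
      have hTc : T.card ≤ 1 := by
        have h1 : T.card ≤ ∑ i ∈ T, w i 0 := by
          rw [Finset.card_eq_sum_ones]
          exact Finset.sum_le_sum fun i hi => Nat.one_le_iff_ne_zero.2 (hneg i hi).2.1
        have h2 : ∑ i ∈ T, w i 0 ≤ ∑ i, w i 0 :=
          Finset.sum_le_sum_of_subset_of_nonneg (Finset.subset_univ T) fun _ _ _ => Nat.zero_le _
        rw [← hWw] at h2
        omega
      have h3 := hsnn Finset.univ
      have h4 : (T.card : ℤ) ≤ 1 := by exact_mod_cast hTc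
      linarith
  · -- the cubic curve is singular at the ninth point
    have hor : ∀ i, (g i ∣ A ∧ cc (e i) (w i) = -4) ∨ 0 ≤ cc (e i) (w i) := by
      intro i
      rcases hcomp i with ⟨h1, h⟩ | ⟨-, h⟩ | ⟨h1, h, -⟩
      · left
        rw [if_neg (by omega)] at h
        exact ⟨h1, h⟩
      · exact Or.inr h
      · omega
    have h3 := hsnn Finset.univ
    by_cases hex : ∃ i, g i ∣ A
    · obtain ⟨i, hi⟩ := hex
      have h4 : 0 ≤ ∑ k ∈ Finset.univ.erase i, cc (e k) (w k) := by
        refine Finset.sum_nonneg fun k hk => ?_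
        rcases hor k with ⟨h5, -⟩ | h5
        · exfalso
          -- both are associated to `A`
          refine hgk i k (Finset.mem_erase.1 hk).1.symm ?_
          have h6 : A ∣ g k := by
            obtain ⟨u, hu⟩ := h5
            have hu' : IsUnit u := by
              rcases hA.isUnit_or_isUnit hu with h | h
              · exact absurd h (hg k).not_isUnit
              · exact h
            obtain ⟨v, hv⟩ := hu'.exists_right_inv
            exact ⟨v, by rw [hu, mul_assoc, hv, mul_one]⟩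
          exact hi.trans h6
        · exact h5
      have h5 : -4 ≤ cc (e i) (w i) := by
        rcases hor i with ⟨-, h⟩ | h <;> omega
      have h6 := Finset.add_sum_erase Finset.univ (fun k => cc (e k) (w k)) (Finset.mem_univ i)
      refine ⟨by linarith, fun hW1 => ?_⟩
      -- the component `A` has a double point
      exfalso
      have h7 : w i 0 = 2 := by
        obtain ⟨u, hu⟩ := hi
        have hu' : IsUnit u := by
          rcases hA.isUnit_or_isUnit hu with h | h
          · exact absurd h (hg i).not_isUnit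
          · exact h
        have h1 := ord_mul (hw i 0) (od_unit (v := aff (Q 0)) hu')
        rw [← hu, add_zero] at h1
        rw [ord_unique h1 (ha 0), ha02]
      have h8 := Finset.single_le_sum (f := fun i => w i 0) (fun _ _ => Nat.zero_le _)
        (Finset.mem_univ i)
      rw [← hWw] at h8
      omega
    · push Not at hex
      have h4 : 0 ≤ ∑ k, cc (e k) (w k) := Finset.sum_nonneg fun k _ => by
        rcases hor k with ⟨h5, -⟩ | h5
        · exact absurd h5 (hex k)
        · exact h5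
      exact ⟨by linarith, fun _ => by linarith⟩

/-- The bound for nine points, eight of which are generic. -/
theorem nine_bound {P : Fin 8 → Fin 2 → K}
    (hP : AlgebraicIndependent ℚ (fun ij : Fin 8 × Fin 2 => P ij.1 ij.2)) {Q : Fin 9 → Fin 2 → K}
    (hQP : ∀ i : Fin 8, Q i.succ = P i) (hQ : Function.Injective Q)
    {F : MvPolynomial (Fin 3) K} {d : ℕ} (hF0 : F ≠ 0) (hF : F.IsHomogeneous d)
    (hsq : Squarefree F) {W : Fin 9 → ℕ} (hW : ∀ j, Ord (aff (Q j)) (W j) F) :
    -4 ≤ cc d W ∧ (W 0 ≤ 1 → -2 ≤ cc d W) := by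
  obtain ⟨n, g, e, w, hg, hgk, hge, he, hw, hd, hWw⟩ := factor hF0 hF hsq hW
  exact nine_fam hP hQP hQ hg hgk hge he hw hd hWw

end Pool.Agent.H884.TF
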