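import Pool.Agent.H884.TF.Proj10
import Pool.Agent.H884.TF.Ext

set_option autoImplicit false
set_option linter.unusedSectionVars false

/-!
# Nine very general points
-/

namespace Pool.Agent.H884.TF

open MvPolynomial Pool.Agent.W609 Pool.Agent.W609.CR Pool.Agent.TH167 Pool.Agent.TH167.SH
  Pool.Agent.TH167.DD Pool.Agent.H248R6

/-- The bound for nine generic points and a point of the cubic curve through them. -/
theorem nine {P : Fin 9 → Fin 2 → ℂ}
    (hP : AlgebraicIndependent ℚ (fun ij : Fin 9 × Fin 2 => P ij.1 ij.2)) {x : Fin 3 → ℂ}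
    (hx0 : x ≠ 0) (hx : ∀ i (c : ℂ), x ≠ c • aff (P i))
    {B : MvPolynomial (Fin 3) ℂ} (hB0 : B ≠ 0) (hB : B.IsHomogeneous 3)
    (hBP : ∀ i, eval (aff (P i)) B = 0) (hBx : eval x B = 0)
    {F : MvPolynomial (Fin 3) ℂ} {d : ℕ}
    (hF : F.IsHomogeneous d)
    (hsq : Squarefree F) {m : Fin 9 → ℕ} (hm : ∀ j, (m j : ℕ∞) ≤ od (aff (P j)) F) {t : ℕ}
    (ht : (t : ℕ∞) ≤ od x F) (h1 : 1 ≤ t) :
    max ((((t + 1).choose 2 : ℕ) : ℤ) - 2) 0 <
      (((d + 2).choose 2 : ℕ) : ℤ) - ∑ i, (((m i + 1).choose 2 : ℕ) : ℤ) := by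
  classical
  have hF0 := hsq.ne_zero
  choose M hM using fun j => exists_ord' (v := aff (P j)) hF0
  obtain ⟨T, hT⟩ := exists_ord' (v := x) hF0
  have hMm : ∀ j, m j ≤ M j := by
    intro j
    have h2 := hm j
    rw [(ord_iff _ _ _).1 (hM j)] at h2
    exact_mod_cast h2
  have htT : t ≤ T := by
    rw [(ord_iff _ _ _).1 hT] at ht
    exact_mod_cast ht
  have hb := nine_proj hP hB0 hB (fun i => (SH.van_one _ _).2 (hBP i)) ((SH.van_one _ _).2 hBx) hx0 hx hF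
    hsq hM hT (h1.trans htT)
  have h2 : ∑ i, (((m i + 1).choose 2 : ℕ) : ℤ) ≤ ∑ i, (((M i + 1).choose 2 : ℕ) : ℤ) :=
    Finset.sum_le_sum fun i _ => by
      exact_mod_cast Nat.choose_le_choose 2 (Nat.succ_le_succ (hMm i))
  have h3 : (((t + 1).choose 2 : ℕ) : ℤ) ≤ (((T + 1).choose 2 : ℕ) : ℤ) := by
    exact_mod_cast Nat.choose_le_choose 2 (Nat.succ_le_succ htT)
  rw [max_lt_iff] at hb ⊢
  constructor <;> linarith [hb.1, hb.2]

end Pool.Agent.H884.TF
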