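import Pool.Agent.H884.TF.Exc10

set_option autoImplicit false
set_option linter.unusedSectionVars false

/-!
# Nine very general points and a point of an exceptional curve
-/

namespace Pool.Agent.H884.TF

open MvPolynomial Pool.Agent.W609 Pool.Agent.W609.CR Pool.Agent.TH167 Pool.Agent.TH167.SH
  Pool.Agent.TH167.DD Pool.Agent.H248R6

/-- The bound for nine generic points and a point of an exceptional curve on the transform of the
cubic curve. -/
theorem nine_ex {P : Fin 9 → Fin 2 → ℂ}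
    (hP : AlgebraicIndependent ℚ (fun ij : Fin 9 × Fin 2 => P ij.1 ij.2)) (a : Fin 9)
    {v : Fin 2 → ℂ} (hv : v ≠ 0) {B : MvPolynomial (Fin 3) ℂ} (hB0 : B ≠ 0)
    (hB : B.IsHomogeneous 3) (hBP : ∀ i, eval (aff (P i)) B = 0)
    (hBx : ((2 : ℕ) : ℕ∞) ≤ od ![0, v 0, v 1] (bl (P a) B)) {F : MvPolynomial (Fin 3) ℂ} {d : ℕ}
    (hF : F.IsHomogeneous d) (hsq : Squarefree F) {m : Fin 9 → ℕ}
    (hm : ∀ j, (m j : ℕ∞) ≤ od (aff (P j)) F)
    (hma : od (aff (P a)) F ≤ ((m a + 1 : ℕ) : ℕ∞)) {t : ℕ}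
    (ht : ((m a + t : ℕ) : ℕ∞) ≤ od ![0, v 0, v 1] (bl (P a) F)) (h1 : 1 ≤ t) :
    max ((((t + 1).choose 2 : ℕ) : ℤ) - 2) 0 <
      (((d + 2).choose 2 : ℕ) : ℤ) - ∑ i, (((m i + 1).choose 2 : ℕ) : ℤ) := by
  classical
  have hF0 := hsq.ne_zero
  choose M hM using fun j => exists_ord' (v := aff (P j)) hF0
  have hMm : ∀ j, m j ≤ M j := by
    intro j
    have h2 := hm j
    rw [(ord_iff _ _ _).1 (hM j)] at h2
    exact_mod_cast h2
  have hMa : M a ≤ m a + 1 := by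
    rw [(ord_iff _ _ _).1 (hM a)] at hma
    exact_mod_cast hma
  exact nine_exc hP a hv hB0 hB (fun i => (SH.van_one _ _).2 (hBP i)) ((van_iff _ _ _).2 hBx) hF hsq
    hM hMm hMa ht h1

end Pool.Agent.H884.TF
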