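import Pool.Agent.H884.TF.Main10
import Pool.Agent.H884.TF.Proj

set_option autoImplicit false
set_option linter.unusedSectionVars false

/-!
# Nine generic points and a point of the cubic curve through them
-/

namespace Pool.Agent.H884.TF

open MvPolynomial Pool.Agent.W609 Pool.Agent.W609.CR Pool.Agent.TH167 Pool.Agent.TH167.SH
  Pool.Agent.TH167.DD Pool.Agent.H248R6

variable {K : Type} [Field K] [CharZero K] [IsAlgClosed K]

/-- The bound, for a point of the affine plane. -/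
theorem nine_aff {P : Fin 9 → Fin 2 → K}
    (hP : AlgebraicIndependent ℚ (fun ij : Fin 9 × Fin 2 => P ij.1 ij.2)) {x : Fin 2 → K}
    {B : MvPolynomial (Fin 3) K} (hB0 : B ≠ 0) (hB : B.IsHomogeneous 3)
    (hBP : ∀ i, Van (aff (P i)) 1 B) (hBx : Van (aff x) 1 B)
    (hx : ∀ i, x ≠ P i) {F : MvPolynomial (Fin 3) K} {d : ℕ} (hF : F.IsHomogeneous d)
    (hsq : Squarefree F) {M : Fin 9 → ℕ} (hM : ∀ j, Ord (aff (P j)) (M j) F) {T : ℕ}
    (hT : Ord (aff x) T F) (h1 : 1 ≤ T) :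
    max ((((T + 1).choose 2 : ℕ) : ℤ) - 2) 0 <
      (((d + 2).choose 2 : ℕ) : ℤ) - ∑ i, (((M i + 1).choose 2 : ℕ) : ℤ) := by
  classical
  have hQ : Function.Injective (Fin.cons x P : Fin 10 → Fin 2 → K) := by
    rw [Fin.cons_injective_iff]
    refine ⟨?_, inj_of_alg hP⟩
    rintro ⟨j, hj⟩
    exact hx j hj.symm
  have hb := ten_bound hP (Q := (Fin.cons x P : Fin 10 → Fin 2 → K)) (fun i => rfl) hQ
    hB0 hB (fun j => by
      refine Fin.cases ?_ (fun i => ?_) j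
      · exact hBx
      · exact hBP i) hsq.ne_zero hF hsq (W := (Fin.cons T M : Fin 10 → ℕ)) (fun j => by
      refine Fin.cases ?_ (fun i => ?_) j
      · exact hT
      · exact hM i)
  unfold cc at hb
  rw [Fin.sum_univ_succ (fun j => ((Fin.cons T M : Fin 10 → ℕ) j : ℤ) *
    ((Fin.cons T M : Fin 10 → ℕ) j : ℤ)), Fin.sum_univ_succ (fun j =>
    ((Fin.cons T M : Fin 10 → ℕ) j : ℤ))] at hb
  simp only [Fin.cons_zero, Fin.cons_succ] at hb
  have c1 : 2 * (((d + 2).choose 2 : ℕ) : ℤ) = (d : ℤ) * d + 3 * d + 2 := by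
    have := two_choose_cast (d + 1)
    rw [show d + 1 + 1 = d + 2 from rfl] at this
    rw [this]
    push_cast
    ring
  have c2 : 2 * ∑ i, (((M i + 1).choose 2 : ℕ) : ℤ) = ∑ i, (M i : ℤ) * M i + ∑ i, (M i : ℤ) := by
    rw [Finset.mul_sum, ← Finset.sum_add_distrib]
    exact Finset.sum_congr rfl fun i _ => two_choose_cast _
  have c3 := two_choose_cast T
  rw [max_lt_iff]
  obtain ⟨b1, b2⟩ := hb
  constructor
  · linarith
  · rcases Nat.lt_or_ge 1 T with h | h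
    · have h2 : (2 : ℤ) ≤ T := by exact_mod_cast h
      nlinarith
    · have hT1 : T = 1 := by omega
      subst hT1
      have := b2 le_rfl
      push_cast at *
      linarith

theorem nine_one {P : Fin 9 → Fin 2 → K}
    (hP : AlgebraicIndependent ℚ (fun ij : Fin 9 × Fin 2 => P ij.1 ij.2)) {x : Fin 3 → K}
    {B : MvPolynomial (Fin 3) K} (hB0 : B ≠ 0) (hB : B.IsHomogeneous 3)
    (hBP : ∀ i, Van (aff (P i)) 1 B) (hBx : Van x 1 B)
    (hx2 : x 2 ≠ 0) (hx : ∀ i (c : K), x ≠ c • aff (P i)) {F : MvPolynomial (Fin 3) K} {d : ℕ}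
    (hF : F.IsHomogeneous d)
    (hsq : Squarefree F) {M : Fin 9 → ℕ} (hM : ∀ j, Ord (aff (P j)) (M j) F) {T : ℕ}
    (hT : Ord x T F) (h1 : 1 ≤ T) :
    max ((((T + 1).choose 2 : ℕ) : ℤ) - 2) 0 <
      (((d + 2).choose 2 : ℕ) : ℤ) - ∑ i, (((M i + 1).choose 2 : ℕ) : ℤ) := by
  have hxy : x = x 2 • aff ![x 0 / x 2, x 1 / x 2] := by
    funext i
    fin_cases i
    · simp [aff]
      field_simp
    · simp [aff]
      field_simp
    · simp [aff]
  refine nine_aff hP (x := ![x 0 / x 2, x 1 / x 2]) hB0 hB hBP ?_ (fun i h => ?_) hF hsq hM ?_ h1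
  · rw [hxy] at hBx
    exact ((t_lin K).2 B 3 hB _ hx2 _ 1).1 hBx
  · rw [h] at hxy
    exact hx i _ hxy
  · rw [hxy] at hT
    exact (ord_smul hF hx2).1 hT

/-- The bound, for a point of the projective plane. -/
theorem nine_proj {P : Fin 9 → Fin 2 → K}
    (hP : AlgebraicIndependent ℚ (fun ij : Fin 9 × Fin 2 => P ij.1 ij.2)) {x : Fin 3 → K}
    {B : MvPolynomial (Fin 3) K} (hB0 : B ≠ 0) (hB : B.IsHomogeneous 3)
    (hBP : ∀ i, Van (aff (P i)) 1 B) (hBx : Van x 1 B)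
    (hx0 : x ≠ 0) (hx : ∀ i (c : K), x ≠ c • aff (P i)) {F : MvPolynomial (Fin 3) K} {d : ℕ}
    (hF : F.IsHomogeneous d)
    (hsq : Squarefree F) {M : Fin 9 → ℕ} (hM : ∀ j, Ord (aff (P j)) (M j) F) {T : ℕ}
    (hT : Ord x T F) (h1 : 1 ≤ T) :
    max ((((T + 1).choose 2 : ℕ) : ℤ) - 2) 0 <
      (((d + 2).choose 2 : ℕ) : ℤ) - ∑ i, (((M i + 1).choose 2 : ℕ) : ℤ) := by
  classical
  by_cases hx2 : x 2 ≠ 0
  · exact nine_one hP hB0 hB hBP hBx hx2 hx hF hsq hM hT h1
  rw [not_not] at hx2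
  obtain ⟨b, hb⟩ : ∃ b : Fin 2, x (Fin.castSucc b) ≠ 0 := by
    by_contra hcon
    push Not at hcon
    apply hx0
    funext i
    fin_cases i
    · exact hcon 0
    · exact hcon 1
    · exact hx2
  obtain ⟨σ, hσ⟩ : ∃ σ : Equiv.Perm (Fin 3), σ = Equiv.swap (Fin.castSucc b) 2 := ⟨_, rfl⟩
  have hσσ : ∀ v : Fin 3 → K, (v ∘ σ) ∘ σ = v := by
    intro v
    funext i
    show v (σ (σ i)) = v i
    rw [hσ, Equiv.swap_apply_self]
  have hσ2 : σ 2 = Fin.castSucc b := by rw [hσ, Equiv.swap_apply_right]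
  have hσb : σ (Fin.castSucc b) = 2 := by rw [hσ, Equiv.swap_apply_left]
  have haff : ∀ (q : Fin 2 → K) (b : Fin 2), aff q (Fin.castSucc b) = q b := by
    intro q b
    fin_cases b <;> rfl
  have haff2 : ∀ q : Fin 2 → K, aff q 2 = 1 := fun q => rfl
  have hPb : ∀ i, P i b ≠ 0 := fun i => hP.ne_zero (i, b)
  let P' : Fin 9 → Fin 2 → K := fun i c => aff (P i) (σ (Fin.castSucc c)) / P i b
  have hP' : ∀ i, aff (P' i) = (P i b)⁻¹ • (aff (P i) ∘ σ) := by
    intro i
    funext j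
    show aff (P' i) j = (P i b)⁻¹ * aff (P i) (σ j)
    refine Fin.lastCases ?_ (fun c => ?_) j
    · show (1 : K) = (P i b)⁻¹ * aff (P i) (σ 2)
      rw [hσ2, haff, inv_mul_cancel₀ (hPb i)]
    · rw [haff]
      show aff (P i) (σ (Fin.castSucc c)) / P i b = _
      rw [div_eq_inv_mul]
  have hgen : AlgebraicIndependent ℚ (fun ij : Fin 9 × Fin 2 => P' ij.1 ij.2) := by
    refine Pool.Agent.W816.CR.t_trd K (Fin 9 × Fin 2) _ _ hP ?_
    rintro ⟨i, c⟩
    show P i c ∈ _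
    obtain ⟨E, hE⟩ : ∃ E, E = IntermediateField.adjoin ℚ
      (Set.range fun ij : Fin 9 × Fin 2 => P' ij.1 ij.2) := ⟨_, rfl⟩
    rw [← hE]
    have hmem : ∀ j, aff (P' i) j ∈ E := by
      intro j
      refine Fin.lastCases ?_ (fun c => ?_) j
      · show (1 : K) ∈ E
        exact one_mem _
      · rw [haff, hE]
        exact IntermediateField.subset_adjoin _ _ ⟨(i, c), rfl⟩
    have h2 : aff (P i) = P i b • (aff (P' i) ∘ σ) := by
      rw [hP']
      funext j
      show aff (P i) j = P i b * ((P i b)⁻¹ * aff (P i) (σ (σ j)))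
      rw [mul_inv_cancel_left₀ (hPb i), hσ, Equiv.swap_apply_self]
    have h3 : P i b * aff (P' i) (Fin.castSucc b) = 1 := by
      have := congrFun h2 2
      rw [haff2] at this
      rw [this]
      show P i b * aff (P' i) (Fin.castSucc b) = P i b * aff (P' i) (σ 2)
      rw [hσ2]
    have h4 : P i b = (aff (P' i) (Fin.castSucc b))⁻¹ := eq_inv_of_mul_eq_one_left h3
    have h5 : P i c = (aff (P' i) (Fin.castSucc b))⁻¹ * aff (P' i) (σ (Fin.castSucc c)) := by
      have := congrFun h2 (Fin.castSucc c)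
      rw [haff] at this
      rw [this, ← h4]
      rfl
    rw [h5]
    exact mul_mem (inv_mem (hmem _)) (hmem _)
  have hF' : (rename σ F).IsHomogeneous d := hF.rename_isHomogeneous
  have hB' : (rename σ B).IsHomogeneous 3 := hB.rename_isHomogeneous
  have hB0' : rename σ B ≠ 0 := fun h => hB0 (by
    have := rename_injective σ σ.injective (h.trans (map_zero (rename σ)).symm)
    exact this)
  refine nine_one hgen (x := x ∘ σ) hB0' hB' (fun i => ?_) ?_ ?_ ?_ hF' (sqf_rename hsq) (M := M)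
    ?_ ?_ h1
  · rw [hP', (t_lin K).2 _ 3 hB' _ (inv_ne_zero (hPb i)) _ 1, van_rename, hσσ]
    exact hBP i
  · rw [van_rename, hσσ]
    exact hBx
  · show x (σ 2) ≠ 0
    rw [hσ2]
    exact hb
  · intro i c h
    rw [hP'] at h
    apply hx i (c * (P i b)⁻¹)
    have h2 := congrArg (fun v => v ∘ σ) h
    simp only [hσσ] at h2
    rw [h2]
    funext j
    show c * ((P i b)⁻¹ * aff (P i) (σ (σ j))) = (c * (P i b)⁻¹) * aff (P i) j
    rw [hσ, Equiv.swap_apply_self]
    ring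
  · intro j
    rw [hP', ord_smul hF' (inv_ne_zero (hPb j)), ord_rename, hσσ]
    exact hM j
  · rw [ord_rename, hσσ]
    exact hT

end Pool.Agent.H884.TF
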