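import Pool.Agent.H884.TF.Sub2

set_option autoImplicit false
set_option linter.unusedSectionVars false

/-!
# The choice of the centre of the projection
-/

namespace Pool.Agent.H884.TF

open MvPolynomial Pool.Agent.W609 Pool.Agent.W609.CR Pool.Agent.TH167 Pool.Agent.TH167.SH
  Pool.Agent.TH167.DD Pool.Agent.H248R6

variable {K : Type} [Field K] [CharZero K]

theorem not_dvd_deg {A H : MvPolynomial (Fin 3) K} {a e : ℕ} (hA : A.IsHomogeneous a)
    (hA0 : A ≠ 0) (hH : H.IsHomogeneous e) (hH0 : H ≠ 0) (he : e < a) : ¬ A ∣ H := by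
  rintro ⟨c, hc⟩
  have hc0 : c ≠ 0 := by
    rintro rfl
    rw [mul_zero] at hc
    exact hH0 hc
  have h1 := hH.totalDegree hH0
  rw [hc, MvPolynomial.totalDegree_mul_of_isDomain hA0 hc0, hA.totalDegree hA0] at h1
  omega

theorem fin_bad {A H : MvPolynomial (Fin 3) K} (hA : Irreducible A) (hA3 : A.IsHomogeneous 3)
    {e : ℕ} (hH : H.IsHomogeneous e) (hH0 : H ≠ 0) (he : e < 3) :
    {q : Fin 2 → K | eval (aff q) A = 0 ∧ eval (aff q) H = 0}.Finite :=
  finite_common hA3 hH hA.ne_zero hH0
    ((Irreducible.isRelPrime_iff_not_dvd hA).2 (not_dvd_deg hA3 hA.ne_zero hH hH0 he))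

/-- The equation of the tangent line. -/
noncomputable def tl (q : Fin 2 → K) (A : MvPolynomial (Fin 3) K) : MvPolynomial (Fin 3) K :=
  C (eval (aff q) (pderiv 0 A)) * X 0 + C (eval (aff q) (pderiv 1 A)) * X 1 +
    C (eval (aff q) (pderiv 2 A)) * X 2

theorem tl_hom (q : Fin 2 → K) (A : MvPolynomial (Fin 3) K) : (tl q A).IsHomogeneous 1 :=
  ((((isHomogeneous_X K 0).C_mul _).add ((isHomogeneous_X K 1).C_mul _))).add
    ((isHomogeneous_X K 2).C_mul _)

theorem eval_tl (q O : Fin 2 → K) (A : MvPolynomial (Fin 3) K) :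
    eval (aff O) (tl q A) = eval (aff q) (polar O A) := by
  unfold tl polar
  simp [aff]
  ring

theorem tl_ne {q : Fin 2 → K} {A : MvPolynomial (Fin 3) K} {d : ℕ} (hA : A.IsHomogeneous d)
    (h : Ord (aff q) 1 A) : tl q A ≠ 0 := by
  intro h0
  obtain ⟨b, hb⟩ := TT.grad_ne hA h
  have h1 : ∀ i : Fin 3, coeff (Finsupp.single i 1) (tl q A) = eval (aff q) (pderiv i A) := by
    intro i
    unfold tl
    fin_cases i <;>
      simp [coeff_X, Finsupp.single_left_inj]
  have h2 := h1 (Fin.castSucc b)
  rw [h0, coeff_zero] at h2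
  exact hb h2.symm

/-- The choice of the centre of the projection. -/
theorem exists_O [IsAlgClosed K] {A : MvPolynomial (Fin 3) K} (hA : Irreducible A)
    (hA3 : A.IsHomogeneous 3) {n : ℕ} {Q : Fin (n + 1) → Fin 2 → K} (hQ : Function.Injective Q)
    (hord : ∀ j, Ord (aff (Q j)) 1 A) :
    ∃ (u : ℚ) (O : Fin 2 → K), O 0 = (u : K) ∧ eval (aff O) A = 0 ∧ (∀ j, Q j 0 ≠ O 0) ∧
      (∀ j k, j ≠ k → eval (aff O) (ln (Q j) (Q k)) ≠ 0) ∧
      (∀ j, eval (aff (Q j)) (polar O A) ≠ 0) ∧ eval (aff O) (polar (Q 0) A) ≠ 0 ∧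
      ∃ y, eval (aff ![O 0, y]) (pderiv 1 A) ≠ 0 := by
  classical
  -- the bad points
  let B : Set (Fin 2 → K) :=
    (⋃ j, {q | eval (aff q) A = 0 ∧ eval (aff q) (X 0 - C (Q j 0) * X 2) = 0}) ∪
    (⋃ x : {x : Fin (n + 1) × Fin (n + 1) // x.1 ≠ x.2},
      {q | eval (aff q) A = 0 ∧ eval (aff q) (ln (Q x.1.1) (Q x.1.2)) = 0}) ∪
    (⋃ j, {q | eval (aff q) A = 0 ∧ eval (aff q) (tl (Q j) A) = 0}) ∪
    {q | eval (aff q) A = 0 ∧ eval (aff q) (polar (Q 0) A) = 0}
  have hB : B.Finite := by
    refine (((Set.finite_iUnion fun j => ?_).union (Set.finite_iUnion fun x => ?_)).union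
      (Set.finite_iUnion fun j => ?_)).union ?_
    · refine fin_bad hA hA3 (e := 1) ((isHomogeneous_X K 0).sub ((isHomogeneous_X K 2).C_mul _))
        ?_ (by norm_num)
      intro h
      have h1 := congrArg (coeff (Finsupp.single 0 1)) h
      simp [coeff_X, Finsupp.single_left_inj] at h1
    · exact fin_bad hA hA3 (e := 1) (ln_hom _ _) (ln_ne fun h => x.2 (hQ h)) (by norm_num)
    · exact fin_bad hA hA3 (e := 1) (tl_hom _ _) (tl_ne hA3 (hord j)) (by norm_num)
    · exact fin_bad hA hA3 (e := 2) (polar_hom _ hA3) (polar_ne hA hA3 (by norm_num) (hord 0))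
        (by norm_num)
  -- the derivative is not zero
  have hd : pderiv 1 A ≠ 0 := by
    intro h0
    have hlin : {q : Fin 2 → K | eval (aff q) A = 0 ∧
        eval (aff q) (X 0 - C (Q 0 0) * X 2) = 0}.Finite := by
      refine fin_bad hA hA3 (e := 1) ((isHomogeneous_X K 0).sub ((isHomogeneous_X K 2).C_mul _))
        ?_ (by norm_num)
      intro h
      have h1 := congrArg (coeff (Finsupp.single 0 1)) h
      simp [coeff_X, Finsupp.single_left_inj] at h1
    let g : MvPolynomial (Fin 3) K →ₐ[K] Polynomial K :=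
      aeval ![Polynomial.C (Q 0 0), Polynomial.X, 1]
    have hg : ∀ F : MvPolynomial (Fin 3) K, Polynomial.derivative (g F) = g (pderiv 1 F) := by
      intro F
      induction F using MvPolynomial.induction_on with
      | C c => simp [g]
      | add p q hp hq => rw [map_add, map_add, hp, hq, map_add, map_add]
      | mul_X p i hp =>
        rw [map_mul, Polynomial.derivative_mul, hp, Derivation.leibniz, map_add, smul_eq_mul,
          smul_eq_mul, map_mul, map_mul]
        fin_cases i
        · simp [g, pderiv_X]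
          ring
        · simp [g, pderiv_X]
          ring
        · simp [g, pderiv_X]
    have hge : ∀ (F : MvPolynomial (Fin 3) K) (y : K), (g F).eval y =
        eval (aff ![Q 0 0, y]) F := by
      intro F y
      induction F using MvPolynomial.induction_on with
      | C c => simp [g]
      | add p q hp hq => rw [map_add, Polynomial.eval_add, hp, hq, map_add]
      | mul_X p i hp =>
        rw [map_mul, Polynomial.eval_mul, hp, map_mul, eval_X]
        congr 1
        fin_cases i <;> simp [g, aff]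
    have h2 : g A = Polynomial.C ((g A).coeff 0) := by
      apply Polynomial.eq_C_of_derivative_eq_zero
      rw [hg, h0, map_zero]
    have h3 : ∀ y, eval (aff ![Q 0 0, y]) A = 0 := by
      intro y
      have h4 : eval (aff ![Q 0 0, Q 0 1]) A = 0 := by
        have h5 : (![Q 0 0, Q 0 1] : Fin 2 → K) = Q 0 := by
          funext i
          fin_cases i <;> rfl
        rw [h5]
        exact (TT.van_one).1 (hord 0).1
      rw [← hge, h2, Polynomial.eval_C]
      rw [← hge, h2, Polynomial.eval_C] at h4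
      exact h4
    have h4 : Set.range (fun y : K => (![Q 0 0, y] : Fin 2 → K)) ⊆
        {q : Fin 2 → K | eval (aff q) A = 0 ∧ eval (aff q) (X 0 - C (Q 0 0) * X 2) = 0} := by
      rintro _ ⟨y, rfl⟩
      refine ⟨h3 y, ?_⟩
      simp [aff]
    have h5 := hlin.subset h4
    have h6 : Function.Injective (fun y : K => (![Q 0 0, y] : Fin 2 → K)) := by
      intro a b hab
      exact congrFun hab 1
    exact Set.infinite_range_of_injective h6 h5
  obtain ⟨p0, hp0⟩ := TT.exists_pt (hA3.pderiv (i := 1)) hd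
  -- the first coordinate
  let g : MvPolynomial (Fin 3) K →ₐ[K] Polynomial K :=
    aeval ![Polynomial.X, Polynomial.C (p0 1), 1]
  have hge : ∀ (F : MvPolynomial (Fin 3) K) (x : K), (g F).eval x =
      eval (aff ![x, p0 1]) F := by
    intro F y
    induction F using MvPolynomial.induction_on with
    | C c => simp [g]
    | add p q hp hq => rw [map_add, Polynomial.eval_add, hp, hq, map_add]
    | mul_X p i hp =>
      rw [map_mul, Polynomial.eval_mul, hp, map_mul, eval_X]
      congr 1
      fin_cases i <;> simp [g, aff]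
  have hg0 : g (pderiv 1 A) ≠ 0 := by
    intro h0
    apply hp0
    have h5 : p0 = (![p0 0, p0 1] : Fin 2 → K) := by
      funext i
      fin_cases i <;> rfl
    rw [h5, ← hge, h0, Polynomial.eval_zero]
  have hfin2 : {x : K | (g (pderiv 1 A)).eval x = 0}.Finite :=
    Polynomial.finite_setOfPred_isRoot hg0
  have hfin3 : ((fun q : Fin 2 → K => q 0) '' B).Finite := hB.image _
  obtain ⟨u, hu⟩ : ∃ u : ℚ, (u : K) ∉ {x : K | (g (pderiv 1 A)).eval x = 0} ∪
      ((fun q : Fin 2 → K => q 0) '' B) := by
    by_contra hcon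
    push Not at hcon
    have h1 : Function.Injective (fun u : ℚ => (u : K)) := Rat.cast_injective
    exact Set.infinite_range_of_injective h1 ((hfin2.union hfin3).subset (by
      rintro _ ⟨u, rfl⟩
      exact hcon u))
  rw [Set.mem_union, not_or] at hu
  obtain ⟨hu1, hu2⟩ := hu
  -- the second coordinate
  let h : MvPolynomial (Fin 3) K →ₐ[K] Polynomial K :=
    aeval ![Polynomial.C (u : K), Polynomial.X, 1]
  have hhe : ∀ (F : MvPolynomial (Fin 3) K) (y : K), (h F).eval y =
      eval (aff ![(u : K), y]) F := by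
    intro F y
    induction F using MvPolynomial.induction_on with
    | C c => simp [h]
    | add p q hp hq => rw [map_add, Polynomial.eval_add, hp, hq, map_add]
    | mul_X p i hp =>
      rw [map_mul, Polynomial.eval_mul, hp, map_mul, eval_X]
      congr 1
      fin_cases i <;> simp [h, aff]
  have hhd : ∀ F : MvPolynomial (Fin 3) K, Polynomial.derivative (h F) = h (pderiv 1 F) := by
    intro F
    induction F using MvPolynomial.induction_on with
    | C c => simp [h]
    | add p q hp hq => rw [map_add, map_add, hp, hq, map_add, map_add]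
    | mul_X p i hp =>
      rw [map_mul, Polynomial.derivative_mul, hp, Derivation.leibniz, map_add, smul_eq_mul,
        smul_eq_mul, map_mul, map_mul]
      fin_cases i
      · simp [h, pderiv_X]
        ring
      · simp [h, pderiv_X]
        ring
      · simp [h, pderiv_X]
  have hdeg : (h A).degree ≠ 0 := by
    intro h0
    have h1 := Polynomial.eq_C_of_degree_eq_zero h0
    apply hu1
    show (g (pderiv 1 A)).eval (u : K) = 0
    rw [hge, ← hhe, ← hhd, h1, Polynomial.derivative_C, Polynomial.eval_zero]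
  obtain ⟨v, hv⟩ := IsAlgClosed.exists_root (h A) hdeg
  rw [Polynomial.IsRoot.def, hhe] at hv
  have hOB : (![(u : K), v] : Fin 2 → K) ∉ B := fun hmem => hu2 ⟨_, hmem, rfl⟩
  refine ⟨u, ![(u : K), v], rfl, hv, ?_, ?_, ?_, ?_, ?_⟩
  · intro j hj
    apply hOB
    left; left; left
    refine Set.mem_iUnion.2 ⟨j, hv, ?_⟩
    simp only [map_sub, map_mul, eval_X, eval_C]
    show (u : K) - Q j 0 * 1 = 0
    have hj' : Q j 0 = (u : K) := hj
    rw [hj']
    ring
  · intro j k hjk h0
    apply hOB
    left; left; right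
    exact Set.mem_iUnion.2 ⟨⟨(j, k), hjk⟩, hv, h0⟩
  · intro j h0
    apply hOB
    left; right
    refine Set.mem_iUnion.2 ⟨j, hv, ?_⟩
    rw [eval_tl]
    exact h0
  · intro h0
    apply hOB
    right
    exact ⟨hv, h0⟩
  · refine ⟨p0 1, ?_⟩
    show eval (aff ![(u : K), p0 1]) (pderiv 1 A) ≠ 0
    rw [← hge]
    exact hu1

end Pool.Agent.H884.TF
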