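import Pool.Agent.H884.TF.Comp

set_option autoImplicit false
set_option linter.unusedSectionVars false

/-!
# The choice of the base points of the quadratic transformation
-/

namespace Pool.Agent.H884.TF

open MvPolynomial Pool.Agent.W609 Pool.Agent.W609.CR Pool.Agent.TH167 Pool.Agent.TH167.SH
  Pool.Agent.TH167.DD Pool.Agent.H248R6

variable {K : Type} [Field K] [CharZero K]

theorem inj3 {s : ℕ} {b c d : Fin s} (hbc : b ≠ c) (hbd : b ≠ d) (hcd : c ≠ d) :
    Function.Injective ![b, c, d] := by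
  intro x y hxy
  fin_cases x <;> fin_cases y <;> simp_all

/-- No three points are on a line. -/
theorem cr_ne {s : ℕ} {P : Fin s → Fin 2 → K}
    (hP : AlgebraicIndependent ℚ (fun ij : Fin s × Fin 2 => P ij.1 ij.2)) {b c d : Fin s}
    (hbc : b ≠ c) (hbd : b ≠ d) (hcd : c ≠ d) :
    (P c 0 - P b 0) * (P d 1 - P b 1) - (P d 0 - P b 0) * (P c 1 - P b 1) ≠ 0 := by
  obtain ⟨hdet, -⟩ := t_gen K s P hP ![b, c, d] (inj3 hbc hbd hcd)
  intro h
  apply hdet
  rw [Matrix.det_fin_three]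
  simp [mat3, aff]
  linear_combination h

theorem cross_zero {v0 v1 x y x' y' : K} (hv : v0 ≠ 0 ∨ v1 ≠ 0) (h1 : v0 * y - v1 * x = 0)
    (h2 : v0 * y' - v1 * x' = 0) : x * y' - x' * y = 0 := by
  rcases hv with hv | hv
  · apply (mul_eq_zero.1 (?_ : v0 * (x * y' - x' * y) = 0)).resolve_left hv
    linear_combination x * h2 - x' * h1
  · apply (mul_eq_zero.1 (?_ : v1 * (x * y' - x' * y) = 0)).resolve_left hv
    linear_combination y * h2 - y' * h1

/-- The base points. -/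
theorem exists_idx {P : Fin 8 → Fin 2 → K}
    (hP : AlgebraicIndependent ℚ (fun ij : Fin 8 × Fin 2 => P ij.1 ij.2)) (a : Fin 8)
    {v : Fin 2 → K} (hv : v ≠ 0) :
    ∃ (i : Fin 3 → Fin 8) (V1 V2 : K), Function.Injective i ∧ i 0 = a ∧ V1 ≠ 0 ∧ V2 ≠ 0 ∧
      V1 + V2 ≠ 0 ∧ v 0 = V1 * (P (i 1) 0 - P a 0) + V2 * (P (i 2) 0 - P a 0) ∧
      v 1 = V1 * (P (i 1) 1 - P a 1) + V2 * (P (i 2) 1 - P a 1) := by
  classical
  have hv' : v 0 ≠ 0 ∨ v 1 ≠ 0 := by
    by_contra hcon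
    push Not at hcon
    apply hv
    funext k
    fin_cases k
    · exact hcon.1
    · exact hcon.2
  obtain ⟨f, hf⟩ : ∃ f : Fin 8 → K, f = fun b => v 0 * (P b 1 - P a 1) - v 1 * (P b 0 - P a 0) :=
    ⟨_, rfl⟩
  have hfb : ∀ b, f b = v 0 * (P b 1 - P a 1) - v 1 * (P b 0 - P a 0) := fun b => by rw [hf]
  have aux : ∀ b c, b ≠ a → c ≠ a → b ≠ c → f b ≠ 0 → f c ≠ 0 → f b ≠ f c →
      ∃ (i : Fin 3 → Fin 8) (V1 V2 : K), Function.Injective i ∧ i 0 = a ∧ V1 ≠ 0 ∧ V2 ≠ 0 ∧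
      V1 + V2 ≠ 0 ∧ v 0 = V1 * (P (i 1) 0 - P a 0) + V2 * (P (i 2) 0 - P a 0) ∧
      v 1 = V1 * (P (i 1) 1 - P a 1) + V2 * (P (i 2) 1 - P a 1) := by
    intro b c hb hc hbc fb fc fbc
    have hD := cr_ne hP hb.symm hc.symm hbc
    obtain ⟨D, hDd⟩ : ∃ D, D = (P b 0 - P a 0) * (P c 1 - P a 1) -
      (P c 0 - P a 0) * (P b 1 - P a 1) := ⟨_, rfl⟩
    rw [← hDd] at hD
    refine ⟨![a, b, c], f c / D, -f b / D, inj3 hb.symm hc.symm hbc, rfl, div_ne_zero fc hD,
      div_ne_zero (neg_ne_zero.2 fb) hD, ?_, ?_, ?_⟩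
    · rw [← add_div]
      refine div_ne_zero ?_ hD
      intro h
      apply fbc
      linear_combination -h
    · show v 0 = f c / D * (P b 0 - P a 0) + -f b / D * (P c 0 - P a 0)
      field_simp
      rw [hfb, hfb, hDd]
      ring
    · show v 1 = f c / D * (P b 1 - P a 1) + -f b / D * (P c 1 - P a 1)
      field_simp
      rw [hfb, hfb, hDd]
      ring
  have hZ : (Finset.univ.filter fun b : Fin 8 => b ≠ a ∧ f b = 0).card ≤ 1 := by
    rw [Finset.card_le_one]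
    intro b hb c hc
    rw [Finset.mem_filter] at hb hc
    by_contra hbc
    have h1 := cross_zero hv' (by rw [← hfb]; exact hb.2.2) (by rw [← hfb]; exact hc.2.2)
    exact cr_ne hP hb.2.1.symm hc.2.1.symm hbc h1
  have hB : 2 < (Finset.univ.filter fun b : Fin 8 => b ≠ a ∧ f b ≠ 0).card := by
    have h1 : (Finset.univ.erase a : Finset (Fin 8)).card = 7 := by
      rw [Finset.card_erase_of_mem (Finset.mem_univ a)]
      simp
    have h2 : (Finset.univ.erase a : Finset (Fin 8)) =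
        (Finset.univ.filter fun b : Fin 8 => b ≠ a ∧ f b ≠ 0) ∪
          (Finset.univ.filter fun b : Fin 8 => b ≠ a ∧ f b = 0) := by
      ext b
      simp only [Finset.mem_erase, Finset.mem_univ, and_true, Finset.mem_union,
        Finset.mem_filter, true_and]
      tauto
    have h3 := Finset.card_union_le (Finset.univ.filter fun b : Fin 8 => b ≠ a ∧ f b ≠ 0)
      (Finset.univ.filter fun b : Fin 8 => b ≠ a ∧ f b = 0)
    rw [← h2, h1] at h3
    omega
  obtain ⟨b, hb, c, hc, d, hd, hbc, hbd, hcd⟩ := Finset.two_lt_card.1 hB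
  rw [Finset.mem_filter] at hb hc hd
  by_cases h1 : f b = f c
  · by_cases h2 : f b = f d
    · exfalso
      refine cr_ne hP hbc hbd hcd ?_
      refine cross_zero hv' ?_ ?_
      · rw [hfb, hfb] at h1
        linear_combination -h1
      · rw [hfb, hfb] at h2
        linear_combination -h2
    · exact aux b d hb.2.1 hd.2.1 hbd hb.2.2 hd.2.2 h2
  · exact aux b c hb.2.1 hc.2.1 hbc hb.2.2 hc.2.2 h1

/-- The image of the point of the exceptional curve. -/
noncomputable def qp {s : ℕ} (P : Fin s → Fin 2 → K) (i : Fin 3 → Fin s) (V1 V2 : K) :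
    Fin 2 → K := fun b => (V2 * P (i 1) b + V1 * P (i 2) b) / (V1 + V2)

theorem aff_qp {s : ℕ} {P : Fin s → Fin 2 → K} {i : Fin 3 → Fin s} {V1 V2 : K} (h1 : V1 ≠ 0)
    (h2 : V2 ≠ 0) (h12 : V1 + V2 ≠ 0) :
    aff (qp P i V1 V2) = (V1 * V2 / (V1 + V2)) • (mat3 P i).mulVec ![0, V1⁻¹, V2⁻¹] := by
  funext r
  rw [Pi.smul_apply, Matrix.mulVec, dotProduct, Fin.sum_univ_three]
  fin_cases r
  · simp [aff, qp, mat3]
    field_simp
  · simp [aff, qp, mat3]
    field_simp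
  · simp [aff, mat3]
    field_simp
    ring

theorem van_qp {s : ℕ} {P : Fin s → Fin 2 → K} {i : Fin 3 → Fin s} {V1 V2 : K} (h1 : V1 ≠ 0)
    (h2 : V2 ≠ 0) (h12 : V1 + V2 ≠ 0) {m d : ℕ} {f : MvPolynomial (Fin 3) K}
    (hf : f.IsHomogeneous d) (h : Van ((mat3 P i).mulVec ![0, V1⁻¹, V2⁻¹]) m f) :
    Van (aff (qp P i V1 V2)) m f := by
  rw [aff_qp h1 h2 h12]
  exact ((t_lin K).2 f d hf _ (div_ne_zero (mul_ne_zero h1 h2) h12) _ m).2 h

theorem ln_qp {s : ℕ} {P : Fin s → Fin 2 → K} {i : Fin 3 → Fin s} {V1 V2 : K}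
    (h12 : V1 + V2 ≠ 0) : Van (aff (qp P i V1 V2)) 1 (ln (P (i 1)) (P (i 2))) := by
  rw [SH.van_one]
  simp [ln, aff, qp]
  field_simp
  ring

/-- The ninth point is different from the others. -/
theorem qp_ne {s : ℕ} {P P' : Fin s → Fin 2 → K}
    (hP' : AlgebraicIndependent ℚ (fun ij : Fin s × Fin 2 => P' ij.1 ij.2)) {i : Fin 3 → Fin s}
    (h : SH.CRel P P' i) {V1 V2 : K} (h1 : V1 ≠ 0) (h2 : V2 ≠ 0) (h12 : V1 + V2 ≠ 0)
    (j : Fin s) : qp P i V1 V2 ≠ P' j := by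
  have hi12 : i 1 ≠ i 2 := fun h' => absurd (h.inj h') (by decide)
  have hne : P' (i 1) ≠ P' (i 2) := fun h' => hi12 (inj_of_alg hP' h')
  have hqp : qp P i V1 V2 = qp P' i V1 V2 := by
    unfold qp
    rw [h.base, h.base]
  rw [hqp]
  have key : ∀ b, P' (i 1) b ≠ P' (i 2) b ∨ P' (i 1) b = P' (i 2) b := fun b => (em _).symm
  have hex : ∃ b, P' (i 1) b ≠ P' (i 2) b := by
    by_contra hcon
    push Not at hcon
    exact hne (funext hcon)
  obtain ⟨b, hb⟩ := hex
  by_cases hj1 : j = i 1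
  · rw [hj1]
    intro h'
    have h3 := congrFun h' b
    unfold qp at h3
    rw [div_eq_iff h12] at h3
    have h4 : V1 * (P' (i 2) b - P' (i 1) b) = 0 := by linear_combination h3
    rcases mul_eq_zero.1 h4 with h5 | h5
    · exact h1 h5
    · exact hb (sub_eq_zero.1 h5).symm
  by_cases hj2 : j = i 2
  · rw [hj2]
    intro h'
    have h3 := congrFun h' b
    unfold qp at h3
    rw [div_eq_iff h12] at h3
    have h4 : V2 * (P' (i 1) b - P' (i 2) b) = 0 := by linear_combination h3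
    rcases mul_eq_zero.1 h4 with h5 | h5
    · exact h2 h5
    · exact hb (sub_eq_zero.1 h5)
  intro h'
  refine line_two hP' (ln_ne hne) (ln_hom _ _) ![j, i 1, i 2] (inj3 hj1 hj2 hi12) fun k => ?_
  fin_cases k
  · show Van (aff (P' j)) 1 _
    rw [← h']
    exact ln_qp h12
  · exact ln_left _ _
  · exact ln_right _ _

/-- The multiplicities of the transform of the exceptional curve. -/
theorem ln_ord {s : ℕ} {P P' : Fin s → Fin 2 → K}
    (hP' : AlgebraicIndependent ℚ (fun ij : Fin s × Fin 2 => P' ij.1 ij.2)) {i : Fin 3 → Fin s}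
    (h : SH.CRel P P' i) {V1 V2 : K} (h12 : V1 + V2 ≠ 0) (j : Fin (s + 1)) :
    Ord (aff ((Fin.cons (qp P i V1 V2) P' : Fin (s + 1) → Fin 2 → K) j))
      ((Fin.cons 1 (fun j => if j = i 1 ∨ j = i 2 then 1 else 0) : Fin (s + 1) → ℕ) j)
      (ln (P' (i 1)) (P' (i 2))) := by
  have hi12 : i 1 ≠ i 2 := fun h' => absurd (h.inj h') (by decide)
  have hne : P' (i 1) ≠ P' (i 2) := fun h' => hi12 (inj_of_alg hP' h')
  have hone : ∀ q : Fin 2 → K, Van (aff q) 1 (ln (P' (i 1)) (P' (i 2))) →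
      Ord (aff q) 1 (ln (P' (i 1)) (P' (i 2))) := fun q hq =>
    ⟨hq, fun h2 => line_mult (ln_ne hne) (ln_hom _ _) h2⟩
  refine Fin.cases ?_ (fun j => ?_) j
  · simp only [Fin.cons_zero]
    refine hone _ ?_
    have hqp : qp P i V1 V2 = qp P' i V1 V2 := by
      unfold qp
      rw [h.base, h.base]
    rw [hqp]
    exact ln_qp h12
  · simp only [Fin.cons_succ]
    by_cases hj1 : j = i 1
    · subst hj1
      rw [if_pos (Or.inl rfl)]
      exact hone _ (ln_left _ _)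
    by_cases hj2 : j = i 2
    · subst hj2
      rw [if_pos (Or.inr rfl)]
      exact hone _ (ln_right _ _)
    rw [if_neg (by tauto)]
    refine ⟨van_zero _ _, fun h3 => ?_⟩
    refine line_two hP' (ln_ne hne) (ln_hom _ _) ![j, i 1, i 2] (inj3 hj1 hj2 hi12) fun k => ?_
    fin_cases k
    · exact h3
    · exact ln_left _ _
    · exact ln_right _ _

end Pool.Agent.H884.TF
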