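import Pool.Agent.H884.TF.Vel10

set_option autoImplicit false
set_option linter.unusedSectionVars false

/-!
# A cubic curve through nine generic points is smooth
-/

namespace Pool.Agent.H884.TF

open MvPolynomial Pool.Agent.W609 Pool.Agent.W609.CR Pool.Agent.TH167 Pool.Agent.TH167.SH
  Pool.Agent.TH167.DD Pool.Agent.H248R6

variable {K : Type} [Field K] [CharZero K]

theorem van_pd {v : Fin 3 → K} {f : MvPolynomial (Fin 3) K} (h : Van v 2 f) (l : Fin 3) :
    eval v (pderiv l f) = 0 := by
  unfold Van at h
  rw [pow_two] at h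
  refine Submodule.mul_induction_on h (fun x hx y hy => ?_) (fun x y hx hy => ?_)
  · rw [RingHom.mem_ker] at hx hy
    rw [Derivation.leibniz, smul_eq_mul, smul_eq_mul, map_add, map_mul, map_mul, hx, hy, zero_mul,
      zero_mul, add_zero]
  · rw [map_add, map_add, hx, hy, add_zero]

/-- A cubic curve through nine generic points has no double point. -/
theorem no_sing [IsAlgClosed K] {P : Fin 9 → Fin 2 → K}
    (hP : AlgebraicIndependent ℚ (fun ij : Fin 9 × Fin 2 => P ij.1 ij.2))
    {A : MvPolynomial (Fin 3) K} (hA : Irreducible A) (hA3 : A.IsHomogeneous 3)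
    {μ : Fin 3 →₀ ℕ} (hμ : coeff μ A = 1) (hord : ∀ j, Ord (aff (P j)) 1 A)
    {x : Fin 2 → K} (hx2 : Van (aff x) 2 A) : False := by
  classical
  obtain ⟨D, hD⟩ := TT.exists_D hP
  have hPinj : Function.Injective P := inj_of_alg hP
  obtain ⟨u, O, hu, hO, hx, hln, hη, hpol, hy⟩ := exists_O hA hA3 hPinj hord
  have hPA : ∀ j, eval (aff (P j)) A = 0 := fun j => (TT.van_one).1 (hord j).1
  have hxA : eval (aff x) A = 0 := (TT.van_one).1 (van_mono (by norm_num) hx2)
  let Dw : (Fin 9 × Fin 2 → K) → Derivation ℚ K K := fun w => ∑ y, w y • D y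
  have hDw : ∀ w z, Dw w z = ∑ y, w y * D y z := fun w z => TT.sum_der _ _ _ _
  have hDP : ∀ w i b, Dw w (P i b) = w (i, b) := by
    intro w i b
    rw [hDw, Finset.sum_eq_single (i, b)]
    · rw [hD, if_pos ⟨rfl, rfl⟩, mul_one]
    · intro y _ hy
      rw [hD, if_neg, mul_zero]
      intro h
      exact hy (Prod.ext h.1.symm h.2.symm)
    · intro h
      exact absurd (Finset.mem_univ _) h
  let L : (Fin 9 × Fin 2 → K) →ₗ[K] MvPolynomial (Fin 3) K :=
    { toFun := fun w => ∑ y, w y • dG (D y) A
      map_add' := fun w w' => by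
        simp only [Pi.add_apply, add_smul, Finset.sum_add_distrib]
      map_smul' := fun t w => by
        simp only [Pi.smul_apply, smul_eq_mul, mul_smul, RingHom.id_apply, Finset.smul_sum] }
  have hL : ∀ w, L w = ∑ y, w y • dG (D y) A := fun w => rfl
  have hLD : ∀ w, dG (Dw w) A = L w := by
    intro w
    ext s
    rw [coeff_dG, hDw, hL, coeff_sum]
    exact Finset.sum_congr rfl fun y _ => by rw [coeff_smul, coeff_dG, smul_eq_mul]
  have hH := H248R6.finrank_homog (K := K) 3
  have hHf : Module.Finite K ↥(homogeneousSubmodule (Fin 3) K 3) :=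
    Module.Finite.iff_fg.2 (homogeneousSubmodule_fg _ _ 3)
  -- the cubic forms which vanish at the double point
  let ev : MvPolynomial (Fin 3) K →ₗ[K] K :=
    { toFun := fun G => eval (aff x) G
      map_add' := fun G H => map_add _ G H
      map_smul' := fun c G => by
        rw [smul_eval, RingHom.id_apply, smul_eq_mul] }
  have hev : ∀ G, ev G = eval (aff x) G := fun G => rfl
  let U : Submodule K (MvPolynomial (Fin 3) K) :=
    homogeneousSubmodule (Fin 3) K 3 ⊓ LinearMap.ker ev
  have hU : ∀ G, G ∈ U ↔ G.IsHomogeneous 3 ∧ eval (aff x) G = 0 := fun G => by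
    show G ∈ homogeneousSubmodule (Fin 3) K 3 ⊓ LinearMap.ker ev ↔ _
    rw [Submodule.mem_inf, LinearMap.mem_ker, hev, mem_homogeneousSubmodule]
  have hUlt : U < homogeneousSubmodule (Fin 3) K 3 := by
    rw [lt_iff_le_and_ne]
    refine ⟨inf_le_left, fun h => ?_⟩
    have h1 : (X 2 ^ 3 : MvPolynomial (Fin 3) K) ∈ U := by
      rw [h, mem_homogeneousSubmodule]
      exact isHomogeneous_X_pow 2 3
    have h2 := ((hU _).1 h1).2
    rw [map_pow, eval_X] at h2
    have h3 : aff x 2 = 1 := rfl
    rw [h3, one_pow] at h2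
    exact one_ne_zero h2
  have hU9 := Submodule.finrank_lt_finrank_of_lt hUlt
  have hUf : Module.Finite K ↥U := by
    have := hHf
    exact Submodule.finiteDimensional_of_le hUlt.le
  have hrange : LinearMap.range L < U := by
    rw [lt_iff_le_and_ne]
    constructor
    · rintro _ ⟨w, rfl⟩
      rw [hU]
      refine ⟨?_, ?_⟩
      · rw [hL]
        exact (homogeneousSubmodule (Fin 3) K 3).sum_mem fun y _ =>
          Submodule.smul_mem _ _ (dG_homog _ hA3)
      · rw [← hLD]
        have h1 := der_eval (Dw w) (aff x) A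
        rw [hxA, map_zero, Finset.sum_eq_zero (fun a _ => by
          rw [van_pd hx2, zero_mul]), add_zero] at h1
        exact h1.symm
    · intro heq
      have h1 : A ∈ LinearMap.range L := by
        rw [heq, hU]
        exact ⟨hA3, hxA⟩
      obtain ⟨w, hw⟩ := h1
      have h2 := congrArg (coeff μ) hw
      rw [hμ, hL, coeff_sum, Finset.sum_eq_zero (fun y _ => by
        rw [coeff_smul, coeff_dG, hμ, (D y).map_one_eq_zero, smul_zero])] at h2
      exact zero_ne_one h2
  have hr8 := Submodule.finrank_lt_finrank_of_lt hrange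
  rw [hH] at hU9
  have hrk := LinearMap.finrank_range_add_finrank_ker L
  rw [Module.finrank_fintype_fun_eq_card, Fintype.card_prod, Fintype.card_fin,
    Fintype.card_fin] at hrk
  have h10 : (3 + 2).choose 2 = 10 := rfl
  rw [h10] at hU9
  have hker : ∀ w : ↥(LinearMap.ker L), dG (Dw w.1) A = 0 := by
    intro w
    rw [hLD]
    exact w.2
  let E : ↥(LinearMap.ker L) →ₗ[K] (Fin 9 → K) :=
    { toFun := fun w j => Dw w.1 (sl O (P j))
      map_add' := fun w w' => by
        funext j
        simp only [hDw, Submodule.coe_add, Pi.add_apply, add_mul, Finset.sum_add_distrib]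
      map_smul' := fun t w => by
        funext j
        simp only [hDw, Submodule.coe_smul, Pi.smul_apply, smul_eq_mul, RingHom.id_apply,
          mul_assoc, ← Finset.mul_sum] }
  have hE : ∀ w j, E w j = Dw w.1 (sl O (P j)) := fun w j => rfl
  have hinj : Function.Injective E := by
    rw [← LinearMap.ker_eq_bot, LinearMap.ker_eq_bot']
    intro w hw
    apply Subtype.ext
    funext y
    show w.1 y = 0
    have hs : Dw w.1 (sl O (P y.1)) = 0 := by
      have h1 := congrFun hw y.1
      rw [hE] at h1
      exact h1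
    have h2 := der_pt (Dw w.1) hA3 (hker w) (der_O (Dw w.1) (hker w) hu hO hy) (hx y.1)
      (hPA _) (hη _) hs y.2
    rw [hDP] at h2
    exact h2
  have h1 := LinearMap.finrank_le_finrank_of_injective hinj
  rw [Module.finrank_fintype_fun_eq_card, Fintype.card_fin] at h1
  omega

end Pool.Agent.H884.TF
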