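import Pool.Agent.H884.TF.Abel3
import Pool.Graph.R_seed8.TH167.DD.Choose

set_option autoImplicit false
set_option linter.unusedSectionVars false

/-!
# The projection of a plane curve from a point: the substitution
-/

namespace Pool.Agent.H884.TF

open MvPolynomial Pool.Agent.W609 Pool.Agent.W609.CR Pool.Agent.TH167 Pool.Agent.TH167.SH
  Pool.Agent.TH167.DD Pool.Agent.H248R6

variable {K : Type} [Field K] [CharZero K]

/-- The substitution of the point `Y O + (1, s, 0)`. -/
noncomputable def phi (O : Fin 2 → K) : MvPolynomial (Fin 3) K →ₐ[K] Polynomial (Polynomial K) :=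
  aeval ![Polynomial.C (Polynomial.C (O 0)) * Polynomial.X + 1,
    Polynomial.C (Polynomial.C (O 1)) * Polynomial.X + Polynomial.C Polynomial.X, Polynomial.X]

/-- The substitution of the point `R O + (1, s, 0)`. -/
noncomputable def psi (O : Fin 2 → K) (R : Polynomial K) :
    MvPolynomial (Fin 3) K →ₐ[K] Polynomial K :=
  aeval ![Polynomial.C (O 0) * R + 1, Polynomial.C (O 1) * R + Polynomial.X, R]

theorem phi_C (O : Fin 2 → K) (c : K) : phi O (C c) = Polynomial.C (Polynomial.C c) := by
  rw [phi, aeval_C]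
  rfl

theorem psi_C (O : Fin 2 → K) (R : Polynomial K) (c : K) : psi O R (C c) = Polynomial.C c := by
  rw [psi, aeval_C]
  rfl

theorem phi_X0 (O : Fin 2 → K) : phi O (X 0) =
    Polynomial.C (Polynomial.C (O 0)) * Polynomial.X + 1 := by
  rw [phi, aeval_X]
  rfl

theorem phi_X1 (O : Fin 2 → K) : phi O (X 1) =
    Polynomial.C (Polynomial.C (O 1)) * Polynomial.X + Polynomial.C Polynomial.X := by
  rw [phi, aeval_X]
  rfl

theorem phi_X2 (O : Fin 2 → K) : phi O (X 2) = Polynomial.X := by
  rw [phi, aeval_X]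
  rfl

theorem psi_X0 (O : Fin 2 → K) (R : Polynomial K) : psi O R (X 0) =
    Polynomial.C (O 0) * R + 1 := by
  rw [psi, aeval_X]
  rfl

theorem psi_X1 (O : Fin 2 → K) (R : Polynomial K) : psi O R (X 1) =
    Polynomial.C (O 1) * R + Polynomial.X := by
  rw [psi, aeval_X]
  rfl

theorem psi_X2 (O : Fin 2 → K) (R : Polynomial K) : psi O R (X 2) = R := by
  rw [psi, aeval_X]
  rfl

theorem eval_phi (O : Fin 2 → K) (R : Polynomial K) (F : MvPolynomial (Fin 3) K) :
    (phi O F).eval R = psi O R F := by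
  induction F using MvPolynomial.induction_on with
  | C c => rw [phi_C, psi_C, Polynomial.eval_C]
  | add p q hp hq => rw [map_add, Polynomial.eval_add, hp, hq, map_add]
  | mul_X p i hp =>
    rw [map_mul, Polynomial.eval_mul, hp, map_mul]
    congr 1
    fin_cases i
    · show (phi O (X 0)).eval R = psi O R (X 0)
      rw [phi_X0, psi_X0]
      simp
    · show (phi O (X 1)).eval R = psi O R (X 1)
      rw [phi_X1, psi_X1]
      simp
    · show (phi O (X 2)).eval R = psi O R (X 2)
      rw [phi_X2, psi_X2]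
      simp

theorem eval_psi (O : Fin 2 → K) (R : Polynomial K) (s : K) (F : MvPolynomial (Fin 3) K) :
    (psi O R F).eval s = eval ![O 0 * R.eval s + 1, O 1 * R.eval s + s, R.eval s] F := by
  induction F using MvPolynomial.induction_on with
  | C c => rw [psi_C, Polynomial.eval_C, eval_C]
  | add p q hp hq => rw [map_add, Polynomial.eval_add, hp, hq, map_add]
  | mul_X p i hp =>
    rw [map_mul, Polynomial.eval_mul, hp, map_mul, eval_X]
    congr 1
    fin_cases i
    · show (psi O R (X 0)).eval s = _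
      rw [psi_X0]
      simp
    · show (psi O R (X 1)).eval s = _
      rw [psi_X1]
      simp
    · show (psi O R (X 2)).eval s = _
      rw [psi_X2]
      simp

/-- The bidegree. -/
def Bd (d : ℕ) (G : Polynomial (Polynomial K)) : Prop :=
  ∀ k n, (G.coeff k).coeff n ≠ 0 → k + n ≤ d

theorem Bd.mul {a b : ℕ} {G H : Polynomial (Polynomial K)} (hG : Bd a G) (hH : Bd b H) :
    Bd (a + b) (G * H) := by
  intro k n h
  rw [Polynomial.coeff_mul, Polynomial.finsetSum_coeff] at h
  obtain ⟨x, hx, h2⟩ := Finset.exists_ne_zero_of_sum_ne_zero h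
  rw [Polynomial.coeff_mul] at h2
  obtain ⟨y, hy, h3⟩ := Finset.exists_ne_zero_of_sum_ne_zero h2
  have a1 := hG _ _ (left_ne_zero_of_mul h3)
  have a2 := hH _ _ (right_ne_zero_of_mul h3)
  rw [Finset.HasAntidiagonal.mem_antidiagonal] at hx hy
  omega

theorem Bd.add {a : ℕ} {G H : Polynomial (Polynomial K)} (hG : Bd a G) (hH : Bd a H) :
    Bd a (G + H) := by
  intro k n h
  rw [Polynomial.coeff_add, Polynomial.coeff_add] at h
  by_cases h1 : (G.coeff k).coeff n = 0
  · rw [h1, zero_add] at h
    exact hH k n h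
  · exact hG k n h1

theorem Bd.sum {a : ℕ} {ι : Type} (s : Finset ι) {G : ι → Polynomial (Polynomial K)}
    (hG : ∀ i ∈ s, Bd a (G i)) : Bd a (∑ i ∈ s, G i) := by
  intro k n h
  rw [Polynomial.finsetSum_coeff, Polynomial.finsetSum_coeff] at h
  obtain ⟨x, hx, h2⟩ := Finset.exists_ne_zero_of_sum_ne_zero h
  exact hG x hx k n h2

theorem Bd.C (c : K) : Bd 0 (Polynomial.C (Polynomial.C c) : Polynomial (Polynomial K)) := by
  intro k n h
  by_cases hk : k = 0
  · subst hk
    rw [Polynomial.coeff_C_zero] at h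
    by_cases hn : n = 0
    · rw [hn]
    · rw [Polynomial.coeff_C_of_ne_zero hn] at h
      exact absurd rfl h
  · rw [Polynomial.coeff_C_of_ne_zero hk, Polynomial.coeff_zero] at h
    exact absurd rfl h

theorem Bd.mono {a b : ℕ} (hab : a ≤ b) {G : Polynomial (Polynomial K)} (hG : Bd a G) :
    Bd b G := fun k n h => (hG k n h).trans hab

theorem Bd.X : Bd 1 (Polynomial.X : Polynomial (Polynomial K)) := by
  intro k n h
  rw [Polynomial.coeff_X] at h
  by_cases hk : 1 = k
  · subst hk
    rw [if_pos rfl, Polynomial.coeff_one] at h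
    by_cases hn : n = 0
    · rw [hn]
    · rw [if_neg hn] at h
      exact absurd rfl h
  · rw [if_neg hk, Polynomial.coeff_zero] at h
    exact absurd rfl h

theorem Bd.CX : Bd 1 (Polynomial.C Polynomial.X : Polynomial (Polynomial K)) := by
  intro k n h
  by_cases hk : k = 0
  · subst hk
    rw [Polynomial.coeff_C_zero, Polynomial.coeff_X] at h
    by_cases hn : 1 = n
    · omega
    · rw [if_neg hn] at h
      exact absurd rfl h
  · rw [Polynomial.coeff_C_of_ne_zero hk, Polynomial.coeff_zero] at h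
    exact absurd rfl h

theorem Bd.pow {a : ℕ} {G : Polynomial (Polynomial K)} (hG : Bd a G) (n : ℕ) :
    Bd (n * a) (G ^ n) := by
  induction n with
  | zero =>
    rw [pow_zero, Nat.zero_mul]
    have := Bd.C (1 : K)
    rwa [Polynomial.C_1, Polynomial.C_1] at this
  | succ n ih =>
    rw [pow_succ, Nat.succ_mul]
    exact ih.mul hG

theorem phi_Bd1 (O : Fin 2 → K) (i : Fin 3) : Bd 1 (phi O (X i)) := by
  have h1 : Bd 0 (1 : Polynomial (Polynomial K)) := by
    have := Bd.C (1 : K)
    rwa [Polynomial.C_1, Polynomial.C_1] at this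
  fin_cases i
  · show Bd 1 (phi O (X 0))
    rw [phi_X0]
    exact (((Bd.C _).mul Bd.X).mono (by norm_num)).add (h1.mono (by norm_num))
  · show Bd 1 (phi O (X 1))
    rw [phi_X1]
    exact (((Bd.C _).mul Bd.X).mono (by norm_num)).add Bd.CX
  · show Bd 1 (phi O (X 2))
    rw [phi_X2]
    exact Bd.X

theorem phi_expand (O : Fin 2 → K) (F : MvPolynomial (Fin 3) K) :
    phi O F = ∑ α ∈ F.support, Polynomial.C (Polynomial.C (coeff α F)) *
      (phi O (X 0) ^ α 0 * phi O (X 1) ^ α 1 * phi O (X 2) ^ α 2) := by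
  conv_lhs => rw [F.as_sum, map_sum]
  refine Finset.sum_congr rfl fun α _ => ?_
  rw [monomial_eq, map_mul, phi_C, Finsupp.prod_fintype _ _ (by simp), map_prod,
    Fin.prod_univ_three, map_pow, map_pow, map_pow]

theorem deg_sum {F : MvPolynomial (Fin 3) K} {d : ℕ} (hF : F.IsHomogeneous d) {α : Fin 3 →₀ ℕ}
    (hα : α ∈ F.support) : α 0 + α 1 + α 2 = d := by
  have h2 := hF (mem_support_iff.1 hα)
  rw [Finsupp.weight_apply, Finsupp.sum_fintype _ _ (by simp), Fin.sum_univ_three] at h2
  simpa using h2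

theorem phi_Bd (O : Fin 2 → K) {F : MvPolynomial (Fin 3) K} {d : ℕ} (hF : F.IsHomogeneous d) :
    Bd d (phi O F) := by
  rw [phi_expand]
  refine Bd.sum _ fun α hα => ?_
  have h1 := deg_sum hF hα
  refine ((Bd.C _).mul ((((phi_Bd1 O 0).pow _).mul ((phi_Bd1 O 1).pow _)).mul
    ((phi_Bd1 O 2).pow _))).mono ?_
  omega

theorem phi_deg (O : Fin 2 → K) {F : MvPolynomial (Fin 3) K} {d : ℕ} (hF : F.IsHomogeneous d)
    (k : ℕ) : ((phi O F).coeff k).natDegree ≤ d - k := by
  refine Polynomial.natDegree_le_iff_coeff_eq_zero.2 fun n hn => ?_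
  by_contra h
  have := phi_Bd O hF k n h
  omega

theorem phi_deg2 (O : Fin 2 → K) {F : MvPolynomial (Fin 3) K} {d : ℕ} (hF : F.IsHomogeneous d) :
    (phi O F).natDegree ≤ d := by
  refine Polynomial.natDegree_le_iff_coeff_eq_zero.2 fun k hk => ?_
  ext n
  rw [Polynomial.coeff_zero]
  by_contra h
  have := phi_Bd O hF k n h
  omega

theorem phi_sum (O : Fin 2 → K) {F : MvPolynomial (Fin 3) K} {d : ℕ} (hF : F.IsHomogeneous d)
    (R : Polynomial K) :
    ∑ k ∈ Finset.range (d + 1), (phi O F).coeff k * R ^ k = psi O R F := by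
  rw [← eval_phi, Polynomial.eval_eq_sum_range' (n := d + 1) (lt_of_le_of_lt (phi_deg2 O hF)
    (Nat.lt_succ_self d))]

theorem phi_one_deg (O : Fin 2 → K) (i : Fin 3) : (phi O (X i)).natDegree ≤ 1 :=
  phi_deg2 O (isHomogeneous_X K i)

theorem phi_one_coeff (O : Fin 2 → K) (i : Fin 3) :
    (phi O (X i)).coeff 1 = Polynomial.C (aff O i) := by
  fin_cases i
  · show (phi O (X 0)).coeff 1 = Polynomial.C (O 0)
    rw [phi_X0]
    simp [Polynomial.coeff_one]
  · show (phi O (X 1)).coeff 1 = Polynomial.C (O 1)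
    rw [phi_X1]
    simp [Polynomial.coeff_C]
  · show (phi O (X 2)).coeff 1 = Polynomial.C 1
    rw [phi_X2]
    simp

/-- The leading coefficient is the value at the point. -/
theorem phi_top (O : Fin 2 → K) {F : MvPolynomial (Fin 3) K} {d : ℕ} (hF : F.IsHomogeneous d) :
    (phi O F).coeff d = Polynomial.C (eval (aff O) F) := by
  rw [phi_expand, Polynomial.finsetSum_coeff, MvPolynomial.eval_eq', map_sum]
  refine Finset.sum_congr rfl fun α hα => ?_
  rw [Polynomial.coeff_C_mul, ← deg_sum hF hα, Fin.prod_univ_three, map_mul]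
  congr 1
  have h1 : ∀ i, (phi O (X i) ^ α i).natDegree ≤ α i := fun i =>
    (Polynomial.natDegree_pow_le_of_le (α i) (phi_one_deg O i)).trans (by rw [mul_one])
  have h2 : ∀ i, (phi O (X i) ^ α i).coeff (α i) = Polynomial.C (aff O i) ^ α i := fun i => by
    have := Polynomial.coeff_pow_of_natDegree_le (m := α i) (phi_one_deg O i)
    rw [mul_one] at this
    rw [this, phi_one_coeff]
  rw [Polynomial.coeff_mul_add_eq_of_natDegree_le
    (Polynomial.natDegree_mul_le_of_le (h1 0) (h1 1)) (h1 2),
    Polynomial.coeff_mul_add_eq_of_natDegree_le (h1 0) (h1 1), h2, h2, h2]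
  simp only [map_mul, map_pow]

theorem phi_polar (O : Fin 2 → K) (F : MvPolynomial (Fin 3) K) :
    Polynomial.derivative (phi O F) = phi O (polar O F) := by
  unfold polar
  induction F using MvPolynomial.induction_on with
  | C c => simp [phi_C]
  | add p q hp hq =>
    rw [map_add, map_add, hp, hq]
    simp only [map_add, map_mul, phi_C]
    ring
  | mul_X p i hp =>
    rw [map_mul, Polynomial.derivative_mul, hp]
    simp only [Derivation.leibniz, smul_eq_mul, map_add, map_mul, phi_C]
    fin_cases i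
    · simp only [Fin.zero_eta, phi_X0, pderiv_X, Pi.single_eq_same, map_one, Fin.mk_one]
      simp [Pi.single_apply]
      ring
    · simp [phi_X1, pderiv_X, Pi.single_apply]
      ring
    · simp [phi_X2, pderiv_X, Pi.single_apply]
      ring

theorem phi_euler (O : Fin 2 → K) {F : MvPolynomial (Fin 3) K} {d : ℕ} (hF : F.IsHomogeneous d) :
    phi O (pderiv 0 F) + Polynomial.C Polynomial.X * phi O (pderiv 1 F) +
      Polynomial.X * Polynomial.derivative (phi O F) = (d : Polynomial (Polynomial K)) * phi O F := by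
  have h1 := congrArg (phi O) hF.sum_X_mul_pderiv
  rw [Fin.sum_univ_three, map_add, map_add, map_mul, map_mul, map_mul, map_nsmul,
    nsmul_eq_mul, phi_X0, phi_X1, phi_X2] at h1
  rw [phi_polar, ← h1]
  unfold polar
  rw [map_add, map_add, map_mul, map_mul, phi_C, phi_C]
  ring

end Pool.Agent.H884.TF
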