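import Pool.Agent.H884.TF.Sub
import Pool.Graph.R_seed8.TH167.TT.Move

set_option autoImplicit false
set_option linter.unusedSectionVars false

/-!
# The projection of a plane curve from a point: derivations, orders and the norm
-/

namespace Pool.Agent.H884.TF

open MvPolynomial Pool.Agent.W609 Pool.Agent.W609.CR Pool.Agent.TH167 Pool.Agent.TH167.SH
  Pool.Agent.TH167.DD Pool.Agent.H248R6

variable {K : Type} [Field K] [CharZero K]

/-- A derivation acting on the coefficients of the coefficients. -/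
noncomputable def dPP (D : Derivation ℚ K K) (p : Polynomial (Polynomial K)) :
    Polynomial (Polynomial K) :=
  ∑ i ∈ p.support, Polynomial.monomial i (dP D (p.coeff i))

theorem coeff_dPP (D : Derivation ℚ K K) (p : Polynomial (Polynomial K)) (n : ℕ) :
    (dPP D p).coeff n = dP D (p.coeff n) := by
  unfold dPP
  rw [Polynomial.finsetSum_coeff]
  simp only [Polynomial.coeff_monomial]
  rw [Finset.sum_ite_eq']
  split_ifs with h
  · rfl
  · rw [Polynomial.notMem_support_iff.1 h, dP_zero]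

theorem dPP_add (D : Derivation ℚ K K) (p q : Polynomial (Polynomial K)) :
    dPP D (p + q) = dPP D p + dPP D q := by
  ext n : 1
  simp only [coeff_dPP, Polynomial.coeff_add, dP_add]

theorem dPP_mul (D : Derivation ℚ K K) (p q : Polynomial (Polynomial K)) :
    dPP D (p * q) = dPP D p * q + p * dPP D q := by
  ext n : 1
  rw [coeff_dPP, Polynomial.coeff_mul, Polynomial.coeff_add, Polynomial.coeff_mul,
    Polynomial.coeff_mul, dP_sum, ← Finset.sum_add_distrib]
  refine Finset.sum_congr rfl fun x _ => ?_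
  rw [dP_mul, coeff_dPP, coeff_dPP]

theorem dPP_C (D : Derivation ℚ K K) (c : Polynomial K) :
    dPP D (Polynomial.C c) = Polynomial.C (dP D c) := by
  ext n : 1
  rw [coeff_dPP, Polynomial.coeff_C, Polynomial.coeff_C]
  split_ifs
  · rfl
  · exact dP_zero D

theorem dP_one (D : Derivation ℚ K K) : dP D 1 = 0 := by
  rw [← Polynomial.C_1, dP_C, D.map_one_eq_zero, Polynomial.C_0]

theorem dPP_X (D : Derivation ℚ K K) : dPP D (Polynomial.X : Polynomial (Polynomial K)) = 0 := by
  ext n : 1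
  rw [coeff_dPP, Polynomial.coeff_X, Polynomial.coeff_zero]
  split_ifs
  · exact dP_one D
  · exact dP_zero D

theorem dPP_phi_X (D : Derivation ℚ K K) {O : Fin 2 → K} (hO : ∀ i, D (O i) = 0) (i : Fin 3) :
    dPP D (phi O (X i)) = 0 := by
  have h1 : dPP D (1 : Polynomial (Polynomial K)) = 0 := by
    rw [← Polynomial.C_1, dPP_C, dP_one, Polynomial.C_0]
  fin_cases i
  · show dPP D (phi O (X 0)) = 0
    rw [phi_X0, dPP_add, dPP_mul, dPP_C, dP_C, hO, dPP_X, h1]
    simp
  · show dPP D (phi O (X 1)) = 0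
    rw [phi_X1, dPP_add, dPP_mul, dPP_C, dPP_C, dP_C, hO, dPP_X, dP_X]
    simp
  · show dPP D (phi O (X 2)) = 0
    rw [phi_X2, dPP_X]

theorem dPP_phi (D : Derivation ℚ K K) {O : Fin 2 → K} (hO : ∀ i, D (O i) = 0)
    (F : MvPolynomial (Fin 3) K) : dPP D (phi O F) = phi O (dG D F) := by
  induction F using MvPolynomial.induction_on with
  | C c => rw [phi_C, dG_C, phi_C, dPP_C, dP_C]
  | add p q hp hq => rw [map_add, dPP_add, dG_add, map_add, hp, hq]
  | mul_X p i hp =>
    rw [map_mul, dPP_mul, hp, dG_mul, dG_X, dPP_phi_X D hO, mul_zero, mul_zero, add_zero, add_zero,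
      map_mul]

/-- The coefficients of a constant form are constant. -/
theorem dP_phi_const (D : Derivation ℚ K K) {O : Fin 2 → K} (hO : ∀ i, D (O i) = 0)
    {F : MvPolynomial (Fin 3) K} (hF : dG D F = 0) (k : ℕ) : dP D ((phi O F).coeff k) = 0 := by
  rw [← coeff_dPP, dPP_phi D hO, hF, map_zero, Polynomial.coeff_zero]

/-- The order of the restriction to a curve. -/
theorem van_psi {O p : Fin 2 → K} {s ρ : K} (hρ : ρ ≠ 0) (h0 : O 0 * ρ + 1 = ρ * p 0)
    (h1 : O 1 * ρ + s = ρ * p 1) {F : MvPolynomial (Fin 3) K} {d m : ℕ} (hF : F.IsHomogeneous d)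
    (hv : Van (aff p) m F) {R : Polynomial K} (hR : R.eval s = ρ) :
    (Polynomial.X - Polynomial.C s) ^ m ∣ psi O R F := by
  have h2 := ((t_lin K).2 F d hF ρ hρ (aff p) m).2 hv
  have h3 : RingHom.ker (eval (ρ • aff p)) ≤
      (Ideal.span {(Polynomial.X - Polynomial.C s : Polynomial K)}).comap
        (psi O R : MvPolynomial (Fin 3) K →+* Polynomial K) := by
    intro f hf
    rw [RingHom.mem_ker] at hf
    rw [Ideal.mem_comap, Ideal.mem_span_singleton, Polynomial.dvd_iff_isRoot, Polynomial.IsRoot.def]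
    show (psi O R f).eval s = 0
    rw [eval_psi, hR, ← hf, h0, h1]
    congr 1
    congr 1
    funext i
    fin_cases i
    · simp [aff]
    · simp [aff]
    · simp [aff]
  have h4 := Ideal.pow_right_mono h3 m
  have h5 := h4 h2
  have h6 := Ideal.le_comap_pow (psi O R : MvPolynomial (Fin 3) K →+* Polynomial K)
    (K := Ideal.span {(Polynomial.X - Polynomial.C s : Polynomial K)}) m h5
  rw [Ideal.span_singleton_pow, Ideal.mem_comap, Ideal.mem_span_singleton] at h6
  exact h6

/-- The vanishing of the second coefficient of a cubic form. -/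
theorem alpha_ne {O p : Fin 2 → K} {A : MvPolynomial (Fin 3) K} (hA : A.IsHomogeneous 3)
    (hO : eval (aff O) A = 0) (hp : eval (aff O) (polar p A) ≠ 0) :
    (phi O A).coeff 2 ≠ 0 := by
  intro h
  have h1 := congrArg (fun q => Polynomial.coeff q 2) (phi_euler O hA)
  have e0 : (phi O (pderiv 0 A)).coeff 2 = Polynomial.C (eval (aff O) (pderiv 0 A)) :=
    phi_top O (hA.pderiv (i := 0))
  have e1 : (phi O (pderiv 1 A)).coeff 2 = Polynomial.C (eval (aff O) (pderiv 1 A)) :=
    phi_top O (hA.pderiv (i := 1))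
  simp only [Polynomial.coeff_add, Polynomial.coeff_C_mul] at h1
  have e2 : (Polynomial.X * Polynomial.derivative (phi O A)).coeff 2 = 0 := by
    rw [show (2 : ℕ) = 1 + 1 from rfl, Polynomial.coeff_X_mul, Polynomial.coeff_derivative, h,
      zero_mul]
  have e3 : ((3 : ℕ) : Polynomial (Polynomial K)) = Polynomial.C ((3 : ℕ) : Polynomial K) :=
    (map_natCast Polynomial.C 3).symm
  rw [e2, e3, Polynomial.coeff_C_mul, h, mul_zero, add_zero, e0, e1] at h1
  have h2 : eval (aff O) (pderiv 0 A) = 0 := by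
    have := congrArg (Polynomial.eval 0) h1
    simpa using this
  have h3 : eval (aff O) (pderiv 1 A) = 0 := by
    have := congrArg (Polynomial.eval 1) h1
    simpa [h2] using this
  have h4 := congrArg (eval (aff O)) hA.sum_X_mul_pderiv
  rw [Fin.sum_univ_three] at h4
  simp only [map_add, map_mul, eval_X, h2, h3, mul_zero, zero_add, map_nsmul, hO,
    smul_zero] at h4
  have h5 : aff O 2 = 1 := rfl
  rw [h5, one_mul] at h4
  apply hp
  unfold polar
  simp only [map_add, map_mul, eval_C, h2, h3, h4, mul_zero, add_zero]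

/-- The norm of a form which has finitely many zeros on the cubic curve. -/
theorem norm_ne [IsAlgClosed K] {O : Fin 2 → K} {A F : MvPolynomial (Fin 3) K} {d : ℕ}
    (hA : A.IsHomogeneous 3) (hF : F.IsHomogeneous d) (hA0 : A ≠ 0) (hF0 : F ≠ 0)
    (hrel : IsRelPrime A F) (hO : eval (aff O) A = 0) (hα : (phi O A).coeff 2 ≠ 0)
    (hγ : (phi O A).coeff 0 ≠ 0) :
    SS ((phi O A).coeff 2) ((phi O A).coeff 1) ((phi O A).coeff 0) d
      (fun k => (phi O F).coeff k) (fun k => (phi O F).coeff k) ≠ 0 := by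
  classical
  intro hN
  have hfin := finite_common hA hF hA0 hF0 hrel
  obtain ⟨α, hα'⟩ : ∃ α, α = (phi O A).coeff 2 := ⟨_, rfl⟩
  obtain ⟨β, hβ'⟩ : ∃ β, β = (phi O A).coeff 1 := ⟨_, rfl⟩
  obtain ⟨γ, hγ'⟩ : ∃ γ, γ = (phi O A).coeff 0 := ⟨_, rfl⟩
  rw [← hα', ← hβ', ← hγ'] at hN
  rw [← hα'] at hα
  rw [← hγ'] at hγ
  -- the point with parameters `a`, `ρ`
  have hpt : ∀ (G : MvPolynomial (Fin 3) K) (e : ℕ), G.IsHomogeneous e → ∀ a ρ : K, ρ ≠ 0 →
      ((psi O (Polynomial.C ρ) G).eval a = 0 ↔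
        eval (aff ![O 0 + ρ⁻¹, O 1 + a * ρ⁻¹]) G = 0) := by
    intro G e hG a ρ hρ
    have h1 := ((t_lin K).2 G e hG ρ hρ (aff ![O 0 + ρ⁻¹, O 1 + a * ρ⁻¹]) 1)
    rw [TT.van_one, TT.van_one] at h1
    rw [← h1, eval_psi, Polynomial.eval_C]
    have h2 : (![O 0 * ρ + 1, O 1 * ρ + a, ρ] : Fin 3 → K) =
        ρ • aff ![O 0 + ρ⁻¹, O 1 + a * ρ⁻¹] := by
      funext i
      fin_cases i
      · simp [aff]
        field_simp
      · simp [aff]
        field_simp
      · simp [aff]
    rw [h2]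
  have hA3 : (phi O A).coeff 3 = 0 := by
    rw [phi_top O hA, hO, Polynomial.C_0]
  have hAq : ∀ a ρ : K, (psi O (Polynomial.C ρ) A).eval a =
      α.eval a * ρ ^ 2 + β.eval a * ρ + γ.eval a := by
    intro a ρ
    rw [← phi_sum O hA (Polynomial.C ρ), Finset.sum_range_succ, Finset.sum_range_succ,
      Finset.sum_range_succ, Finset.sum_range_succ, Finset.sum_range_zero, hA3, ← hα', ← hβ', ← hγ']
    simp
    ring
  have hsub : {a : K | α.eval a ≠ 0 ∧ γ.eval a ≠ 0} ⊆
      (fun q : Fin 2 → K => (q 1 - O 1) / (q 0 - O 0)) ''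
        {q : Fin 2 → K | eval (aff q) A = 0 ∧ eval (aff q) F = 0} := by
    rintro a ⟨ha, hc⟩
    obtain ⟨ρ, hρ⟩ := IsAlgClosed.exists_root (Polynomial.C (α.eval a) * Polynomial.X ^ 2 +
      Polynomial.C (β.eval a) * Polynomial.X + Polynomial.C (γ.eval a)) (by
        rw [Polynomial.degree_quadratic ha]
        norm_num)
    have hρ' : α.eval a * ρ ^ 2 + β.eval a * ρ + γ.eval a = 0 := by
      have := hρ
      rw [Polynomial.IsRoot.def] at this
      simpa using this
    obtain ⟨τ, hτ⟩ : ∃ τ, τ = -β.eval a - α.eval a * ρ := ⟨_, rfl⟩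
    obtain ⟨ρ', hρ2⟩ : ∃ ρ', ρ' = τ / α.eval a := ⟨_, rfl⟩
    have hτ' : τ = α.eval a * ρ' := by rw [hρ2]; field_simp
    have e1 : α.eval a * ρ + τ = -β.eval a := by rw [hτ]; ring
    have e2 : ρ * τ = γ.eval a := by rw [hτ]; linear_combination -hρ'
    have hρ0 : ρ ≠ 0 := by
      rintro rfl
      rw [zero_mul] at e2
      exact hc e2.symm
    have hρ'0 : ρ' ≠ 0 := by
      rintro rfl
      rw [mul_zero] at hτ'
      rw [hτ', mul_zero] at e2
      exact hc e2.symm
    have hρ'' : α.eval a * ρ' ^ 2 + β.eval a * ρ' + γ.eval a = 0 := by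
      have : α.eval a * (ρ + ρ') = -β.eval a := by rw [mul_add, ← hτ', e1]
      have h3 : α.eval a * (ρ * ρ') = γ.eval a := by rw [← e2, hτ']; ring
      rw [← h3]
      linear_combination ρ' * this
    have h1 := congrArg (Polynomial.evalRingHom a) hN
    rw [map_SS, map_zero] at h1
    simp only [Polynomial.coe_evalRingHom] at h1
    rw [SS_eq (ρ := ρ) (τ := τ) e1 e2] at h1
    have hFq : ∀ r : K, ∑ k ∈ Finset.range (d + 1),
        ((phi O F).coeff k).eval a * r ^ k =
        (psi O (Polynomial.C r) F).eval a := by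
      intro r
      rw [← phi_sum O hF (Polynomial.C r), Polynomial.eval_finsetSum]
      refine Finset.sum_congr rfl fun k _ => ?_
      simp
    have hFt : ∑ k ∈ Finset.range (d + 1), ((phi O F).coeff k).eval a *
        (α.eval a ^ (d - k) * τ ^ k) =
        (α.eval a) ^ d * (psi O (Polynomial.C ρ') F).eval a := by
      rw [← hFq, Finset.mul_sum]
      refine Finset.sum_congr rfl fun k hk => ?_
      rw [Finset.mem_range] at hk
      have h4 : (α.eval a) ^ d = (α.eval a) ^ (d - k) * (α.eval a) ^ k := by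
        rw [← pow_add]
        congr 1
        omega
      rw [hτ', mul_pow, h4]
      ring
    rw [hFt, hFq] at h1
    have h2 : (psi O (Polynomial.C ρ) F).eval a = 0 ∨ (psi O (Polynomial.C ρ') F).eval a = 0 := by
      by_contra hcon
      push Not at hcon
      have h3 : (2 : K) * ((psi O (Polynomial.C ρ) F).eval a * ((α.eval a) ^ d *
          (psi O (Polynomial.C ρ') F).eval a)) = 0 := by linear_combination h1
      exact mul_ne_zero two_ne_zero (mul_ne_zero hcon.1 (mul_ne_zero (pow_ne_zero _ ha) hcon.2)) h3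
    have h5 : ∃ r : K, r ≠ 0 ∧ α.eval a * r ^ 2 + β.eval a * r + γ.eval a = 0 ∧
        (psi O (Polynomial.C r) F).eval a = 0 := by
      rcases h2 with h2 | h2
      · exact ⟨ρ, hρ0, hρ', h2⟩
      · exact ⟨ρ', hρ'0, hρ'', h2⟩
    obtain ⟨r, hr0, hr1, hr2⟩ := h5
    refine ⟨![O 0 + r⁻¹, O 1 + a * r⁻¹], ⟨?_, ?_⟩, ?_⟩
    · rw [← hpt A 3 hA a r hr0, hAq]
      exact hr1
    · rw [← hpt F d hF a r hr0]
      exact hr2
    · show ((![O 0 + r⁻¹, O 1 + a * r⁻¹] : Fin 2 → K) 1 - O 1) /
        ((![O 0 + r⁻¹, O 1 + a * r⁻¹] : Fin 2 → K) 0 - O 0) = a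
      simp
      field_simp
  have h6 := (hfin.image (fun q : Fin 2 → K => (q 1 - O 1) / (q 0 - O 0))).subset hsub
  have h7 : {a : K | α.eval a = 0 ∨ γ.eval a = 0}.Finite := by
    refine ((Polynomial.finite_setOfPred_isRoot hα).union
      (Polynomial.finite_setOfPred_isRoot hγ)).subset ?_
    rintro a (ha | ha)
    · exact Or.inl ha
    · exact Or.inr ha
  refine Set.infinite_univ (α := K) ((h6.union h7).subset fun a _ => ?_)
  by_cases h : α.eval a ≠ 0 ∧ γ.eval a ≠ 0
  · exact Or.inl h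
  · right
    rw [not_and_or, not_not, not_not] at h
    exact h

end Pool.Agent.H884.TF
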