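import Pool.Agent.H884.TF.Blow
import Pool.Graph.R_seed8.W641.CR.Std

set_option autoImplicit false
set_option linter.unusedSectionVars false

/-!
# The quadratic transformation of a component
-/

namespace Pool.Agent.H884.TF

open MvPolynomial Pool.Agent.W609 Pool.Agent.W609.CR Pool.Agent.TH167 Pool.Agent.TH167.SH
  Pool.Agent.TH167.DD Pool.Agent.H248R6

variable {K : Type} [Field K] [CharZero K]

/-- The exponents of the reversal. -/
noncomputable def NN (f : MvPolynomial (Fin 3) K) : Fin 3 →₀ ℕ :=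
  Finsupp.equivFunOnFinite.symm fun k => degreeOf k f

theorem NN_apply (f : MvPolynomial (Fin 3) K) (k : Fin 3) : NN f k = degreeOf k f := by
  simp [NN]

/-- The standard transformation of an irreducible form, which is not a coordinate. -/
theorem std2 {G : MvPolynomial (Fin 3) K} {d : ℕ} {m : Fin 3 → ℕ} (hirr : Irreducible G)
    (hG : G.IsHomogeneous d) (hnd : ∀ i, ¬ (X i : MvPolynomial (Fin 3) K) ∣ G)
    (hbs : ∀ k, Ord (bs k) (m k) G) :
    m 0 + m 1 ≤ d ∧ m 0 + m 2 ≤ d ∧ m 1 + m 2 ≤ d ∧ (∀ k, NN G k + m k = d) ∧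
    (∀ a ∈ G.support, a ≤ NN G) ∧
    Irreducible (rev (n := 2) (NN G) G) ∧
    (∀ i, ¬ (X i : MvPolynomial (Fin 3) K) ∣ rev (n := 2) (NN G) G) ∧
    NN (rev (n := 2) (NN G) G) = NN G ∧
    rev (n := 2) (NN G) (rev (n := 2) (NN G) G) = G ∧
    (rev (n := 2) (NN G) G).IsHomogeneous (2 * d - (m 0 + m 1 + m 2)) ∧
    (∀ k, Ord (bs k) ((![d - (m 1 + m 2), d - (m 0 + m 2), d - (m 0 + m 1)] : Fin 3 → ℕ) k)
      (rev (n := 2) (NN G) G)) ∧
    ∀ (u : Fin 3 → K) (w : ℕ), (∀ k, u k ≠ 0) → Ord u w G →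
      Ord (fun k => (u k)⁻¹) w (rev (n := 2) (NN G) G) := by
  have hE := fun k => W641.CR.ord_exists hG k (hbs k)
  have hmd : ∀ k, m k ≤ d := by
    intro k
    obtain ⟨a, ha, hak⟩ := (hE k).2
    omega
  obtain ⟨a2, ha2, hz2⟩ := W641.CR.exists_zero 2 (hnd 2)
  obtain ⟨a1, ha1, hz1⟩ := W641.CR.exists_zero 1 (hnd 1)
  obtain ⟨a0, ha0, hz0⟩ := W641.CR.exists_zero 0 (hnd 0)
  have hdeg2 : a2 0 + a2 1 + a2 2 = d := by
    rw [← W641.CR.sum3]; exact homog_degree (n := 2) hG ha2
  have hdeg1 : a1 0 + a1 1 + a1 2 = d := by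
    rw [← W641.CR.sum3]; exact homog_degree (n := 2) hG ha1
  have hdeg0 : a0 0 + a0 1 + a0 2 = d := by
    rw [← W641.CR.sum3]; exact homog_degree (n := 2) hG ha0
  have h01 : m 0 + m 1 ≤ d := by
    have e0 := (hE 0).1 a2 ha2
    have e1 := (hE 1).1 a2 ha2
    omega
  have h02 : m 0 + m 2 ≤ d := by
    have e0 := (hE 0).1 a1 ha1
    have e1 := (hE 2).1 a1 ha1
    omega
  have h12 : m 1 + m 2 ≤ d := by
    have e0 := (hE 1).1 a0 ha0
    have e1 := (hE 2).1 a0 ha0
    omega
  obtain ⟨N, hNdef⟩ : ∃ N, N = NN G := ⟨_, rfl⟩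
  have hNdeg : ∀ k, N k = degreeOf k G := fun k => by rw [hNdef, NN_apply]
  have hNk : ∀ k, N k = d - m k := by
    intro k
    rw [hNdeg, MvPolynomial.degreeOf_eq_sup]
    obtain ⟨a, ha, hak⟩ := (hE k).2
    apply le_antisymm
    · refine Finset.sup_le fun b hb => ?_
      have := (hE k).1 b hb
      omega
    · have h1 : a k ≤ G.support.sup fun b => b k := Finset.le_sup (f := fun b => b k) ha
      omega
  have hNle : ∀ a ∈ G.support, a ≤ N := by
    intro a ha k
    rw [hNk]
    have := (hE k).1 a ha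
    omega
  rw [← hNdef]
  obtain ⟨hirr', hnd', hdeg', hrr⟩ := t_star K G N hirr hnd hNdeg
  obtain ⟨G', hG'def⟩ : ∃ G' : MvPolynomial (Fin 3) K, G' = rev (n := 2) N G := ⟨_, rfl⟩
  rw [← hG'def] at hirr' hnd' hrr ⊢
  have hdeg' : ∀ i : Fin 3, degreeOf i G' = N i := by
    rw [hG'def]
    exact hdeg'
  have hNN' : NN G' = N := by
    ext k
    rw [NN_apply, hdeg']
  have hNsum : N.degree = (d - m 0) + (d - m 1) + (d - m 2) := by
    rw [W641.CR.sum3, hNk, hNk, hNk]
  have hhom : G'.IsHomogeneous (2 * d - (m 0 + m 1 + m 2)) := by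
    have h1 := rev_homog (n := 2) hG hNle
    have h2 : N.degree - d = 2 * d - (m 0 + m 1 + m 2) := by
      rw [hNsum]
      have e0 := hmd 0
      have e1 := hmd 1
      have e2 := hmd 2
      omega
    rw [← h2, hG'def]
    exact h1
  have hN'le : ∀ a ∈ G'.support, a ≤ N := by
    intro a ha
    rw [hG'def] at ha
    obtain ⟨b, hb, rfl⟩ := mem_support_rev (n := 2) ha
    exact tsub_le_self
  have hne' : G'.support.Nonempty := by
    rw [MvPolynomial.support_nonempty]
    exact hirr'.ne_zero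
  have hex : ∀ k, ∃ a ∈ G'.support, a k = N k := by
    intro k
    have h1 := hdeg' k
    rw [MvPolynomial.degreeOf_eq_sup] at h1
    obtain ⟨a, ha, hak⟩ := Finset.exists_mem_eq_sup _ hne' (fun b : Fin 3 →₀ ℕ => b k)
    refine ⟨a, ha, ?_⟩
    rw [← h1]
    exact hak.symm
  refine ⟨h01, h02, h12, fun k => by rw [hNk]; have := hmd k; omega, hNle, hirr', hnd', hNN', hrr,
    hhom, ?_, ?_⟩
  · have key : ∀ k (c : ℕ), c + N k = 2 * d - (m 0 + m 1 + m 2) → Ord (bs k) c G' := by
      intro k c hc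
      apply W641.CR.ord_of_exists hhom k
      · intro a ha
        have := hN'le a ha k
        omega
      · obtain ⟨a, ha, hak⟩ := hex k
        exact ⟨a, ha, by omega⟩
    intro k
    have e0 := hmd 0
    have e1 := hmd 1
    have e2 := hmd 2
    fin_cases k
    · apply key
      have := hNk 0
      simp only [Fin.zero_eta, Fin.isValue, Matrix.cons_val_zero]
      omega
    · apply key
      have := hNk 1
      simp only [Fin.mk_one, Fin.isValue, Matrix.cons_val_one, Matrix.cons_val_zero]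
      omega
    · apply key
      have := hNk 2
      simp only [Fin.reduceFinMk, Fin.isValue, Matrix.cons_val]
      omega
  · intro u w hu hw
    refine ⟨?_, ?_⟩
    · rw [hG'def]
      exact rev_mem (n := 2) hNle u hu w hw.1
    · intro hv
      apply hw.2
      have h1 := rev_mem (n := 2) hN'le (fun k => (u k)⁻¹) (fun k => inv_ne_zero (hu k))
        (w + 1) hv
      simp only [inv_inv] at h1
      rw [hrr] at h1
      exact h1

/-- The reversal and scalars. -/
theorem rev_C_mul {N : Fin 3 →₀ ℕ} {f : MvPolynomial (Fin 3) K} {c : K} (hc : c ≠ 0) :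
    rev (n := 2) N (C c * f) = C c * rev (n := 2) N f := by
  classical
  have hs : (C c * f).support = f.support := by
    ext a
    rw [mem_support_iff, mem_support_iff, coeff_C_mul]
    exact ⟨fun h => right_ne_zero_of_mul h, fun h => mul_ne_zero hc h⟩
  unfold rev
  rw [hs, Finset.mul_sum]
  refine Finset.sum_congr rfl fun a _ => ?_
  rw [coeff_C_mul, C_mul_monomial]

theorem NN_C_mul {f : MvPolynomial (Fin 3) K} {c : K} (hc : c ≠ 0) :
    NN (C c * f) = NN f := by
  classical
  have hs : (C c * f).support = f.support := by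
    ext a
    rw [mem_support_iff, mem_support_iff, coeff_C_mul]
    exact ⟨fun h => right_ne_zero_of_mul h, fun h => mul_ne_zero hc h⟩
  ext k
  rw [NN_apply, NN_apply, MvPolynomial.degreeOf_eq_sup, MvPolynomial.degreeOf_eq_sup, hs]

/-- The quadratic transformation of a form. -/
noncomputable def TR (A : Matrix (Fin 3) (Fin 3) K) (g : MvPolynomial (Fin 3) K) :
    MvPolynomial (Fin 3) K :=
  Pool.Agent.W609.CR.lin A⁻¹ (rev (n := 2) (NN (Pool.Agent.W609.CR.lin A g))
    (Pool.Agent.W609.CR.lin A g))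

theorem lin_lin {A : Matrix (Fin 3) (Fin 3) K} (hA : A.det ≠ 0) (f : MvPolynomial (Fin 3) K) :
    Pool.Agent.W609.CR.lin A (Pool.Agent.W609.CR.lin A⁻¹ f) = f ∧
      Pool.Agent.W609.CR.lin A⁻¹ (Pool.Agent.W609.CR.lin A f) = f := by
  have key : ∀ B C' : Matrix (Fin 3) (Fin 3) K, C' * B = 1 →
      (Pool.Agent.W609.CR.lin B).comp (Pool.Agent.W609.CR.lin C') = AlgHom.id K _ := by
    intro B C' h
    apply MvPolynomial.algHom_ext
    intro i
    rw [AlgHom.comp_apply, Pool.Agent.W609.CR.lin, Pool.Agent.W609.CR.lin, aeval_X, map_sum]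
    have h1 : ∀ j, (aeval fun i => ∑ j, C (B i j) * X j : MvPolynomial (Fin 3) K →ₐ[K]
        MvPolynomial (Fin 3) K) (C (C' i j) * X j) = ∑ l, C (C' i j * B j l) * X l := by
      intro j
      rw [map_mul, aeval_X, aeval_C, Finset.mul_sum]
      refine Finset.sum_congr rfl fun l _ => ?_
      rw [C_mul]
      rw [← mul_assoc]
      rfl
    rw [Finset.sum_congr rfl fun j _ => h1 j, Finset.sum_comm]
    have h2 : ∀ l, ∑ j, C (C' i j * B j l) * X l = C ((C' * B) i l) * (X l :
        MvPolynomial (Fin 3) K) := by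
      intro l
      rw [Matrix.mul_apply, map_sum, Finset.sum_mul]
    rw [Finset.sum_congr rfl fun l _ => h2 l, h, Finset.sum_eq_single i]
    · simp
    · intro l _ hl
      rw [Matrix.one_apply_ne hl.symm, C_0, zero_mul]
    · intro hi
      exact absurd (Finset.mem_univ _) hi
  have hu : IsUnit A.det := isUnit_iff_ne_zero.2 hA
  exact ⟨DFunLike.congr_fun (key A A⁻¹ (Matrix.nonsing_inv_mul _ hu)) f,
    DFunLike.congr_fun (key A⁻¹ A (Matrix.mul_nonsing_inv _ hu)) f⟩

end Pool.Agent.H884.TF
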