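import Pool.Agent.H884.TF.Main9

set_option autoImplicit false
set_option linter.unusedSectionVars false

/-!
# The velocities of nine generic points and another point of the cubic curve through them
-/

namespace Pool.Agent.H884.TF

open MvPolynomial Pool.Agent.W609 Pool.Agent.W609.CR Pool.Agent.TH167 Pool.Agent.TH167.SH
  Pool.Agent.TH167.DD Pool.Agent.H248R6

variable {K : Type} [Field K] [CharZero K]

/-- The velocities of the ten points: the nine generic points move independently on the cubic
curve, and the curves which meet it only in the ten points give linear relations. -/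
theorem velocities [IsAlgClosed K] {P : Fin 9 → Fin 2 → K}
    (hP : AlgebraicIndependent ℚ (fun ij : Fin 9 × Fin 2 => P ij.1 ij.2))
    {A : MvPolynomial (Fin 3) K} (hA : Irreducible A) (hA3 : A.IsHomogeneous 3)
    {μ : Fin 3 →₀ ℕ} (hμ : coeff μ A = 1)
    {Q : Fin 10 → Fin 2 → K} (hQ : Function.Injective Q) (hQP : ∀ i : Fin 9, Q i.succ = P i)
    (hord : ∀ j, Ord (aff (Q j)) 1 A) :
    ∃ V : Submodule K (Fin 10 → K), (∀ v : Fin 9 → K, ∃ w ∈ V, ∀ i : Fin 9, w i.succ = v i) ∧
      ∀ (F : MvPolynomial (Fin 3) K) (d : ℕ) (m : Fin 10 → ℕ), 1 ≤ d → F.IsHomogeneous d →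
        F ≠ 0 → IsRelPrime A F → (∀ j, Van (aff (Q j)) (m j) F) → ∑ j, m j = 3 * d →
        ∀ w ∈ V, ∑ j, (m j : K) * w j = 0 := by
  classical
  obtain ⟨D, hD⟩ := TT.exists_D hP
  obtain ⟨u, O, hu, hO, hx, hln, hη, hpol, hy⟩ := exists_O hA hA3 hQ hord
  have hα := alpha_ne hA3 hO hpol
  have hQA : ∀ j, eval (aff (Q j)) A = 0 := fun j => (TT.van_one).1 (hord j).1
  let Dw : (Fin 9 × Fin 2 → K) → Derivation ℚ K K := fun w => ∑ y, w y • D y
  have hDw : ∀ w z, Dw w z = ∑ y, w y * D y z := fun w z => TT.sum_der _ _ _ _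
  have hDP : ∀ w i b, Dw w (P i b) = w (i, b) := by
    intro w i b
    rw [hDw, Finset.sum_eq_single (i, b)]
    · rw [hD, if_pos ⟨rfl, rfl⟩, mul_one]
    · intro y _ hy
      rw [hD, if_neg, mul_zero]
      intro h
      exact hy (Prod.ext h.1.symm h.2.symm)
    · intro h
      exact absurd (Finset.mem_univ _) h
  -- the derivations which kill `A`
  let L : (Fin 9 × Fin 2 → K) →ₗ[K] MvPolynomial (Fin 3) K :=
    { toFun := fun w => ∑ y, w y • dG (D y) A
      map_add' := fun w w' => by
        simp only [Pi.add_apply, add_smul, Finset.sum_add_distrib]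
      map_smul' := fun t w => by
        simp only [Pi.smul_apply, smul_eq_mul, mul_smul, RingHom.id_apply, Finset.smul_sum] }
  have hL : ∀ w, L w = ∑ y, w y • dG (D y) A := fun w => rfl
  have hLD : ∀ w, dG (Dw w) A = L w := by
    intro w
    ext s
    rw [coeff_dG, hDw, hL, coeff_sum]
    exact Finset.sum_congr rfl fun y _ => by rw [coeff_smul, coeff_dG, smul_eq_mul]
  have hH := H248R6.finrank_homog (K := K) 3
  have hHf : Module.Finite K ↥(homogeneousSubmodule (Fin 3) K 3) :=
    Module.Finite.iff_fg.2 (homogeneousSubmodule_fg _ _ 3)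
  have hrange : LinearMap.range L < homogeneousSubmodule (Fin 3) K 3 := by
    rw [lt_iff_le_and_ne]
    constructor
    · rintro _ ⟨w, rfl⟩
      rw [hL]
      exact Submodule.sum_mem _ fun y _ => Submodule.smul_mem _ _ (dG_homog _ hA3)
    · intro heq
      have h1 : A ∈ LinearMap.range L := by
        rw [heq]
        exact hA3
      obtain ⟨w, hw⟩ := h1
      have h2 := congrArg (coeff μ) hw
      rw [hμ, hL, coeff_sum, Finset.sum_eq_zero (fun y _ => by
        rw [coeff_smul, coeff_dG, hμ, (D y).map_one_eq_zero, smul_zero])] at h2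
      exact zero_ne_one h2
  have hr9 := Submodule.finrank_lt_finrank_of_lt hrange
  rw [hH] at hr9
  have hrk := LinearMap.finrank_range_add_finrank_ker L
  rw [Module.finrank_fintype_fun_eq_card, Fintype.card_prod, Fintype.card_fin,
    Fintype.card_fin] at hrk
  have h10 : (3 + 2).choose 2 = 10 := rfl
  rw [h10] at hr9
  have hker : ∀ w : ↥(LinearMap.ker L), dG (Dw w.1) A = 0 := by
    intro w
    rw [hLD]
    exact w.2
  let E : ↥(LinearMap.ker L) →ₗ[K] (Fin 10 → K) :=
    { toFun := fun w j => Dw w.1 (sl O (Q j)) / et O A (Q j)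
      map_add' := fun w w' => by
        funext j
        simp only [hDw, Submodule.coe_add, Pi.add_apply, add_mul, Finset.sum_add_distrib, add_div]
      map_smul' := fun t w => by
        funext j
        simp only [hDw, Submodule.coe_smul, Pi.smul_apply, smul_eq_mul, RingHom.id_apply,
          mul_assoc, ← Finset.mul_sum, mul_div_assoc] }
  have hE : ∀ w j, E w j = Dw w.1 (sl O (Q j)) / et O A (Q j) := fun w j => rfl
  let R : (Fin 10 → K) →ₗ[K] (Fin 9 → K) := LinearMap.funLeft K K Fin.succ
  have hR : ∀ w i, R w i = w (Fin.succ i) := fun w i => rfl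
  have hinj : Function.Injective (R ∘ₗ E) := by
    rw [← LinearMap.ker_eq_bot, LinearMap.ker_eq_bot']
    intro w hw
    apply Subtype.ext
    funext y
    show w.1 y = 0
    have hs : Dw w.1 (sl O (Q y.1.succ)) = 0 := by
      have h1 := congrFun hw y.1
      rw [LinearMap.comp_apply, hR, hE] at h1
      exact (div_eq_zero_iff.1 h1).resolve_right (et_ne hA3 hO (hx _) (hη _))
    have h2 := der_pt (Dw w.1) hA3 (hker w) (der_O (Dw w.1) (hker w) hu hO hy) (hx y.1.succ)
      (hQA _) (hη _) hs y.2
    rw [hQP, hDP] at h2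
    exact h2
  have hsurj : LinearMap.range (R ∘ₗ E) = ⊤ := by
    apply Submodule.eq_top_of_finrank_eq
    have h1 := LinearMap.finrank_range_of_inj hinj
    have h2 := Submodule.finrank_le (LinearMap.range (R ∘ₗ E))
    rw [Module.finrank_fintype_fun_eq_card, Fintype.card_fin] at h2 ⊢
    omega
  refine ⟨LinearMap.range E, fun v => ?_, ?_⟩
  · obtain ⟨w, hw⟩ : v ∈ LinearMap.range (R ∘ₗ E) := by
      rw [hsurj]
      exact Submodule.mem_top
    exact ⟨E w, ⟨w, rfl⟩, fun i => congrFun hw i⟩
  · rintro F d m hd hF hF0 hrel hv hm _ ⟨w, rfl⟩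
    exact geo_abel (Dw w.1) hA hA3 (hker w) (der_O (Dw w.1) (hker w) hu hO hy) hQA hO hx hln
      hη hα hd hF hF0 hrel hv hm

end Pool.Agent.H884.TF
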